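import Pool.Agent.Lib.P4a177y.DefY

/-!
# Reindexing of the sum over two lines of tuples
-/

set_option autoImplicit false

namespace P4a177y

open Function

namespace CntYAux

variable {n : ℕ} {m : Fin n → ℕ}

/-- the tuples on a line -/
theorem line (G : (∀ s, Fin (m s + 1)) → ℤ) (s : Fin n) (q : ∀ s, Fin (m s + 1)) :
    ∑ i, G (update q s i) =
      ∑ j : (∀ s, Fin (m s + 1)), if ∀ t, t ≠ s → j t = q t then G j else 0 := by
  rw [← Finset.sum_filter]
  refine Finset.sum_bij' (fun i _ => update q s i) (fun j _ => j s) ?_ ?_ ?_ ?_ ?_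
  · intro i _
    rw [Finset.mem_filter]
    exact ⟨Finset.mem_univ _, fun t ht => update_of_ne ht i q⟩
  · intro j _
    exact Finset.mem_univ _
  · intro i _
    exact update_self s i q
  · intro j hj
    have h := (Finset.mem_filter.1 hj).2
    funext t
    by_cases ht : t = s
    · subst ht
      rw [update_self]
    · rw [update_of_ne ht, h t ht]
  · intro i _
    rfl

/-- the tuples on a plane -/
theorem plane (G : (∀ s, Fin (m s + 1)) → ℤ) {s s' : Fin n} (hs : s' ≠ s)
    (q : ∀ s, Fin (m s + 1)) :
    ∑ i, ∑ i', G (update (update q s i) s' i') =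
      ∑ j : (∀ s, Fin (m s + 1)), if ∀ t, t ≠ s → t ≠ s' → j t = q t then G j else 0 := by
  have h1 : ∀ i, ∑ i', G (update (update q s i) s' i') =
      ∑ j : (∀ s, Fin (m s + 1)), if ∀ t, t ≠ s' → j t = update q s i t then G j else 0 :=
    fun i => line G s' (update q s i)
  rw [Finset.sum_congr rfl fun i _ => h1 i, Finset.sum_comm]
  refine Finset.sum_congr rfl fun j _ => ?_
  by_cases h : ∀ t, t ≠ s → t ≠ s' → j t = q t
  · rw [if_pos h, Finset.sum_eq_single (j s)]
    · rw [if_pos]
      intro t ht
      by_cases hts : t = s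
      · subst hts
        rw [update_self]
      · rw [update_of_ne hts, h t hts ht]
    · intro i _ hi
      rw [if_neg]
      intro h2
      have h3 := h2 s (Ne.symm hs)
      rw [update_self] at h3
      exact hi h3.symm
    · intro h2
      exact absurd (Finset.mem_univ _) h2
  · rw [if_neg h]
    refine Finset.sum_eq_zero fun i _ => ?_
    rw [if_neg]
    intro h2
    apply h
    intro t hts hts'
    rw [h2 t hts', update_of_ne hts]

end CntYAux

open CntYAux

theorem reindex {n : ℕ} (m : Fin n → ℕ) (F : Fin n → (∀ s, Fin (m s + 1)) → ℤ) (s : Fin n)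
    (q : ∀ s, Fin (m s + 1)) :
    ∑ i, ∑ s', ∑ i', F s' (update (update q s i) s' i') =
      ∑ s', ∑ j : (∀ s, Fin (m s + 1)), F s' j * ((if s' = s then (m s : ℤ) + 1 else 1) *
        (if ∀ t, t ≠ s → t ≠ s' → j t = q t then 1 else 0)) := by
  rw [Finset.sum_comm]
  refine Finset.sum_congr rfl fun s' _ => ?_
  by_cases hs : s' = s
  · subst hs
    have h1 : ∀ i, ∑ i', F s' (update (update q s' i) s' i') = ∑ i', F s' (update q s' i') := by
      intro i
      refine Finset.sum_congr rfl fun i' _ => ?_
      rw [update_idem]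
    rw [Finset.sum_congr rfl fun i _ => h1 i, Finset.sum_const, Finset.card_univ, Fintype.card_fin,
      line (F s') s' q, nsmul_eq_mul, Finset.mul_sum]
    refine Finset.sum_congr rfl fun j _ => ?_
    rw [if_pos rfl]
    by_cases h : ∀ t, t ≠ s' → j t = q t
    · rw [if_pos h, if_pos fun t ht _ => h t ht]
      push_cast
      ring
    · rw [if_neg h, if_neg fun h' => h fun t ht => h' t ht ht]
      ring
  · rw [plane (F s') hs q]
    refine Finset.sum_congr rfl fun j _ => ?_
    rw [if_neg hs]
    split_ifs <;> ring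

end P4a177y
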