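import Pool.Agent.Lib.P4a177y.DefK

/-!
# MODULE P4a177y.CuspK: the cusps of the curve `P(x) Q(y) = 1` (Hensel's lemma)

PROOF. Let `z = PowerSeries.X`, `B = C e * ∏ j, (1 - C (b j) * z)` in `𝕜[[z]]`, with the constant coefficient `e ≠ 0`,
`W = B⁻¹ * C c⁻¹ * z ^ (q + 1)`. The monic polynomial `f = ∏ k, (T - C (C (a k))) - C W` over `𝕜[[z]]` has at `T = a i`
the value `- W`, in the maximal ideal, and its derivative is `∏_{k ≠ i} (a i - a k)`, a nonzero constant. `𝕜[[z]]` is
Henselian, so there is a root `F` with `F - C (a i)` divisible by `z`. The `F - C (a k)`, `k ≠ i`, are units, so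
`F - C (a i) = W / ∏_{k ≠ i} (F - C (a k)) = z ^ (q + 1) * U` with `U` a unit. In the field of Laurent series put
`x' = F`, `y' = single (-1) 1 = z⁻¹`: `P(x') = c ∏ (F - a k) = c W`, and `Q(y') = e ∏ (z⁻¹ - b j) = z ^ (-(q + 1)) B`, so
the product is `1`, and the universal property gives the homomorphism.
-/

set_option autoImplicit false

namespace P4a177y

open Polynomial P4a177h P4a177u

variable {𝕜 : Type} [Field 𝕜]

namespace CuspKAux

/-- Hensel's lemma for `∏ (T - a k) = W`. -/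
theorem exists_root {p : ℕ} (a : Fin (p + 1) → 𝕜) (ha : Function.Injective a) (i : Fin (p + 1))
    (W : PowerSeries 𝕜) (hW : PowerSeries.X ∣ W) :
    ∃ F : PowerSeries 𝕜, ∏ k, (F - PowerSeries.C (a k)) = W ∧
      PowerSeries.X ∣ F - PowerSeries.C (a i) := by
  classical
  set I : Ideal (PowerSeries 𝕜) := Ideal.span {PowerSeries.X} with hI
  have hH : HenselianRing (PowerSeries 𝕜) I := inferInstance
  set g : (PowerSeries 𝕜)[X] := ∏ k ∈ Finset.univ.erase i, (X - C (PowerSeries.C (a k))) with hg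
  set f0 : (PowerSeries 𝕜)[X] := ∏ k, (X - C (PowerSeries.C (a k))) with hf0
  have hfg : f0 = (X - C (PowerSeries.C (a i))) * g := by
    rw [hf0, hg, Finset.mul_prod_erase Finset.univ
      (fun k => (X - C (PowerSeries.C (a k)) : (PowerSeries 𝕜)[X])) (Finset.mem_univ i)]
  have hm0 : f0.Monic := monic_prod_of_monic _ _ fun k _ => monic_X_sub_C _
  have hdeg : f0.degree = ((p + 1 : ℕ) : WithBot ℕ) := by
    rw [degree_eq_natDegree hm0.ne_zero, hf0,
      natDegree_prod_of_monic _ _ (fun k _ => monic_X_sub_C _)]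
    simp
  have hm : (f0 - C W).Monic := by
    refine hm0.sub_of_left (lt_of_le_of_lt degree_C_le ?_)
    rw [hdeg]
    exact_mod_cast Nat.succ_pos p
  have hev : ∀ F : PowerSeries 𝕜, (f0 - C W).eval F = ∏ k, (F - PowerSeries.C (a k)) - W := by
    intro F
    rw [eval_sub, eval_C, hf0, eval_prod]
    simp only [eval_sub, eval_X, eval_C]
  have h0 : (f0 - C W).eval (PowerSeries.C (a i)) ∈ I := by
    rw [hev, Finset.prod_eq_zero (Finset.mem_univ i) (sub_self _), zero_sub, hI,
      Ideal.mem_span_singleton]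
    exact hW.neg_right
  have h1 : (f0 - C W).derivative.eval (PowerSeries.C (a i)) =
      PowerSeries.C (∏ k ∈ Finset.univ.erase i, (a i - a k)) := by
    rw [derivative_sub, derivative_C, sub_zero, hfg, derivative_mul, derivative_X_sub_C, one_mul,
      eval_add, eval_mul, eval_sub, eval_X, eval_C, sub_self, zero_mul, add_zero, hg, eval_prod,
      map_prod]
    refine Finset.prod_congr rfl fun k _ => ?_
    rw [eval_sub, eval_X, eval_C, map_sub]
  have h2 : IsUnit ((f0 - C W).derivative.eval (PowerSeries.C (a i))) := by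
    rw [h1]
    refine IsUnit.map _ (IsUnit.mk0 _ ?_)
    refine Finset.prod_ne_zero_iff.2 fun k hk => ?_
    rw [Finset.mem_erase] at hk
    exact sub_ne_zero.2 fun h => hk.1 (ha h).symm
  obtain ⟨F, hF1, hF2⟩ := hH.is_henselian (f0 - C W) hm (PowerSeries.C (a i)) h0
    (h2.map (Ideal.Quotient.mk I))
  refine ⟨F, ?_, ?_⟩
  · have h3 : (f0 - C W).eval F = 0 := hF1
    rw [hev] at h3
    exact sub_eq_zero.1 h3
  · rw [hI, Ideal.mem_span_singleton] at hF2
    exact hF2

end CuspKAux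

variable {R : Type} [CommRing R] [Algebra 𝕜 R] {x y : R} {P Q : 𝕜[X]} {p q : ℕ}
  {a : Fin (p + 1) → 𝕜} {b : Fin (q + 1) → 𝕜} {c e : 𝕜}

theorem exists_cusp (h : Cur R x y P Q) (hP : Rt P a c) (hQ : Rt Q b e) (i : Fin (p + 1)) :
    Nonempty (Cusp R x y (a i) (q + 1)) := by
  classical
  set B : PowerSeries 𝕜 := PowerSeries.C e * ∏ j, (1 - PowerSeries.C (b j) * PowerSeries.X) with hB
  have hB0 : PowerSeries.constantCoeff B ≠ 0 := by
    rw [hB, map_mul, map_prod]
    simp only [map_sub, map_one, map_mul, PowerSeries.constantCoeff_X, mul_zero, sub_zero,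
      Finset.prod_const_one, mul_one, PowerSeries.constantCoeff_C]
    exact hQ.c_ne
  set W : PowerSeries 𝕜 := B⁻¹ * PowerSeries.C c⁻¹ * PowerSeries.X ^ (q + 1) with hW
  have hXW : PowerSeries.X ∣ W := by
    rw [hW]
    exact (dvd_pow_self _ (Nat.succ_ne_zero q)).mul_left _
  obtain ⟨F, hF1, hF2⟩ := CuspKAux.exists_root a hP.inj i W hXW
  have hFc : PowerSeries.constantCoeff F = a i := by
    obtain ⟨G, hG⟩ := hF2
    have := congrArg PowerSeries.constantCoeff hG
    rw [map_sub, map_mul, PowerSeries.constantCoeff_X, zero_mul, PowerSeries.constantCoeff_C,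
      sub_eq_zero] at this
    exact this
  set V : PowerSeries 𝕜 := ∏ k ∈ Finset.univ.erase i, (F - PowerSeries.C (a k)) with hV
  have hV0 : PowerSeries.constantCoeff V ≠ 0 := by
    rw [hV, map_prod]
    refine Finset.prod_ne_zero_iff.2 fun k hk => ?_
    rw [Finset.mem_erase] at hk
    rw [map_sub, PowerSeries.constantCoeff_C, hFc]
    exact sub_ne_zero.2 fun h => hk.1 (hP.inj h).symm
  have hFV : (F - PowerSeries.C (a i)) * V = W := by
    rw [← hF1, hV, Finset.mul_prod_erase Finset.univ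
      (fun k => F - PowerSeries.C (a k)) (Finset.mem_univ i)]
  set U : PowerSeries 𝕜 := B⁻¹ * PowerSeries.C c⁻¹ * V⁻¹ with hU
  have hU0 : PowerSeries.constantCoeff U ≠ 0 := by
    rw [hU, map_mul, map_mul, PowerSeries.constantCoeff_inv, PowerSeries.constantCoeff_inv,
      PowerSeries.constantCoeff_C]
    exact mul_ne_zero (mul_ne_zero (inv_ne_zero hB0) (inv_ne_zero hP.c_ne)) (inv_ne_zero hV0)
  have hFU : F = PowerSeries.C (a i) + PowerSeries.X ^ (q + 1) * U := by
    have h1 : F - PowerSeries.C (a i) = W * V⁻¹ := by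
      rw [← hFV, mul_assoc, PowerSeries.mul_inv_cancel V hV0, mul_one]
    have h2 : W * V⁻¹ = PowerSeries.X ^ (q + 1) * U := by
      rw [hW, hU]
      ring
    rw [← h2, ← h1]
    ring
  -- the point of the curve
  set ι : PowerSeries 𝕜 →+* LaurentSeries 𝕜 := HahnSeries.ofPowerSeries ℤ 𝕜 with hι
  set y' : LaurentSeries 𝕜 := HahnSeries.single (-1 : ℤ) 1 with hy'
  have hyX : y' * ι PowerSeries.X = 1 := by
    rw [hι, HahnSeries.ofPowerSeries_X, hy', HahnSeries.single_mul_single]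
    simp
  have hC : ∀ d : 𝕜, (HahnSeries.C d : LaurentSeries 𝕜) = ι (PowerSeries.C d) := fun d =>
    (HahnSeries.ofPowerSeries_C d).symm
  have hevP : eval₂ (HahnSeries.C : 𝕜 →+* LaurentSeries 𝕜) (ι F) P =
      ι (PowerSeries.C c * W) := by
    rw [hP.eq, eval₂_mul, eval₂_C, eval₂_finsetProd, map_mul, ← hF1, map_prod, hC]
    congr 1
    refine Finset.prod_congr rfl fun k _ => ?_
    rw [eval₂_sub, eval₂_X, eval₂_C, map_sub, hC]
  have hevQ : eval₂ (HahnSeries.C : 𝕜 →+* LaurentSeries 𝕜) y' Q = y' ^ (q + 1) * ι B := by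
    rw [hQ.eq, eval₂_mul, eval₂_C, eval₂_finsetProd, hB, map_mul, map_prod, hC]
    have h1 : ∀ j, eval₂ (HahnSeries.C : 𝕜 →+* LaurentSeries 𝕜) y' (X - C (b j)) =
        y' * ι (1 - PowerSeries.C (b j) * PowerSeries.X) := by
      intro j
      rw [eval₂_sub, eval₂_X, eval₂_C, map_sub, map_one, map_mul, hC]
      calc y' - ι (PowerSeries.C (b j)) =
          y' - ι (PowerSeries.C (b j)) * (y' * ι PowerSeries.X) := by rw [hyX, mul_one]
        _ = y' * (1 - ι (PowerSeries.C (b j)) * ι PowerSeries.X) := by ring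
    rw [Finset.prod_congr rfl fun j _ => h1 j, Finset.prod_mul_distrib, Finset.prod_const,
      Finset.card_univ, Fintype.card_fin]
    ring
  have hprod : eval₂ (HahnSeries.C : 𝕜 →+* LaurentSeries 𝕜) (ι F) P *
      eval₂ (HahnSeries.C : 𝕜 →+* LaurentSeries 𝕜) y' Q = 1 := by
    rw [hevP, hevQ, hW]
    have h1 : PowerSeries.C c * (B⁻¹ * PowerSeries.C c⁻¹ * PowerSeries.X ^ (q + 1)) =
        B⁻¹ * PowerSeries.X ^ (q + 1) := by
      have h2 : (PowerSeries.C c : PowerSeries 𝕜) * PowerSeries.C c⁻¹ = 1 := by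
        rw [← map_mul, mul_inv_cancel₀ hP.c_ne, map_one]
      calc PowerSeries.C c * (B⁻¹ * PowerSeries.C c⁻¹ * PowerSeries.X ^ (q + 1)) =
          (PowerSeries.C c * PowerSeries.C c⁻¹) * (B⁻¹ * PowerSeries.X ^ (q + 1)) := by ring
        _ = B⁻¹ * PowerSeries.X ^ (q + 1) := by rw [h2, one_mul]
    rw [h1, map_mul, map_pow]
    calc ι B⁻¹ * ι PowerSeries.X ^ (q + 1) * (y' ^ (q + 1) * ι B) =
        (y' * ι PowerSeries.X) ^ (q + 1) * ι (B⁻¹ * B) := by
          have h3 : ι (B⁻¹ * B) = ι B⁻¹ * ι B := ι.map_mul _ _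
          rw [h3, mul_pow]
          generalize ι B⁻¹ = u1
          generalize ι B = u2
          ring
      _ = 1 := by rw [hyX, one_pow, PowerSeries.inv_mul_cancel B hB0, map_one, one_mul]
  obtain ⟨φ, hφx, hφy, hφc⟩ := h.univ (LaurentSeries 𝕜) HahnSeries.C (ι F) y' hprod
  exact ⟨⟨φ, F, U, hφc, hφy, hφx, hFU, hU0⟩⟩

end P4a177y
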