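import Pool.Agent.Lib.P4a177u.Defs

/-!
# The curves `P(x) Q(y) = 1` over a field: definitions
-/

set_option autoImplicit false

namespace P4a177y

open Polynomial P4a177h P4a177u

noncomputable section

variable {𝕜 : Type} [Field 𝕜]

/-- The ring `R` is the coordinate ring of the curve `P(x) Q(y) = 1` over `𝕜`: it is generated by `x`
and `y`, and it has the universal property for the points in fields. -/
structure Cur (R : Type) [CommRing R] [Algebra 𝕜 R] (x y : R) (P Q : 𝕜[X]) : Prop where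
  eqn : aeval x P * aeval y Q = 1
  gen : ∀ S : Subalgebra 𝕜 R, x ∈ S → y ∈ S → ∀ r : R, r ∈ S
  univ : ∀ (L : Type) [Field L] (f : 𝕜 →+* L) (x' y' : L), eval₂ f x' P * eval₂ f y' Q = 1 →
    ∃ φ : R →+* L, φ x = x' ∧ φ y = y' ∧ ∀ t, φ (algebraMap 𝕜 R t) = f t

/-- `P = c ∏ (X - a_i)` with different `a_i` and `c ≠ 0`. -/
structure Rt (P : 𝕜[X]) {p : ℕ} (a : Fin (p + 1) → 𝕜) (c : 𝕜) : Prop where
  c_ne : c ≠ 0
  inj : Function.Injective a
  eq : P = C c * ∏ i, (X - C (a i))

/-- A cusp with `x = a₀` and `y = ∞`, ramified of order `n` over the line with the coordinate `x`: the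
homomorphism of the coordinate ring into the Laurent series in `z = 1 / y`. -/
structure Cusp (R : Type) [CommRing R] [Algebra 𝕜 R] (x y : R) (a₀ : 𝕜) (n : ℕ) where
  /-- the homomorphism -/
  φ : R →+* LaurentSeries 𝕜
  /-- the series of `x` -/
  F : PowerSeries 𝕜
  /-- the series of `(x - a₀) / z ^ n` -/
  U : PowerSeries 𝕜
  φ_const : ∀ t, φ (algebraMap 𝕜 R t) = HahnSeries.C t
  hy : φ y = HahnSeries.single (-1 : ℤ) 1
  hx : φ x = (F : LaurentSeries 𝕜)
  hF : F = PowerSeries.C a₀ + PowerSeries.X ^ n * U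
  hU : PowerSeries.constantCoeff U ≠ 0

/-- The valuation of the field of Laurent series. -/
def vL : Valuation (LaurentSeries 𝕜) (WithZero (Multiplicative ℤ)) := Valued.v

theorem Cur.symm {R : Type} [CommRing R] [Algebra 𝕜 R] {x y : R} {P Q : 𝕜[X]}
    (h : Cur R x y P Q) : Cur R y x Q P where
  eqn := by rw [mul_comm]; exact h.eqn
  gen := fun S hy hx => h.gen S hx hy
  univ := fun L _ f y' x' he => by
    obtain ⟨φ, h1, h2, h3⟩ := h.univ L f x' y' (by rw [mul_comm]; exact he)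
    exact ⟨φ, h2, h1, h3⟩

/-- The constants. -/
def csK (𝕜 R : Type) [Field 𝕜] [CommRing R] [Algebra 𝕜 R] : 𝕜ˣ →* Rˣ :=
  Units.map (algebraMap 𝕜 R : 𝕜 →* R)

end

end P4a177y
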