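import Pool.Agent.Lib.P4a177y.UnitK
import Pool.Agent.Lib.P4a177w.Defs
import Pool.Agent.Lib.P4a177e.Stmt

/-!
# The units of the coordinate ring of `N * ∏_s ∏_i (x_s - a_{s,i}) = 1`: definitions
-/

set_option autoImplicit false

namespace P4a177y

open P4a177h P4a177e

noncomputable section

variable {d : ℕ} (A : Fam d) (N : ℕ)

/-- The polynomials in the variables `x_2, …, x_{d+1}`. -/
abbrev PP (d : ℕ) : Type := MvPolynomial (Fin d) ℚ

/-- The field of the rational functions in the variables `x_2, …, x_{d+1}`. -/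
abbrev KK (d : ℕ) : Type := FractionRing (MvPolynomial (Fin d) ℚ)

/-- The coordinate functions. -/
def vy (s : Fin (d + 2)) : A.CoordRing N := Ideal.Quotient.mk _ (MvPolynomial.X s)

/-- The polynomials in `x_2, …, x_{d+1}` in the coordinate ring. -/
def jj : PP d →ₐ[ℚ] A.CoordRing N := MvPolynomial.aeval fun u : Fin d => vy A N u.succ.succ

/-- The polynomial `N * ∏_{s ≥ 2} ∏_i (x_s - a_{s,i})`. -/
def FF : PP d :=
  MvPolynomial.C (N : ℚ) * ∏ u : Fin d, ∏ i : Fin (A.m u.succ.succ + 1),
    (MvPolynomial.X u - MvPolynomial.C (A.a u.succ.succ i : ℚ))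

/-- The polynomial in `x_0` of the generic curve. -/
def PY : Polynomial (KK d) :=
  Polynomial.C (algebraMap (PP d) (KK d) (FF A N)) *
    ∏ i, (Polynomial.X - Polynomial.C (A.a 0 i : KK d))

/-- The polynomial in `x_1` of the generic curve. -/
def QY : Polynomial (KK d) :=
  Polynomial.C (1 : KK d) * ∏ j, (Polynomial.X - Polynomial.C (A.a 1 j : KK d))

end

theorem FF_ne_zero {d : ℕ} (A : Fam d) {N : ℕ} (hN : 1 ≤ N) : FF A N ≠ 0 := by
  unfold FF
  refine mul_ne_zero ?_ (Finset.prod_ne_zero_iff.2 fun u _ => Finset.prod_ne_zero_iff.2 fun i _ => ?_)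
  · rw [Ne, MvPolynomial.C_eq_zero]
    have : N ≠ 0 := by omega
    exact_mod_cast this
  · intro h
    have h1 := congrArg (MvPolynomial.eval fun _ => (A.a u.succ.succ i : ℚ) + 1) h
    simp at h1

end P4a177y
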