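import Pool.Agent.Lib.P4a177x.Defs
import Pool.Agent.Lib.P4a177e.Stmt

/-!
# The symbol part of `K_n` of the hypersurfaces `N * ∏_s ∏_i (x_s - a_{s,i}) = 1`: definitions
-/

set_option autoImplicit false

namespace P4a177y

open P4a177h P4a177x Function MvPolynomial

noncomputable section

/-! ### Multilinear algebra -/

section Algebra

variable {k : ℕ} {m : Fin (k + 1) → ℕ} {V G : Type*} [AddCommGroup V] [AddCommGroup G]
  (f : V [⋀^Fin (k + 1)]→ₗ[ℤ] G) (C : AddSubgroup V) (l : ∀ s, Fin (m s + 1) → V)

/-- The value `(-1)^s f (c, l_{t, j t} (t ≠ s))`. -/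
def ZY (s : Fin (k + 1)) (j : ∀ t, Fin (m t + 1)) (c : V) : G :=
  (-1 : ℤ) ^ (s : ℕ) • f (Fin.cons c (fun b => l (s.succAbove b) (j (s.succAbove b))))

/-- The subgroup generated by the values `f (l_{s, p s + 1} - l_{s, 0})` and the values
`f (c, l_{t, j t} (t ≠ s))` with `c ∈ C`. -/
def HY : AddSubgroup G :=
  AddSubgroup.closure ({x | ∃ p : ∀ s, Fin (m s), x = f (fun s => l s (p s).succ - l s 0)} ∪
    {x | ∃ (s : Fin (k + 1)) (j : ∀ t, Fin (m t + 1)) (c : V), c ∈ C ∧ x = ZY f l s j c})

/-- A value of `f` with two entries in the same list is a sum of two values with one of these two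
entries replaced by an element of `C`. -/
def ParRel : Prop :=
  ∀ (s : Fin (k + 1)) (i i' : Fin (m s + 1)), ∃ c ∈ C, ∃ c' ∈ C,
    ∀ (v : Fin (k + 1) → V) (a b : Fin (k + 1)), a ≠ b → v a = l s i → v b = l s i' →
      f v = f (update v b c) + f (update v a c')

end Algebra

/-! ### The flags -/

/-- The orders of the functions `l_{t,i} = x_t - a_{t,i}` at the flag with `x_s = ∞` and
`x_t = a_{t, q t}` for `t ≠ s`. -/
def rowY {d : ℕ} (m : Fin (d + 2) → ℕ) (s : Fin (d + 2)) (q : ∀ t, Fin (m t + 1))
    (t : Fin (d + 2)) (i : Fin (m t + 1)) : Fin (d + 1) → ℤ :=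
  if t = s then Fin.cons (-1) 0 else if i = q t then
    (if t = s.succAbove 0 then Fin.cons ((m s : ℤ) + 1) (fun _ => -1)
      else fun a => if s.succAbove a = t then 1 else 0) else 0

/-- A place of the hypersurface attached to the flag `(s, q)`: the first component of the flag is the
divisor with `x_s = ∞` and `x_t = a_{t, q t}` for `t = s.succAbove 0`. -/
structure YPlace {d : ℕ} (A : Fam d) (N : ℕ) (s : Fin (d + 2)) (q : ∀ t, Fin (A.m t + 1)) where
  /-- a field which contains the function field of the divisor -/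
  L : Type
  [fieldL : Field L]
  /-- the leading terms on `L` -/
  Λ : Lead L d
  /-- the expansion of the functions -/
  φ : A.CoordRing N →+* LaurentSeries L
  /-- the power series of the units -/
  U : ∀ t, Fin (A.m t + 1) → PowerSeries L
  /-- their constant coefficients -/
  u : ∀ t, Fin (A.m t + 1) → Lˣ
  hu : ∀ t i, PowerSeries.constantCoeff (U t i) = u t i
  hl : ∀ t i, φ (A.linU N t i) =
    HahnSeries.single (rowY A.m s q t i 0) 1 * (U t i : LaurentSeries L)
  ho : ∀ t i a, Λ.o (Additive.ofMul (u t i)) a = rowY A.m s q t i (Fin.succ a)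
  inj : Injective φ

attribute [instance] YPlace.fieldL

end

end P4a177y
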