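import Pool.Agent.Lib.P4a177y.DefU

/-!
# Quotients of polynomials which are functions on the hypersurface

Pseudo-division by a polynomial in one variable, and the divisibility which follows from a
relation `q * W = p` in the coordinate ring.
-/

set_option autoImplicit false

namespace P4a177y

open P4a177h P4a177e Polynomial

theorem pseudo {R : Type} [CommRing R] [IsDomain R] (E : R[X]) (hE : 1 ≤ E.natDegree) (W : R[X]) :
    ∃ (K : ℕ) (A B : R[X]), C (E.leadingCoeff ^ K) * W = A * E + B ∧ B.natDegree < E.natDegree := by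
  have hE0 : E ≠ 0 := by
    rintro rfl
    simp at hE
  have hb : E.leadingCoeff ≠ 0 := leadingCoeff_ne_zero.2 hE0
  induction hn : W.natDegree using Nat.strong_induction_on generalizing W with
  | _ n ih =>
    by_cases hlt : W.natDegree < E.natDegree
    · exact ⟨0, 0, W, by simp, hlt⟩
    push Not at hlt
    have hW0 : W ≠ 0 := by
      rintro rfl
      simp at hlt
      omega
    have hw : W.leadingCoeff ≠ 0 := leadingCoeff_ne_zero.2 hW0
    set k := W.natDegree - E.natDegree with hk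
    set P : R[X] := C E.leadingCoeff * W with hP
    set Q : R[X] := C W.leadingCoeff * X ^ k * E with hQ
    have hP0 : P ≠ 0 := mul_ne_zero (C_ne_zero.2 hb) hW0
    have hQ0 : Q ≠ 0 := mul_ne_zero (mul_ne_zero (C_ne_zero.2 hw) (pow_ne_zero _ X_ne_zero)) hE0
    have hPd : P.natDegree = W.natDegree := by
      rw [hP, natDegree_C_mul hb]
    have hQd : Q.natDegree = W.natDegree := by
      rw [hQ, natDegree_mul (mul_ne_zero (C_ne_zero.2 hw) (pow_ne_zero _ X_ne_zero)) hE0,
        natDegree_C_mul hw, natDegree_X_pow]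
      omega
    have hdeg : P.degree = Q.degree := by
      rw [degree_eq_natDegree hP0, degree_eq_natDegree hQ0, hPd, hQd]
    have hlc : P.leadingCoeff = Q.leadingCoeff := by
      rw [hP, hQ, leadingCoeff_mul, leadingCoeff_mul, leadingCoeff_mul, leadingCoeff_C,
        leadingCoeff_C, leadingCoeff_X_pow, mul_one, mul_comm]
    have hsub : (P - Q).natDegree < n := by
      rw [← hn]
      by_cases h0 : P - Q = 0
      · rw [h0, natDegree_zero]
        omega
      · have h1 := degree_sub_lt_left hdeg hP0 hlc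
        have h2 := natDegree_lt_natDegree h0 h1
        omega
    obtain ⟨K, A, B, h1, h2⟩ := ih _ hsub (P - Q) rfl
    refine ⟨K + 1, A + C (E.leadingCoeff ^ K) * (C W.leadingCoeff * X ^ k), B, ?_, h2⟩
    have h3 : C (E.leadingCoeff ^ (K + 1)) * W = C (E.leadingCoeff ^ K) * (P - Q) +
        C (E.leadingCoeff ^ K) * Q := by
      rw [hP, pow_succ, C_mul]
      ring
    rw [h3, h1, hQ]
    ring

theorem dvd_of_eq {R : Type} [CommRing R] [IsDomain R] (E : R[X]) (hE : 1 ≤ E.natDegree)
    (q p : R) (W G : R[X]) (h : C q * W - C p = G * E) : ∃ K : ℕ, q ∣ E.leadingCoeff ^ K * p := by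
  obtain ⟨K, A, B, h1, h2⟩ := pseudo E hE W
  refine ⟨K, ?_⟩
  have h3 : (C (E.leadingCoeff ^ K) * G - C q * A) * E = C q * B - C (E.leadingCoeff ^ K * p) := by
    have h4 : C (E.leadingCoeff ^ K) * (C q * W - C p) = C (E.leadingCoeff ^ K) * (G * E) := by
      rw [h]
    rw [C_mul]
    linear_combination (-1 : R[X]) * h4 + C q * h1
  have hE0 : E ≠ 0 := by
    rintro rfl
    simp at hE
  have h5 : (C q * B - C (E.leadingCoeff ^ K * p)).natDegree < E.natDegree := by
    rw [natDegree_sub_C]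
    exact lt_of_le_of_lt (natDegree_C_mul_le _ _) h2
  have h6 : C (E.leadingCoeff ^ K) * G - C q * A = 0 := by
    by_contra h7
    have h8 : E.natDegree ≤ ((C (E.leadingCoeff ^ K) * G - C q * A) * E).natDegree := by
      rw [natDegree_mul h7 hE0]
      omega
    rw [h3] at h8
    omega
  rw [h6, zero_mul] at h3
  have h9 : (C q * B).coeff 0 = (C (E.leadingCoeff ^ K * p)).coeff 0 := by
    rw [sub_eq_zero.1 h3.symm]
  rw [coeff_C_mul, coeff_C_zero] at h9
  exact ⟨B.coeff 0, h9.symm⟩

namespace DesAAux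

/-- the specialisation `x_0 ↦ X`, `x_1 ↦ r` -/
noncomputable def th (d r : ℕ) : MvPolynomial (Fin (d + 2)) ℚ →ₐ[ℚ] Polynomial (PP d) :=
  MvPolynomial.aeval (Fin.cons X (Fin.cons (C (MvPolynomial.C (r : ℚ)))
    (fun u : Fin d => C (MvPolynomial.X u))))

theorem th_zero (d r : ℕ) : th d r (MvPolynomial.X 0) = X := by
  simp [th]

theorem th_one (d r : ℕ) : th d r (MvPolynomial.X 1) = C (MvPolynomial.C (r : ℚ)) := by
  show th d r (MvPolynomial.X (Fin.succ 0)) = _
  rw [th, MvPolynomial.aeval_X, Fin.cons_succ, Fin.cons_zero]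

theorem th_succ (d r : ℕ) (u : Fin d) :
    th d r (MvPolynomial.X u.succ.succ) = C (MvPolynomial.X u) := by
  simp [th]

theorem th_rename (d r : ℕ) (q : PP d) :
    th d r (MvPolynomial.rename (fun u : Fin d => u.succ.succ) q) = C q := by
  have h : (th d r).comp (MvPolynomial.rename (fun u : Fin d => u.succ.succ)) =
      (CAlgHom (R := ℚ) (A := PP d)) := by
    refine MvPolynomial.algHom_ext fun u => ?_
    rw [AlgHom.comp_apply, MvPolynomial.rename_X, th_succ]
    rfl
  have h1 := congrArg (fun f => f q) h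
  exact h1

theorem jj_eq {d : ℕ} (A : Fam d) (N : ℕ) (p : PP d) :
    jj A N p = Ideal.Quotient.mk _ (MvPolynomial.rename (fun u : Fin d => u.succ.succ) p) := by
  have h : jj A N = (Ideal.Quotient.mkₐ ℚ (Ideal.span {A.eqn N})).comp
      (MvPolynomial.rename (fun u : Fin d => u.succ.succ)) := by
    refine MvPolynomial.algHom_ext fun u => ?_
    rw [AlgHom.comp_apply, MvPolynomial.rename_X]
    unfold jj
    rw [MvPolynomial.aeval_X]
    rfl
  rw [h]
  rfl

theorem prod_two {d : ℕ} {M : Type} [CommMonoid M] (F : Fin (d + 2) → M) :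
    ∏ s, F s = F 0 * (F (Fin.succ 0) * ∏ u : Fin d, F u.succ.succ) := by
  rw [Fin.prod_univ_succ F, Fin.prod_univ_succ fun i => F i.succ]

theorem th_eqn {d : ℕ} (A : Fam d) (N r : ℕ) :
    th d r (A.eqn N) = C (FF A N * MvPolynomial.C (∏ j, ((r : ℚ) - A.a 1 j))) *
      ∏ i, (X - C (MvPolynomial.C (A.a 0 i : ℚ))) - 1 := by
  unfold Fam.eqn
  have hC : ∀ c : ℚ, th d r (MvPolynomial.C c) = C (MvPolynomial.C c) := fun c => by
    have h1 := (th d r).commutes c
    exact h1
  rw [map_sub, map_one, map_mul, map_natCast, map_prod, prod_two]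
  simp only [map_prod, map_sub, hC]
  rw [th_zero]
  have h1 : th d r (MvPolynomial.X (Fin.succ 0)) = C (MvPolynomial.C (r : ℚ)) := th_one d r
  rw [h1]
  simp only [th_succ]
  unfold FF
  have h2 : (∏ j, (C (MvPolynomial.C (r : ℚ)) - C (MvPolynomial.C (A.a (Fin.succ 0) j : ℚ))) :
      Polynomial (PP d)) =
      C (∏ j, (MvPolynomial.C (r : ℚ) - MvPolynomial.C (A.a 1 j : ℚ))) := by
    rw [map_prod]
    refine Finset.prod_congr rfl fun j _ => ?_
    rw [map_sub]
    rfl
  rw [h2]
  have h3 : (∏ u : Fin d, ∏ i : Fin (A.m u.succ.succ + 1),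
      (C (MvPolynomial.X u) - C (MvPolynomial.C (A.a u.succ.succ i : ℚ))) : Polynomial (PP d)) =
      C (∏ u : Fin d, ∏ i : Fin (A.m u.succ.succ + 1),
        (MvPolynomial.X u - MvPolynomial.C (A.a u.succ.succ i : ℚ))) := by
    rw [map_prod]
    refine Finset.prod_congr rfl fun u _ => ?_
    rw [map_prod]
    refine Finset.prod_congr rfl fun i _ => ?_
    rw [map_sub]
  rw [h3]
  have h4 : ((N : ℕ) : Polynomial (PP d)) = C (MvPolynomial.C (N : ℚ)) := by
    simp
  rw [h4, C_mul, C_mul]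
  ring

end DesAAux

open DesAAux in
theorem des_dvd {d : ℕ} (A : Fam d) {N : ℕ} (hN : 1 ≤ N) (q p : PP d) (W : A.CoordRing N)
    (h : jj A N q * W = jj A N p) : ∃ K : ℕ, q ∣ FF A N ^ K * p := by
  obtain ⟨W₀, rfl⟩ := Ideal.Quotient.mk_surjective W
  rw [jj_eq, jj_eq, ← map_mul, Ideal.Quotient.eq, Ideal.mem_span_singleton] at h
  obtain ⟨G, hG⟩ := h
  -- the point `r`
  obtain ⟨r, hr⟩ : ∃ r : ℕ, ∀ j, (r : ℤ) ≠ A.a 1 j := by
    obtain ⟨r, hr⟩ := Infinite.exists_notMem_finset
      ((Finset.univ.image fun j => (A.a 1 j).toNat) : Finset ℕ)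
    refine ⟨r, fun j hj => hr ?_⟩
    rw [Finset.mem_image]
    exact ⟨j, Finset.mem_univ _, by rw [← hj]; simp⟩
  set c : ℚ := ∏ j, ((r : ℚ) - A.a 1 j) with hc
  have hc0 : c ≠ 0 := by
    rw [hc, Finset.prod_ne_zero_iff]
    intro j _ h0
    apply hr j
    have h1 : (r : ℚ) = (A.a 1 j : ℚ) := sub_eq_zero.1 h0
    exact_mod_cast h1
  set b : PP d := FF A N * MvPolynomial.C c with hb
  have hb0 : b ≠ 0 := mul_ne_zero (FF_ne_zero A hN) (MvPolynomial.C_eq_zero.not.2 hc0)
  set M : Polynomial (PP d) := ∏ i, (X - C (MvPolynomial.C (A.a 0 i : ℚ))) with hM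
  have hMm : M.Monic := monic_prod_of_monic _ _ fun i _ => monic_X_sub_C _
  have hMd : M.natDegree = A.m 0 + 1 := by
    rw [hM, natDegree_prod_of_monic _ _ fun i _ => monic_X_sub_C _,
      Finset.sum_congr rfl fun i _ => natDegree_X_sub_C _, Finset.sum_const, Finset.card_univ,
      Fintype.card_fin, smul_eq_mul, mul_one]
  have hE := th_eqn A N r
  rw [← hc, ← hb, ← hM] at hE
  have hPd : (C b * M).natDegree = A.m 0 + 1 := by rw [natDegree_C_mul hb0, hMd]
  have hEd : (th d r (A.eqn N)).natDegree = A.m 0 + 1 := by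
    rw [hE, ← C_1, natDegree_sub_C, hPd]
  have hElc : (th d r (A.eqn N)).leadingCoeff = b := by
    rw [hE, leadingCoeff_sub_of_degree_lt, leadingCoeff_mul, leadingCoeff_C, hMm.leadingCoeff,
      mul_one]
    rw [degree_one, ← natDegree_pos_iff_degree_pos, hPd]
    omega
  have h1 := congrArg (th d r) hG
  rw [map_sub, map_mul, map_mul, th_rename, th_rename, mul_comm (th d r (A.eqn N))] at h1
  obtain ⟨K, hK⟩ := dvd_of_eq (th d r (A.eqn N)) (by omega) q p (th d r W₀) (th d r G) h1
  refine ⟨K, ?_⟩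
  rw [hElc, hb, mul_pow, ← map_pow] at hK
  have hu : IsUnit (MvPolynomial.C (c ^ K) : PP d) := by
    have : IsUnit (c ^ K) := (pow_ne_zero K hc0).isUnit
    exact this.map MvPolynomial.C
  have h2 : FF A N ^ K * MvPolynomial.C (c ^ K) * p = MvPolynomial.C (c ^ K) * (FF A N ^ K * p) := by
    ring
  rw [h2] at hK
  exact (hu.dvd_mul_left).1 hK

end P4a177y
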