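import Pool.Agent.Lib.P4a177y.DefU
import Mathlib.RingTheory.MvPolynomial.IrreducibleQuadratic
import Mathlib.Algebra.MvPolynomial.Nilpotent

/-!
# The divisors of the powers of `FF`

In the ring `PP d` the linear polynomials `X u - C a` are irreducible, so every divisor of a power of
`FF A N = C N * ∏ ∏ (X u - C a)` is a nonzero constant times a product of powers of these linear polynomials.
-/

set_option autoImplicit false

namespace P4a177y

open P4a177h P4a177e

namespace DesBAux

/-- The linear polynomial `X u - C a` is irreducible. -/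
theorem lin_irreducible {d : ℕ} (u : Fin d) (a : ℚ) :
    Irreducible (MvPolynomial.X u - MvPolynomial.C a : MvPolynomial (Fin d) ℚ) := by
  classical
  have hc : MvPolynomial.coeff (Finsupp.single u 1)
      (MvPolynomial.X u - MvPolynomial.C a : MvPolynomial (Fin d) ℚ) = 1 := by
    have h0 : (0 : Fin d →₀ ℕ) ≠ Finsupp.single u 1 := by
      intro h
      have := congrArg (fun f : Fin d →₀ ℕ => f u) h
      simp at this
    rw [MvPolynomial.coeff_sub, MvPolynomial.coeff_C, if_neg h0, sub_zero, MvPolynomial.coeff_X_same]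
  refine MvPolynomial.irreducible_of_totalDegree_eq_one ?_ ?_
  · apply le_antisymm
    · refine (MvPolynomial.totalDegree_sub _ _).trans ?_
      simp [MvPolynomial.totalDegree_X, MvPolynomial.totalDegree_C]
    · rw [← not_lt, Nat.lt_one_iff, MvPolynomial.totalDegree_eq_zero_iff]
      intro h
      have := h (Finsupp.single u 1) (by rw [MvPolynomial.mem_support_iff, hc]; exact one_ne_zero) u
      simp at this
  · intro x hx
    have := hx (Finsupp.single u 1)
    rw [hc] at this
    exact isUnit_of_dvd_one this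

/-- The stated form. -/
def Form {d : ℕ} (A : Fam d) (q : PP d) : Prop :=
  ∃ (c : ℚˣ) (e : ∀ u : Fin d, Fin (A.m u.succ.succ + 1) → ℕ),
      q = MvPolynomial.C (c : ℚ) * ∏ u, ∏ i,
        (MvPolynomial.X u - MvPolynomial.C (A.a u.succ.succ i : ℚ)) ^ e u i

theorem Form.mul {d : ℕ} {A : Fam d} {p q : PP d} (hp : Form A p) (hq : Form A q) :
    Form A (p * q) := by
  obtain ⟨c, e, rfl⟩ := hp
  obtain ⟨c', e', rfl⟩ := hq
  refine ⟨c * c', fun u i => e u i + e' u i, ?_⟩
  simp only [pow_add, Finset.prod_mul_distrib, Units.val_mul, map_mul]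
  ring

theorem Form.unit {d : ℕ} (A : Fam d) {p : PP d} (hp : IsUnit p) : Form A p := by
  obtain ⟨r, hr, rfl⟩ := MvPolynomial.isUnit_iff_eq_C_of_isReduced.1 hp
  exact ⟨hr.unit, fun _ _ => 0, by simp⟩

theorem Form.lin {d : ℕ} (A : Fam d) (u : Fin d) (i : Fin (A.m u.succ.succ + 1)) :
    Form A (MvPolynomial.X u - MvPolynomial.C (A.a u.succ.succ i : ℚ)) := by
  classical
  refine ⟨1, fun v => if h : v = u then fun j => if (h ▸ j) = i then 1 else 0 else fun _ => 0, ?_⟩
  rw [Finset.prod_eq_single u, Finset.prod_eq_single i]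
  · simp
  · intro j _ hj
    simp [hj]
  · simp
  · intro v _ hv
    simp [hv]
  · simp

/-- All the divisors have the stated form. -/
def Good {d : ℕ} (A : Fam d) (p : PP d) : Prop := ∀ q, q ∣ p → Form A q

theorem Good.mul {d : ℕ} {A : Fam d} {p q : PP d} (hp : Good A p) (hq : Good A q) :
    Good A (p * q) := by
  intro r hr
  obtain ⟨a, b, ha, hb, rfl⟩ := exists_dvd_and_dvd_of_dvd_mul hr
  exact (hp a ha).mul (hq b hb)

theorem Good.unit {d : ℕ} (A : Fam d) {p : PP d} (hp : IsUnit p) : Good A p :=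
  fun _ hq => Form.unit A (isUnit_of_dvd_unit hq hp)

theorem Good.lin {d : ℕ} (A : Fam d) (u : Fin d) (i : Fin (A.m u.succ.succ + 1)) :
    Good A (MvPolynomial.X u - MvPolynomial.C (A.a u.succ.succ i : ℚ)) := by
  rintro q ⟨r, hr⟩
  rcases (lin_irreducible u (A.a u.succ.succ i : ℚ)).isUnit_or_isUnit hr with h | h
  · exact Form.unit A h
  · obtain ⟨r', rfl⟩ := h
    have : q = (MvPolynomial.X u - MvPolynomial.C (A.a u.succ.succ i : ℚ)) * ((r'⁻¹ : (PP d)ˣ) : PP d) := by
      rw [hr, mul_assoc, Units.mul_inv, mul_one]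
    rw [this]
    exact (Form.lin A u i).mul (Form.unit A (Units.isUnit _))

theorem Good.pow {d : ℕ} {A : Fam d} {p : PP d} (hp : Good A p) (K : ℕ) : Good A (p ^ K) := by
  induction K with
  | zero => rw [pow_zero]; exact Good.unit A isUnit_one
  | succ n ih => rw [pow_succ]; exact ih.mul hp

theorem Good.prod {d : ℕ} {A : Fam d} {ι : Type} (s : Finset ι) (f : ι → PP d)
    (hf : ∀ i ∈ s, Good A (f i)) : Good A (∏ i ∈ s, f i) :=
  Finset.prod_induction f (Good A) (fun _ _ => Good.mul) (Good.unit A isUnit_one) hf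

end DesBAux

open DesBAux in
theorem des_form {d : ℕ} (A : Fam d) {N : ℕ} (hN : 1 ≤ N) (q : PP d) (K : ℕ)
    (h : q ∣ FF A N ^ K) :
    ∃ (c : ℚˣ) (e : ∀ u : Fin d, Fin (A.m u.succ.succ + 1) → ℕ),
      q = MvPolynomial.C (c : ℚ) * ∏ u, ∏ i,
        (MvPolynomial.X u - MvPolynomial.C (A.a u.succ.succ i : ℚ)) ^ e u i := by
  have hFF : Good A (FF A N) := by
    unfold FF
    refine Good.mul (Good.unit A ?_) (Good.prod _ _ fun u _ => Good.prod _ _ fun i _ => Good.lin A u i)
    have hN' : (N : ℚ) ≠ 0 := by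
      have : N ≠ 0 := by omega
      exact_mod_cast this
    exact (isUnit_iff_ne_zero.2 hN').map MvPolynomial.C
  exact hFF.pow K q h

end P4a177y
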