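import Pool.Agent.Lib.P4a177y.DefY
import Mathlib.LinearAlgebra.Matrix.Determinant.Misc

/-!
# MODULE P4a177y.DetY: the determinants of the orders at a flag

PROOF (`ε = (-1) ^ s`). Let `r t = rowY m s q t (q t) : Fin (d + 1) → ℤ`, `lam t = m s + 1` for `t = s` and `1` otherwise. Then `∑ t, lam t • r t = 0`
(`Fin.sum_univ_succAbove _ s`: the coordinate `0`: `-(m s + 1)` from `t = s`, `m s + 1` from `t = s.succAbove 0`, `0` from the others; the coordinate `a.succ`: `0` from `t = s`, `-1` from
`t = s.succAbove 0`, `1` from `t = s.succAbove a.succ`). By `Matrix.submatrix_succAbove_det_eq_negOnePow_submatrix_succAbove_det` (Mathlib, `LinearAlgebra/Matrix/Determinant/Misc.lean`) for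
the `(d + 2) × (d + 1)` matrix with the rows `lam t • r t`, the numbers `(-1) ^ s' * det (rows t ≠ s')` are equal for all `s'`. `det (lam • rows ≠ s') = (∏ t ≠ s', lam t) * det (r t, t ≠ s')`
(`Matrix.det_mul_column`), the product is `1` for `s' = s` and `m s + 1` for `s' ≠ s`. For `s' = s`: the matrix with the rows `r (s.succAbove b)` is upper triangular with
the diagonal `m s + 1, 1, .., 1` (`Matrix.det_of_upperTriangular`, or expand along the first column with `Matrix.det_succ_column_zero`): `det = m s + 1`. So for `s' ≠ s` (cancel `m s + 1 ≠ 0`)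
`(-1) ^ s' * det (r t, t ≠ s') = (-1) ^ s`. General `j`: if `j t ≠ q t` for some `t ≠ s, s'` then the row of `t` is zero (`rowY` is `0`), the determinant is `0`
(`Matrix.det_eq_zero_of_row_eq_zero`; `Fin.exists_succAbove_eq`); otherwise for all `t ≠ s'` the row `rowY m s q t (j t)` is `r t` (for `t = s` it does not depend on `j s`).
-/

set_option autoImplicit false

namespace P4a177y

open Function

namespace DetYAux

variable {d : ℕ} (m : Fin (d + 2) → ℕ) (s : Fin (d + 2)) (q : ∀ t, Fin (m t + 1))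

/-- the multiplicity of the row -/
def lam (t : Fin (d + 2)) : ℤ := if t = s then (m s : ℤ) + 1 else 1

theorem lam_self : lam m s s = (m s : ℤ) + 1 := by simp [lam]

theorem lam_ne {t : Fin (d + 2)} (h : t ≠ s) : lam m s t = 1 := by simp [lam, h]

theorem row_self (i : Fin (m s + 1)) : rowY m s q s i = Fin.cons (-1) 0 := by
  simp [rowY]

theorem row_zero (i : Fin (m (s.succAbove 0) + 1)) (h : i = q (s.succAbove 0)) :
    rowY m s q (s.succAbove 0) i = Fin.cons ((m s : ℤ) + 1) (fun _ => -1) := by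
  simp [rowY, h]

theorem row_succ (c : Fin d) (i : Fin (m (s.succAbove c.succ) + 1))
    (h : i = q (s.succAbove c.succ)) (a : Fin (d + 1)) :
    rowY m s q (s.succAbove c.succ) i a = if a = c.succ then 1 else 0 := by
  have h0 : s.succAbove c.succ ≠ s.succAbove 0 := fun h0 =>
    Fin.succ_ne_zero c (Fin.succAbove_right_injective h0)
  simp only [rowY, Fin.succAbove_ne, h, if_true, if_false, h0]
  congr 1
  exact propext ⟨fun h => Fin.succAbove_right_injective h, fun h => by rw [h]⟩

theorem row_off {t : Fin (d + 2)} (ht : t ≠ s) (i : Fin (m t + 1)) (h : i ≠ q t) :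
    rowY m s q t i = 0 := by
  simp [rowY, ht, h]

theorem sum_row (a : Fin (d + 1)) :
    ∑ t, lam m s t * rowY m s q t (q t) a = 0 := by
  rw [Fin.sum_univ_succAbove _ s, Fin.sum_univ_succ]
  rw [row_self, row_zero m s q _ rfl, lam_self, lam_ne m s (Fin.succAbove_ne _ _)]
  have h : ∀ c : Fin d, lam m s (s.succAbove c.succ) *
      rowY m s q (s.succAbove c.succ) (q (s.succAbove c.succ)) a = if a = c.succ then 1 else 0 := by
    intro c
    rw [lam_ne m s (Fin.succAbove_ne _ _), row_succ m s q c _ rfl, one_mul]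
  simp only [h]
  refine Fin.cases ?_ (fun e => ?_) a
  · simp [Fin.succ_ne_zero, eq_comm]
  · simp [Fin.succ_inj]

theorem prod_lam : ∏ t, lam m s t = (m s : ℤ) + 1 := by
  rw [Fin.prod_univ_succAbove _ s, lam_self]
  simp [lam_ne m s (Fin.succAbove_ne _ _)]

theorem prod_self : ∏ b, lam m s (s.succAbove b) = 1 := by
  simp [lam_ne m s (Fin.succAbove_ne _ _)]

theorem prod_ne {s' : Fin (d + 2)} (h : s' ≠ s) :
    ∏ b, lam m s (s'.succAbove b) = (m s : ℤ) + 1 := by
  have h1 := prod_lam m s
  rw [Fin.prod_univ_succAbove _ s', lam_ne m s h, one_mul] at h1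
  exact h1

/-- the determinant of the rows off `s'` -/
def D (s' : Fin (d + 2)) : ℤ :=
  (Matrix.of fun b : Fin (d + 1) => rowY m s q (s'.succAbove b) (q (s'.succAbove b))).det

theorem D_self : D m s q s = (m s : ℤ) + 1 := by
  unfold D
  rw [Matrix.det_of_upperTriangular]
  · rw [Fin.prod_univ_succ]
    simp only [Matrix.of_apply]
    rw [row_zero m s q _ rfl]
    have h : ∀ c : Fin d,
        rowY m s q (s.succAbove c.succ) (q (s.succAbove c.succ)) c.succ = 1 := by
      intro c
      rw [row_succ m s q c _ rfl]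
      simp
    simp only [h]
    simp
  · intro i j hij
    simp only [id] at hij
    rw [Matrix.of_apply]
    revert hij
    refine Fin.cases ?_ (fun c => ?_) i
    · intro hij
      exact absurd hij (Fin.not_lt_zero _)
    · intro hij
      rw [row_succ m s q c _ rfl, if_neg hij.ne]

theorem mul_D (s' : Fin (d + 2)) :
    (∏ b, lam m s (s'.succAbove b)) * D m s q s' =
      (Matrix.submatrix (Matrix.of fun t a => lam m s t * rowY m s q t (q t) a)
        s'.succAbove id).det := by
  unfold D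
  rw [← Matrix.det_mul_column]
  rfl

theorem sign_D (s' : Fin (d + 2)) :
    (∏ b, lam m s (s'.succAbove b)) * D m s q s' =
      ((Int.negOnePow ((s' : ℤ) - (s : ℤ)) : ℤˣ) : ℤ) *
        ((∏ b, lam m s (s.succAbove b)) * D m s q s) := by
  rw [mul_D, mul_D]
  have h := Matrix.submatrix_succAbove_det_eq_negOnePow_submatrix_succAbove_det
    (Matrix.of fun t a => lam m s t * rowY m s q t (q t) a) (by
      funext a
      rw [Finset.sum_apply]
      exact sum_row m s q a) s' s
  rw [h]
  rfl

theorem sign_mul (s' : Fin (d + 2)) :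
    (-1 : ℤ) ^ (s' : ℕ) * ((Int.negOnePow ((s' : ℤ) - (s : ℤ)) : ℤˣ) : ℤ) = (-1) ^ (s : ℕ) := by
  have h1 : (-1 : ℤ) ^ (s' : ℕ) = ((Int.negOnePow (s' : ℤ) : ℤˣ) : ℤ) := by
    simp [Int.negOnePow_def]
  have h2 : (-1 : ℤ) ^ (s : ℕ) = ((Int.negOnePow (s : ℤ) : ℤˣ) : ℤ) := by
    simp [Int.negOnePow_def]
  rw [h1, h2, ← Units.val_mul, ← Int.negOnePow_add]
  congr 1
  rw [Int.negOnePow_eq_iff]
  have : (s' : ℤ) + ((s' : ℤ) - (s : ℤ)) - (s : ℤ) = 2 * ((s' : ℤ) - (s : ℤ)) := by ring
  rw [this]
  exact even_two_mul _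

theorem main_D (s' : Fin (d + 2)) :
    (-1 : ℤ) ^ (s' : ℕ) * D m s q s' = (-1) ^ (s : ℕ) * (if s' = s then (m s : ℤ) + 1 else 1) := by
  by_cases h : s' = s
  · subst h
    rw [D_self, if_pos rfl]
  · rw [if_neg h, mul_one]
    have h1 := sign_D m s q s'
    rw [prod_ne m s h, prod_self, one_mul, D_self, mul_comm ((m s : ℤ) + 1)] at h1
    have h2 : D m s q s' = ((Int.negOnePow ((s' : ℤ) - (s : ℤ)) : ℤˣ) : ℤ) :=
      mul_right_cancel₀ (by positivity) h1
    rw [h2, sign_mul]

end DetYAux

theorem det_rowY {d : ℕ} (m : Fin (d + 2) → ℕ) (s : Fin (d + 2)) (q : ∀ t, Fin (m t + 1)) :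
    ∃ ε : ℤ, ε ≠ 0 ∧ ∀ (s' : Fin (d + 2)) (j : ∀ t, Fin (m t + 1)),
      (-1) ^ (s' : ℕ) *
        (Matrix.of fun b : Fin (d + 1) => rowY m s q (s'.succAbove b) (j (s'.succAbove b))).det =
      ε * ((if s' = s then (m s : ℤ) + 1 else 1) *
        (if ∀ t, t ≠ s → t ≠ s' → j t = q t then 1 else 0)) := by
  refine ⟨(-1) ^ (s : ℕ), pow_ne_zero _ (by norm_num), fun s' j => ?_⟩
  by_cases hj : ∀ t, t ≠ s → t ≠ s' → j t = q t
  · rw [if_pos hj, mul_one, ← DetYAux.main_D m s q s']
    congr 1
    unfold DetYAux.D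
    congr 1
    ext b a
    simp only [Matrix.of_apply]
    by_cases hb : s'.succAbove b = s
    · have h1 : ∀ i i' : Fin (m (s'.succAbove b) + 1),
          rowY m s q (s'.succAbove b) i = rowY m s q (s'.succAbove b) i' := by
        intro i i'
        simp [rowY, hb]
      rw [h1]
    · rw [hj _ hb (Fin.succAbove_ne _ _)]
  · rw [if_neg hj, mul_zero, mul_zero]
    push Not at hj
    obtain ⟨t, h1, h2, h3⟩ := hj
    obtain ⟨b, rfl⟩ := Fin.exists_succAbove_eq h2
    have : (Matrix.of fun b : Fin (d + 1) =>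
        rowY m s q (s'.succAbove b) (j (s'.succAbove b))).det = 0 := by
      refine Matrix.det_eq_zero_of_row_eq_zero b fun a => ?_
      rw [Matrix.of_apply, DetYAux.row_off m s q h1 _ h3]
      rfl
    rw [this, mul_zero]

end P4a177y
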