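import Pool.Agent.Lib.P4a177y.DefU
import Pool.Agent.Lib.P4a177e.GeomIrr

/-!
# MODULE P4a177y.DomY: the coordinate ring is a domain

PROOF. `P4a177e.geomIrreducible A N hN`: `MvPolynomial.map (algebraMap ℚ ℂ) (A.eqn N)` is irreducible. Hence `A.eqn N` is irreducible: it is
not a unit (its image is not: `RingHom.isUnit_map`/`IsUnit.map`), and if `A.eqn N = G * H` then the image of `G` or of `H` is a unit of
`MvPolynomial (Fin (d + 2)) ℂ`, i.e. a nonzero constant (`MvPolynomial.isUnit_iff_eq_C_of_isReduced`, or `totalDegree = 0`); total degrees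
(or coefficients) do not change under the injective map (`MvPolynomial.coeff_map`, `MvPolynomial.map_injective`), so `G` or `H` is a nonzero constant,
a unit. `MvPolynomial (Fin (d + 2)) ℚ` is a UFD, so `A.eqn N` is prime (`Irreducible.prime`), `Ideal.span_singleton_prime`,
`Ideal.Quotient.isDomain_iff_prime` (or the instance `Ideal.Quotient.isDomain`).
-/

set_option autoImplicit false

namespace P4a177y

open P4a177h P4a177e

namespace DomYAux

theorem isUnit_of_map {n : ℕ} (G : MvPolynomial (Fin n) ℚ)
    (h : IsUnit (MvPolynomial.map (algebraMap ℚ ℂ) G)) : IsUnit G := by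
  rw [MvPolynomial.isUnit_iff_eq_C_of_isReduced] at h
  obtain ⟨r, hr, hG⟩ := h
  have h0 : r = algebraMap ℚ ℂ (MvPolynomial.coeff 0 G) := by
    have := congrArg (MvPolynomial.coeff 0) hG
    rw [MvPolynomial.coeff_map, MvPolynomial.coeff_zero_C] at this
    exact this.symm
  have h1 : G = MvPolynomial.C (MvPolynomial.coeff 0 G) := by
    apply MvPolynomial.map_injective (algebraMap ℚ ℂ) (algebraMap ℚ ℂ).injective
    rw [MvPolynomial.map_C, ← h0, hG]
  have h2 : MvPolynomial.coeff 0 G ≠ 0 := by
    intro h3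
    rw [h3, map_zero] at h0
    exact hr.ne_zero h0
  rw [h1]
  exact (isUnit_iff_ne_zero.2 h2).map MvPolynomial.C

theorem irreducible_of_map {n : ℕ} (P : MvPolynomial (Fin n) ℚ)
    (h : Irreducible (MvPolynomial.map (algebraMap ℚ ℂ) P)) : Irreducible P := by
  constructor
  · intro hu
    exact h.not_isUnit (hu.map (MvPolynomial.map (algebraMap ℚ ℂ)))
  · intro G H hGH
    rw [hGH, map_mul] at h
    rcases h.isUnit_or_isUnit rfl with h1 | h1
    · exact Or.inl (isUnit_of_map G h1)
    · exact Or.inr (isUnit_of_map H h1)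

end DomYAux

theorem isDomainY {d : ℕ} (A : Fam d) {N : ℕ} (hN : 1 ≤ N) : IsDomain (A.CoordRing N) := by
  have h1 : Irreducible (A.eqn N) :=
    DomYAux.irreducible_of_map _ (geomIrreducible A N hN)
  rw [Ideal.Quotient.isDomain_iff_prime, Ideal.span_singleton_prime h1.ne_zero]
  exact h1.prime

end P4a177y
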