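import Pool.Agent.Lib.P4a177y.DefU

/-!
# MODULE P4a177y.JInY: the functions `x_2, …, x_{d+1}` are algebraically independent

PROOF. Let `L = AlgebraicClosure (KK d)`, `r : ℕ` a number different from all the `A.a 0 i` (`exists_nat_ne`-like: a finite set of integers; or
`Infinite.exists_notMem_finset`). The element `e = N * (∏ i, (r - A.a 0 i)) * ∏_{u} ∏_i (X_u - A.a u.succ.succ i)` of `L` (`X_u` := the image of
the variable; it is the image of `FF A N` times a nonzero integer) is not `0` (`FF_ne_zero`, `algebraMap` injective). The polynomial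
`∏ j, (T - A.a 1 j) - 1/e` over `L` has degree `A.m 1 + 1 ≥ 1`, so it has a root `y` (`IsAlgClosed.exists_root`/`exists_aeval_eq_zero`). The homomorphism
`MvPolynomial.aeval`/`eval₂Hom (algebraMap ℚ L)` with `X 0 ↦ r`, `X 1 ↦ y`, `X u.succ.succ ↦ X_u` (`Fin.cons r (Fin.cons y _)`)
kills `A.eqn N` (`Fin.prod_univ_succ` twice), so it gives `φ : A.CoordRing N →+* L` (`Ideal.Quotient.lift`, `Ideal.mem_span_singleton`) with `φ ∘ jj A N =` the
embedding `PP d → KK d → L` (`MvPolynomial.algHom_ext`/`ringHom_ext`), which is injective.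
-/

set_option autoImplicit false

namespace P4a177y

open P4a177h P4a177e

namespace JInYAux

open MvPolynomial

variable {d : ℕ} (A : Fam d) {N : ℕ} {L : Type} [Field L]

/-- the product of the affine functions of the last `d` variables, in `L` -/
noncomputable def ee (ψ : PP d →+* L) (A : Fam d) : L :=
  ∏ u : Fin d, ∏ i : Fin (A.m u.succ.succ + 1), (ψ (X u) - (A.a u.succ.succ i : L))

theorem psi_FF (ψ : PP d →+* L) : ψ (FF A N) = (N : L) * ee ψ A := by
  unfold FF ee
  rw [map_mul, map_prod]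
  congr 1
  · have h : (C (N : ℚ) : PP d) = ((N : ℕ) : PP d) := by simp
    rw [h, map_natCast]
  · refine Finset.prod_congr rfl fun u _ => ?_
    rw [map_prod]
    refine Finset.prod_congr rfl fun i _ => ?_
    rw [map_sub]
    congr 1
    exact map_intCast (ψ.comp C) (A.a u.succ.succ i)

/-- the homomorphism with the values `r`, `y` and `ψ (X u)` -/
noncomputable def Phi (ψ : PP d →+* L) (r y : L) : MvPolynomial (Fin (d + 2)) ℚ →+* L :=
  eval₂Hom (ψ.comp C) (Fin.cons r (Fin.cons y fun u => ψ (X u)))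

theorem Phi_eqn (ψ : PP d →+* L) (r y : L) :
    Phi ψ r y (A.eqn N) = (N : L) * ((∏ i, (r - (A.a 0 i : L))) *
      ((∏ j, (y - (A.a 1 j : L))) * ee ψ A)) - 1 := by
  unfold Fam.eqn
  rw [map_sub, map_mul, map_natCast, map_one, map_prod,
    Fin.prod_univ_succ (fun s : Fin (d + 2) => Phi ψ r y (∏ i, (X s - C (A.a s i : ℚ)))),
    Fin.prod_univ_succ (fun s : Fin (d + 1) =>
      Phi ψ r y (∏ i, (X (Fin.succ s) - C (A.a (Fin.succ s) i : ℚ))))]
  have hl : ∀ (s : Fin (d + 2)) (v : L), Phi ψ r y (X s) = v →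
      Phi ψ r y (∏ i, (X s - C (A.a s i : ℚ))) = ∏ i, (v - (A.a s i : L)) := by
    intro s v hv
    rw [map_prod]
    refine Finset.prod_congr rfl fun i _ => ?_
    rw [map_sub, hv]
    congr 1
    unfold Phi
    rw [coe_eval₂Hom, eval₂_C]
    exact map_intCast (ψ.comp C) (A.a s i)
  rw [hl 0 r (by unfold Phi; rw [coe_eval₂Hom, eval₂_X]; rfl)]
  rw [hl (Fin.succ 0) y (by unfold Phi; rw [coe_eval₂Hom, eval₂_X]; rfl)]
  rw [Finset.prod_congr rfl fun u _ => hl (Fin.succ (Fin.succ u)) (ψ (X u))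
    (by unfold Phi; rw [coe_eval₂Hom, eval₂_X]; rfl)]
  rfl

theorem exists_y [IsAlgClosed L] (c : L) {n : ℕ} (a : Fin (n + 1) → L) :
    ∃ y : L, ∏ j, (y - a j) = c := by
  have hd : (∏ j, (Polynomial.X - Polynomial.C (a j))).degree = ((n + 1 : ℕ) : WithBot ℕ) := by
    rw [Polynomial.degree_prod]
    simp
  have h1 : (∏ j, (Polynomial.X - Polynomial.C (a j)) - Polynomial.C c).degree ≠ 0 := by
    rw [Polynomial.degree_sub_C (by rw [hd]; exact_mod_cast Nat.succ_pos n), hd]
    exact_mod_cast Nat.succ_ne_zero n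
  obtain ⟨y, hy⟩ := IsAlgClosed.exists_root _ h1
  refine ⟨y, ?_⟩
  rw [Polynomial.IsRoot.def, Polynomial.eval_sub, Polynomial.eval_C, Polynomial.eval_prod] at hy
  simp only [Polynomial.eval_sub, Polynomial.eval_X, Polynomial.eval_C] at hy
  exact sub_eq_zero.1 hy

theorem inj_of (hN : 1 ≤ N) [IsAlgClosed L] (ψ : PP d →+* L) (hψ : Function.Injective ψ) :
    Function.Injective (jj A N) := by
  have : CharZero L := charZero_of_injective_ringHom hψ
  have hF : (N : L) * ee ψ A ≠ 0 := by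
    rw [← psi_FF A ψ, Ne, map_eq_zero_iff ψ hψ]
    exact FF_ne_zero A hN
  obtain ⟨r, hr⟩ := Infinite.exists_notMem_finset (Finset.univ.image fun i => A.a 0 i)
  have hr1 : ∏ i, ((r : L) - (A.a 0 i : L)) ≠ 0 := by
    refine Finset.prod_ne_zero_iff.2 fun i _ h => hr ?_
    rw [Finset.mem_image]
    exact ⟨i, Finset.mem_univ _, by exact_mod_cast (sub_eq_zero.1 h).symm⟩
  obtain ⟨y, hy⟩ := exists_y (((N : L) * ee ψ A * ∏ i, ((r : L) - (A.a 0 i : L)))⁻¹)
    fun j => (A.a 1 j : L)
  have h0 : Phi ψ (r : L) y (A.eqn N) = 0 := by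
    rw [Phi_eqn, hy]
    have h2 : (N : L) * ee ψ A * ∏ i, ((r : L) - (A.a 0 i : L)) ≠ 0 := mul_ne_zero hF hr1
    rw [sub_eq_zero]
    calc _ = ((N : L) * ee ψ A * ∏ i, ((r : L) - (A.a 0 i : L))) *
          (((N : L) * ee ψ A * ∏ i, ((r : L) - (A.a 0 i : L)))⁻¹) := by ring
      _ = 1 := mul_inv_cancel₀ h2
  let φ : A.CoordRing N →+* L := Ideal.Quotient.lift (Ideal.span {A.eqn N}) (Phi ψ (r : L) y) (by
    intro b hb
    obtain ⟨c, rfl⟩ := Ideal.mem_span_singleton.1 hb
    rw [map_mul, h0, zero_mul])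
  have hφ : ∀ b, φ (Ideal.Quotient.mk _ b) = Phi ψ (r : L) y b := fun b =>
    Ideal.Quotient.lift_mk _ _ _
  have hcomp : φ.comp (jj A N : PP d →+* A.CoordRing N) = ψ := by
    apply MvPolynomial.ringHom_ext
    · intro q
      have h1 : (jj A N : PP d →+* A.CoordRing N) (C q) =
          Ideal.Quotient.mk _ (C q) := by
        show jj A N (C q) = _
        unfold jj
        rw [MvPolynomial.aeval_C]
        rfl
      rw [RingHom.comp_apply, h1, hφ]
      unfold Phi
      rw [coe_eval₂Hom, eval₂_C]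
      rfl
    · intro u
      have h1 : (jj A N : PP d →+* A.CoordRing N) (X u) =
          Ideal.Quotient.mk _ (X u.succ.succ) := by
        show jj A N (X u) = _
        unfold jj
        rw [MvPolynomial.aeval_X]
        rfl
      rw [RingHom.comp_apply, h1, hφ]
      unfold Phi
      rw [coe_eval₂Hom, eval₂_X]
      rfl
  intro p p' hpp
  apply hψ
  rw [← hcomp]
  exact congrArg φ hpp

end JInYAux

theorem jj_injective {d : ℕ} (A : Fam d) {N : ℕ} (hN : 1 ≤ N) : Function.Injective (jj A N) := by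
  refine JInYAux.inj_of A hN (L := AlgebraicClosure (KK d))
    ((algebraMap (KK d) (AlgebraicClosure (KK d))).comp (algebraMap (PP d) (KK d))) ?_
  exact (algebraMap (KK d) (AlgebraicClosure (KK d))).injective.comp
    (IsFractionRing.injective (PP d) (KK d))

end P4a177y
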