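import Pool.Agent.Lib.P4a177y.DomY
import Pool.Agent.Lib.P4a177y.JInY

/-!
# MODULE P4a177y.GenY: the generic curve

PROOF. Let `O = A.CoordRing N`, a domain (`isDomainY`), `S = Submonoid.map (jj A N) (nonZeroDivisors (PP d))`, `O' = Localization S`, `ψ = algebraMap O O'`. `ψ` is
injective: `S ≤ nonZeroDivisors O` as `jj A N` is injective (`IsLocalization.injective`). The `KK d`-algebra structure of `O'` is `RingHom.toAlgebra` of
`IsLocalization.lift` (of `ψ ∘ jj A N`, which maps the nonzero elements of `PP d` to units: `IsLocalization.map_units`); so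
`algebraMap (KK d) O' (algebraMap (PP d) (KK d) p) = ψ (jj A N p)` (`IsLocalization.lift_eq`).
`eqn`: `aeval (ψ x_0) (PY A N) * aeval (ψ x_1) (QY A) = ψ (FF * ∏ (x_0 - a) * ∏ (x_1 - a)) = ψ 1`: in `O` the equation `N * ∏_s ∏_i (x_s - a_{s,i}) = 1` holds, see
`P4a177w.FamWAux.eqn_vx` (`Lib/P4a177w/FamW.lean`) for the way; here `Fin.prod_univ_succ` twice and `jj A N (FF A N) = N * ∏_u ∏_i (x_{u+2} - a)`.
`gen`: a `KK d`-subalgebra `T` with `ψ x_0, ψ x_1 ∈ T` contains `ψ (vy A N s)` for all `s` (`s = u.succ.succ`: `= algebraMap (X u)`, use `Fin.cases`), so all `ψ r`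
(`MvPolynomial.induction_on` on a representative; constants of `ℚ`: `ψ (algebraMap ℚ _ c) = algebraMap (KK d) O' _` as `jj` of a constant), and the
inverses of the `ψ (jj A N p)`; every element of the localization is `IsLocalization.mk' _ r s`.
`univ`: for `f : KK d →+* L`, `x'`, `y'`: `MvPolynomial.eval₂Hom (f ∘ algebraMap ℚ)` with `X 0 ↦ x'`, `X 1 ↦ y'`, `X u.succ.succ ↦ f X_u` kills `A.eqn N`, gives `O →+* L`
(`Ideal.Quotient.lift`) which maps `jj A N p` to `f p`, so the elements of `S` to nonzero elements (`f` injective): `IsLocalization.lift`. Last property: the two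
homomorphisms `KK d →+* L` agree on `PP d` (`IsLocalization.ringHom_ext`).
-/

set_option autoImplicit false

namespace P4a177y

open P4a177h P4a177e

namespace GenYAux

open MvPolynomial

variable {d : ℕ} (A : Fam d) {N : ℕ}

theorem map_eqn {R : Type} [CommRing R] (F : MvPolynomial (Fin (d + 2)) ℚ →+* R) :
    F (A.eqn N) = (N : R) * ((∏ i, (F (X 0) - (A.a 0 i : R))) *
      ((∏ j, (F (X 1) - (A.a 1 j : R))) *
        ∏ u : Fin d, ∏ i : Fin (A.m u.succ.succ + 1),
          (F (X u.succ.succ) - (A.a u.succ.succ i : R)))) - 1 := by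
  unfold Fam.eqn
  rw [map_sub, map_mul, map_natCast, map_one, map_prod,
    Fin.prod_univ_succ (fun s : Fin (d + 2) => F (∏ i, (X s - C (A.a s i : ℚ)))),
    Fin.prod_univ_succ (fun s : Fin (d + 1) =>
      F (∏ i, (X (Fin.succ s) - C (A.a (Fin.succ s) i : ℚ))))]
  have hl : ∀ (s : Fin (d + 2)),
      F (∏ i, (X s - C (A.a s i : ℚ))) = ∏ i, (F (X s) - (A.a s i : R)) := by
    intro s
    rw [map_prod]
    refine Finset.prod_congr rfl fun i _ => ?_
    rw [map_sub]
    congr 1
    have h : (C (A.a s i : ℚ) : MvPolynomial (Fin (d + 2)) ℚ) =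
      ((A.a s i : ℤ) : MvPolynomial (Fin (d + 2)) ℚ) := by simp
    rw [h, map_intCast]
  rw [hl 0, hl (Fin.succ 0), Finset.prod_congr rfl fun u _ => hl (Fin.succ (Fin.succ u))]
  rfl

theorem jj_X (u : Fin d) : jj A N (X u) = vy A N u.succ.succ := by
  unfold jj
  rw [MvPolynomial.aeval_X]

theorem jj_C (q : ℚ) : jj A N (C q) = Ideal.Quotient.mk _ (C q) := by
  unfold jj
  rw [MvPolynomial.aeval_C]
  rfl

theorem jj_FF : jj A N (FF A N) = (N : A.CoordRing N) *
    ∏ u : Fin d, ∏ i : Fin (A.m u.succ.succ + 1),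
      (vy A N u.succ.succ - (A.a u.succ.succ i : A.CoordRing N)) := by
  unfold FF
  rw [map_mul, map_prod]
  congr 1
  · have h : (C (N : ℚ) : PP d) = ((N : ℕ) : PP d) := by simp
    rw [h, map_natCast]
  · refine Finset.prod_congr rfl fun u _ => ?_
    rw [map_prod]
    refine Finset.prod_congr rfl fun i _ => ?_
    rw [map_sub, jj_X]
    congr 1
    have h : (C (A.a u.succ.succ i : ℚ) : PP d) = ((A.a u.succ.succ i : ℤ) : PP d) := by simp
    rw [h, map_intCast]

theorem eqn_vy : jj A N (FF A N) * ((∏ i, (vy A N 0 - (A.a 0 i : A.CoordRing N))) *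
      ∏ j, (vy A N 1 - (A.a 1 j : A.CoordRing N))) = 1 := by
  have h : (Ideal.Quotient.mk (Ideal.span {A.eqn N})) (A.eqn N) = 0 :=
    Ideal.Quotient.eq_zero_iff_mem.2 (Ideal.subset_span (Set.mem_singleton _))
  have h2 := map_eqn A (N := N) (Ideal.Quotient.mk (Ideal.span {A.eqn N}))
  rw [h2, sub_eq_zero] at h
  rw [jj_FF]
  refine Eq.trans ?_ h
  show _ = (N : A.CoordRing N) * ((∏ i, (vy A N 0 - (A.a 0 i : A.CoordRing N))) *
      ((∏ j, (vy A N 1 - (A.a 1 j : A.CoordRing N))) *
        ∏ u : Fin d, ∏ i : Fin (A.m u.succ.succ + 1),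
          (vy A N u.succ.succ - (A.a u.succ.succ i : A.CoordRing N))))
  ring

/-- The homomorphism of the coordinate ring to a field. -/
theorem exists_hom {L : Type} [Field L] (f : PP d →+* L) (x' y' : L)
    (h : f (FF A N) * ((∏ i, (x' - (A.a 0 i : L))) * ∏ j, (y' - (A.a 1 j : L))) = 1) :
    ∃ Φ : A.CoordRing N →+* L, Φ (vy A N 0) = x' ∧ Φ (vy A N 1) = y' ∧
      ∀ p : PP d, Φ (jj A N p) = f p := by
  let F : MvPolynomial (Fin (d + 2)) ℚ →+* L :=
    eval₂Hom (f.comp C) (Fin.cons x' (Fin.cons y' fun u => f (X u)))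
  have F0 : F (X 0) = x' := by
    show eval₂Hom (f.comp C) (Fin.cons x' (Fin.cons y' fun u => f (X u))) (X 0) = x'
    rw [eval₂Hom_X']
    rfl
  have F1 : F (X 1) = y' := by
    show eval₂Hom (f.comp C) (Fin.cons x' (Fin.cons y' fun u => f (X u))) (X 1) = y'
    rw [eval₂Hom_X']
    rfl
  have F2 : ∀ u : Fin d, F (X u.succ.succ) = f (X u) := by
    intro u
    show eval₂Hom (f.comp C) (Fin.cons x' (Fin.cons y' fun u => f (X u))) (X u.succ.succ) = f (X u)
    rw [eval₂Hom_X']
    rfl
  have FC : ∀ q : ℚ, F (C q) = f (C q) := by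
    intro q
    show eval₂Hom (f.comp C) (Fin.cons x' (Fin.cons y' fun u => f (X u))) (C q) = f (C q)
    rw [eval₂Hom_C]
    rfl
  have hFF : f (FF A N) = (N : L) * ∏ u : Fin d, ∏ i : Fin (A.m u.succ.succ + 1),
      (f (X u) - (A.a u.succ.succ i : L)) := by
    unfold FF
    rw [map_mul, map_prod]
    congr 1
    · have h : (C (N : ℚ) : PP d) = ((N : ℕ) : PP d) := by simp
      rw [h, map_natCast]
    · refine Finset.prod_congr rfl fun u _ => ?_
      rw [map_prod]
      refine Finset.prod_congr rfl fun i _ => ?_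
      rw [map_sub]
      congr 1
      have h : (C (A.a u.succ.succ i : ℚ) : PP d) = ((A.a u.succ.succ i : ℤ) : PP d) := by simp
      rw [h, map_intCast]
  have h0 : F (A.eqn N) = 0 := by
    rw [map_eqn A F, F0, F1, Finset.prod_congr rfl fun u _ => Finset.prod_congr rfl fun i _ => by
      rw [F2 u], sub_eq_zero, ← h, hFF]
    ring
  let Φ : A.CoordRing N →+* L := Ideal.Quotient.lift (Ideal.span {A.eqn N}) F (by
    intro b hb
    obtain ⟨c, rfl⟩ := Ideal.mem_span_singleton.1 hb
    rw [map_mul, h0, zero_mul])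
  have hΦ : ∀ b, Φ (Ideal.Quotient.mk _ b) = F b := fun b => Ideal.Quotient.lift_mk _ _ _
  refine ⟨Φ, ?_, ?_, ?_⟩
  · exact (hΦ _).trans F0
  · exact (hΦ _).trans F1
  · have hcomp : Φ.comp (jj A N : PP d →+* A.CoordRing N) = f := by
      apply MvPolynomial.ringHom_ext
      · intro q
        show Φ (jj A N (C q)) = f (C q)
        rw [jj_C]
        exact (hΦ _).trans (FC q)
      · intro u
        show Φ (jj A N (X u)) = f (X u)
        rw [jj_X]
        exact (hΦ _).trans (F2 u)
    intro p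
    exact RingHom.congr_fun hcomp p

/-- The multiplicative set of the nonzero polynomials in `x_2, …, x_{d+1}`. -/
noncomputable def SS (A : Fam d) (N : ℕ) : Submonoid (A.CoordRing N) :=
  Submonoid.map (jj A N : PP d →* A.CoordRing N) (nonZeroDivisors (PP d))

theorem core (hN : 1 ≤ N) (O' : Type) [CommRing O'] [Algebra (A.CoordRing N) O']
    [IsLocalization (SS A N) O'] (K : Type) [Field K] [Algebra (PP d) K] [IsFractionRing (PP d) K] :
    Function.Injective (algebraMap (A.CoordRing N) O') ∧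
    ∃ k : K →+* O', (∀ p : PP d, k (algebraMap (PP d) K p) =
        algebraMap (A.CoordRing N) O' (jj A N p)) ∧
      (∀ z : O', ∃ (r : A.CoordRing N) (t : K), z = algebraMap (A.CoordRing N) O' r * k t) ∧
      ∀ (L : Type) [Field L] (f : K →+* L) (Φ : A.CoordRing N →+* L)
        (_ : ∀ p : PP d, Φ (jj A N p) = f (algebraMap (PP d) K p)),
        ∃ φ : O' →+* L, (∀ r, φ (algebraMap (A.CoordRing N) O' r) = Φ r) ∧ ∀ t, φ (k t) = f t := by
  have hdom : IsDomain (A.CoordRing N) := isDomainY A hN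
  have hj : Function.Injective (jj A N) := jj_injective A hN
  have hS : SS A N ≤ nonZeroDivisors (A.CoordRing N) := by
    rintro _ ⟨p, hp, rfl⟩
    refine mem_nonZeroDivisors_of_ne_zero ?_
    have hp0 : p ≠ 0 := nonZeroDivisors.ne_zero hp
    intro h0
    exact hp0 (hj (by rw [map_zero]; exact h0))
  refine ⟨IsLocalization.injective O' hS, ?_⟩
  let g : PP d →+* O' := (algebraMap (A.CoordRing N) O').comp (jj A N : PP d →+* A.CoordRing N)
  have hg : ∀ y : nonZeroDivisors (PP d), IsUnit (g y) := by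
    intro y
    exact IsLocalization.map_units O' (⟨jj A N y, ⟨y, y.2, rfl⟩⟩ : SS A N)
  let k : K →+* O' := IsLocalization.lift (M := nonZeroDivisors (PP d)) hg
  have hk : ∀ p : PP d, k (algebraMap (PP d) K p) = algebraMap (A.CoordRing N) O' (jj A N p) :=
    fun p => IsLocalization.lift_eq hg p
  refine ⟨k, hk, ?_, ?_⟩
  · intro z
    obtain ⟨⟨r, s⟩, hrs⟩ := IsLocalization.surj (SS A N) z
    obtain ⟨p, hp, hps⟩ := s.2
    have hp0 : p ≠ 0 := nonZeroDivisors.ne_zero hp
    have hs : algebraMap (A.CoordRing N) O' (s : A.CoordRing N) = k (algebraMap (PP d) K p) := by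
      rw [hk p]
      congr 1
      exact hps.symm
    have hpk : algebraMap (PP d) K p ≠ 0 := by
      intro h2
      exact hp0 ((map_eq_zero_iff _ (IsFractionRing.injective (PP d) K)).1 h2)
    refine ⟨r, (algebraMap (PP d) K p)⁻¹, ?_⟩
    have h3 : z * k (algebraMap (PP d) K p) = algebraMap (A.CoordRing N) O' r := by
      rw [← hs]
      exact hrs
    rw [← h3, mul_assoc, ← map_mul, mul_inv_cancel₀ hpk, map_one, mul_one]
  · intro L _ f Φ hΦp
    have hu : ∀ y : SS A N, IsUnit (Φ y) := by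
      rintro ⟨_, p, hp, rfl⟩
      show IsUnit (Φ (jj A N p))
      rw [hΦp]
      refine isUnit_iff_ne_zero.2 ?_
      rw [Ne, map_eq_zero_iff f f.injective,
        map_eq_zero_iff _ (IsFractionRing.injective (PP d) K)]
      exact nonZeroDivisors.ne_zero hp
    let φ : O' →+* L := IsLocalization.lift (M := SS A N) hu
    have hφ : ∀ r : A.CoordRing N, φ (algebraMap (A.CoordRing N) O' r) = Φ r :=
      fun r => IsLocalization.lift_eq hu r
    refine ⟨φ, hφ, ?_⟩
    have hcomp : φ.comp k = f := by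
      apply IsLocalization.ringHom_ext (nonZeroDivisors (PP d))
      apply RingHom.ext
      intro p
      show φ (k (algebraMap (PP d) K p)) = f (algebraMap (PP d) K p)
      rw [hk, hφ, hΦp]
    intro t
    exact RingHom.congr_fun hcomp t

theorem gen_poly {O' : Type} [CommRing O'] [Algebra (KK d) O'] (ψ : A.CoordRing N →+* O')
    (T : Subalgebra (KK d) O')
    (hpoly : ∀ p : PP d, ψ (jj A N p) ∈ T) (h0 : ψ (vy A N 0) ∈ T) (h1 : ψ (vy A N 1) ∈ T)
    (r : A.CoordRing N) : ψ r ∈ T := by
  have hv : ∀ s : Fin (d + 2), ψ (vy A N s) ∈ T := by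
    intro s
    refine Fin.cases h0 (fun s' => ?_) s
    refine Fin.cases h1 (fun u => ?_) s'
    rw [← jj_X]
    exact hpoly _
  obtain ⟨f, rfl⟩ := Ideal.Quotient.mk_surjective r
  induction f using MvPolynomial.induction_on with
  | C a =>
    have := hpoly (MvPolynomial.C a)
    rw [jj_C] at this
    exact this
  | add p q hp hq =>
    rw [map_add, map_add]
    exact T.add_mem hp hq
  | mul_X p s hp =>
    rw [map_mul, map_mul]
    exact T.mul_mem hp (hv s)

end GenYAux

open GenYAux in
theorem exists_gen {d : ℕ} (A : Fam d) {N : ℕ} (hN : 1 ≤ N) :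
    ∃ (O' : Type) (_ : CommRing O') (_ : Algebra (KK d) O') (ψ : A.CoordRing N →+* O'),
      Function.Injective ψ ∧
      (∀ p : PP d, ψ (jj A N p) = algebraMap (KK d) O' (algebraMap (PP d) (KK d) p)) ∧
      Cur O' (ψ (vy A N 0)) (ψ (vy A N 1)) (PY A N) (QY A) := by
  obtain ⟨hinj, k, hk, hsurj, huniv⟩ := core A hN (Localization (SS A N)) (KK d)
  let ψ : A.CoordRing N →+* Localization (SS A N) := algebraMap _ _
  let alg : Algebra (KK d) (Localization (SS A N)) := k.toAlgebra
  have halg : ∀ t : KK d, algebraMap (KK d) (Localization (SS A N)) t = k t := fun t => rfl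
  refine ⟨Localization (SS A N), inferInstance, alg, ψ, hinj, fun p => (hk p).symm, ?_, ?_, ?_⟩
  · unfold PY QY
    rw [map_mul, map_mul, Polynomial.aeval_C, Polynomial.aeval_C, map_one, one_mul, map_prod,
      map_prod, mul_assoc]
    simp only [map_sub, Polynomial.aeval_X, Polynomial.aeval_C, map_intCast]
    have h1 := congrArg ψ (eqn_vy A (N := N))
    rw [map_mul, map_mul, map_prod, map_prod, map_one] at h1
    simp only [map_sub, map_intCast] at h1
    rw [halg, hk]
    exact h1
  · intro T h0 h1 z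
    have hpoly : ∀ p : PP d, ψ (jj A N p) ∈ T := by
      intro p
      have h2 : ψ (jj A N p) = algebraMap (KK d) (Localization (SS A N))
        (algebraMap (PP d) (KK d) p) := (hk p).symm
      rw [h2]
      exact T.algebraMap_mem _
    obtain ⟨r, t, hz⟩ := hsurj z
    rw [hz]
    exact T.mul_mem (gen_poly A ψ T hpoly h0 h1 r) (T.algebraMap_mem t)
  · intro L _ f x' y' he
    obtain ⟨Φ, hΦ0, hΦ1, hΦp⟩ := exists_hom A (N := N) (f.comp (algebraMap (PP d) (KK d))) x' y' (by
      unfold PY QY at he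
      rw [Polynomial.eval₂_mul, Polynomial.eval₂_mul, Polynomial.eval₂_C, Polynomial.eval₂_C,
        map_one, one_mul, Polynomial.eval₂_finsetProd, Polynomial.eval₂_finsetProd, mul_assoc] at he
      simp only [Polynomial.eval₂_sub, Polynomial.eval₂_X, Polynomial.eval₂_C] at he
      simp only [map_intCast] at he
      exact he)
    obtain ⟨φ, h1, h2⟩ := huniv L f Φ hΦp
    exact ⟨φ, (h1 _).trans hΦ0, (h1 _).trans hΦ1, h2⟩

end P4a177y
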