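import Pool.Agent.Lib.P4a177y.DefY

/-!
# MODULE P4a177y.ParY: two units whose difference is constant

PROOF. `hC` is the fact that `S.f` vanishes if two entries are constants. If `t = 0` then `u = w` (`Units.ext`), `S.f v = 0` (equal entries, `AlternatingMap.map_eq_zero_of_eq`) and
`c = c' = 0` works (`map_update_zero`/`map_coord_zero`). If `t ≠ 0` let `τ = Units.mk0 t`, `U = u * (cs τ)⁻¹`, `W = -w * (cs τ)⁻¹` (`cs = P4a177w.cs R`): `(U : R) + W = 1`. For `v` with
`v a = ofMul u`, `v b = ofMul w`: `S.st` for the tuple `update (update v a (ofMul U)) b (ofMul W)` (as a function into `Rˣ`, via `toMul`) gives `0`. With `ofMul U = ofMul u - T`,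
`ofMul W = ofMul w - T'`, `T = ofMul (cs τ) ∈ CC R`, `T' = ofMul (cs τ) - ofMul (-1) ∈ CC R` (`-1 = cs (-1)`), expand (`map_update_sub`, `update_comm`, `update_eq_self`):
`0 = f v - f (update v b T') - f (update v a T) + f (update (update v a T) b T')`, the last one is `0` by `hC`. So `c = T'`, `c' = T`.
-/

set_option autoImplicit false

namespace P4a177y

open P4a177h P4a177x Function

namespace ParYAux

theorem T_mem {R : Type} [CommRing R] [Algebra ℚ R] (τ : ℚˣ) :
    Additive.ofMul (P4a177w.cs R τ) ∈ CC R := ⟨Additive.ofMul τ, rfl⟩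

theorem cs_coe {R : Type} [CommRing R] [Algebra ℚ R] (τ : ℚˣ) :
    ((P4a177w.cs R τ : Rˣ) : R) = algebraMap ℚ R (τ : ℚ) := rfl

theorem neg_one_mem {R : Type} [CommRing R] [Algebra ℚ R] :
    Additive.ofMul (-1 : Rˣ) ∈ CC R := by
  refine ⟨Additive.ofMul (-1 : ℚˣ), ?_⟩
  change Additive.ofMul (P4a177w.cs R (-1)) = Additive.ofMul (-1 : Rˣ)
  congr 1
  ext
  rw [cs_coe]
  simp

/-- Expansion of an alternating map in two entries. -/
theorem expand {V G : Type*} [AddCommGroup V] [AddCommGroup G] {n : ℕ}
    (f : V [⋀^Fin n]→ₗ[ℤ] G) (v : Fin n → V) (a b : Fin n) (hab : a ≠ b) (T T' : V) :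
    f (update (update v a (v a - T)) b (v b - T')) =
      f v - f (update v a T) - f (update v b T') + f (update (update v a T) b T') := by
  have e1 : f (update (update v a (v a - T)) b (v b - T')) =
      f (update (update v a (v a - T)) b (v b)) - f (update (update v a (v a - T)) b T') :=
    f.map_update_sub _ _ _ _
  have e2 : update (update v a (v a - T)) b (v b) = update v a (v a - T) := by
    rw [update_comm hab, update_eq_self]
  have e3 : f (update v a (v a - T)) = f v - f (update v a T) := by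
    rw [f.map_update_sub, update_eq_self]
  have e4 : f (update (update v a (v a - T)) b T') =
      f (update v b T') - f (update (update v a T) b T') := by
    have e5 : update (update v b T') a (v a) = update v b T' := by
      rw [update_comm hab.symm, update_eq_self]
    rw [update_comm hab, f.map_update_sub, e5, update_comm hab]
  rw [e1, e2, e3, e4]
  abel

end ParYAux

open ParYAux in
theorem par {R : Type} [CommRing R] [Algebra ℚ R] {n : ℕ} {G : Type*} [AddCommGroup G]
    (S : Alt R n G)
    (hC : ∀ (v : Fin n → Additive Rˣ) (i j : Fin n), i ≠ j → v i ∈ CC R → v j ∈ CC R → S.f v = 0)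
    (u w : Rˣ) (t : ℚ) (h : (u : R) - (w : R) = algebraMap ℚ R t) :
    ∃ c ∈ CC R, ∃ c' ∈ CC R, ∀ (v : Fin n → Additive Rˣ) (a b : Fin n), a ≠ b →
      v a = Additive.ofMul u → v b = Additive.ofMul w →
        S.f v = S.f (update v b c) + S.f (update v a c') := by
  by_cases ht : t = 0
  · have huw : u = w := by
      apply Units.ext
      rw [ht, map_zero] at h
      exact sub_eq_zero.1 h
    refine ⟨0, zero_mem _, 0, zero_mem _, fun v a b hab ha hb => ?_⟩
    rw [S.f.map_update_zero, S.f.map_update_zero, add_zero]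
    exact S.f.map_eq_zero_of_eq v (by rw [ha, hb, huw]) hab
  · obtain ⟨κ, hκ, hκm⟩ : ∃ κ : Rˣ, (κ : R) = algebraMap ℚ R t ∧ Additive.ofMul κ ∈ CC R :=
      ⟨P4a177w.cs R (Units.mk0 t ht), cs_coe _, T_mem _⟩
    refine ⟨Additive.ofMul κ - Additive.ofMul (-1 : Rˣ), sub_mem hκm neg_one_mem,
      Additive.ofMul κ, hκm, fun v a b hab ha hb => ?_⟩
    have hU : Additive.ofMul (u * κ⁻¹) = v a - Additive.ofMul κ := by
      rw [ha, ofMul_mul, ofMul_inv, sub_eq_add_neg]
    have hW : Additive.ofMul (-w * κ⁻¹) =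
        v b - (Additive.ofMul κ - Additive.ofMul (-1 : Rˣ)) := by
      rw [hb, show -w * κ⁻¹ = w * κ⁻¹ * (-1) by rw [mul_neg_one, neg_mul], ofMul_mul, ofMul_mul,
        ofMul_inv]
      abel
    have hsum : ((u * κ⁻¹ : Rˣ) : R) + ((-w * κ⁻¹ : Rˣ) : R) = 1 := by
      rw [Units.val_mul, Units.val_mul, Units.val_neg]
      have e : (u : R) * ((κ⁻¹ : Rˣ) : R) + -(w : R) * ((κ⁻¹ : Rˣ) : R) =
          ((u : R) - (w : R)) * ((κ⁻¹ : Rˣ) : R) := by ring
      rw [e, h, ← hκ, Units.mul_inv]
    have h0 := S.st (fun k => Additive.toMul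
      (update (update v a (Additive.ofMul (u * κ⁻¹))) b (Additive.ofMul (-w * κ⁻¹)) k)) a b hab (by
        rw [update_self, update_of_ne hab, update_self, toMul_ofMul, toMul_ofMul]
        exact hsum)
    have h1 : S.f (update (update v a (Additive.ofMul (u * κ⁻¹))) b
        (Additive.ofMul (-w * κ⁻¹))) = 0 := h0
    rw [hU, hW, expand S.f v a b hab] at h1
    have h2 : S.f (update (update v a (Additive.ofMul κ)) b
        (Additive.ofMul κ - Additive.ofMul (-1 : Rˣ))) = 0 :=
      hC _ a b hab (by rw [update_of_ne hab, update_self]; exact hκm)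
        (by rw [update_self]; exact sub_mem hκm neg_one_mem)
    rw [h2, add_zero, sub_sub, sub_eq_zero] at h1
    rw [h1, add_comm]

end P4a177y
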