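import Pool.Agent.Lib.P4a177y.DefY

/-!
# MODULE P4a177y.RelY: the exchange relation

PROOF. Write `ι_c f` for the alternating map `w ↦ f (Fin.cons c w)` in `k` arguments (`AlternatingMap.curryLeft f c`, `Matrix.vecCons = Fin.cons`). `ZY_ind`: `s.succAbove b ≠ s`, so
the entries do not change. `ZY_add`, `ZY_zero`: additivity of `f` in the entry `0` (`AlternatingMap.map_add` with `Fin.cons`, i.e. `map_update_add` and `Fin.update_cons_zero`).
`exch`: for `i' : Fin (m s' + 1)` let `x : Fin (k + 1) → V` be `x t = l t (j t)` for `t ≠ s, s'` and `x s = x s' = l s' i'`. Mathlib: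
`AlternatingMap.neg_one_pow_smul_map_removeNth_add_eq_zero_of_eq (f) (hvij : v i = v j) (hij : i ≠ j) : (-1) ^ i • f (i.removeNth v) + (-1) ^ j • f (j.removeNth v) = 0`
(`Mathlib/LinearAlgebra/Alternating/Uncurry/Fin.lean`), applied to `ι_c f`, `x`: `s.removeNth x` is the tuple `b ↦ x (s.succAbove b)`, so the term for `s` is `ZY f l s (update j s' i') c`, and
the term for `s'` is `(-1) ^ s' • f (c, l_t (t ≠ s'), with the entry of index s replaced by l s' i')`. Sum over `i'`: so
`∑ i', ZY f l s (update j s' i') c = -(-1) ^ s' • f (c, l_t (t ≠ s'), with the entry s replaced by ∑ i', l s' i')`. On the other hand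
`∑ i, ZY f l s' (update j s i) c = (-1) ^ s' • f (c, .., with the entry s replaced by ∑ i, l s i)`. So the difference of the two sides is `± f (c, .., entry s replaced by
∑ i, l s i + ∑ i', l s' i')`, and `∑ i, l s i + ∑ i', l s' i' = (∑ t, ∑ i, l t i) - ∑ t ≠ s, s', ∑ i, l t i`: the first one is in `C` (`hs`), so together with `c` there are two entries in
`C` (`hC`): `0`; for `t ≠ s, s'` the entry of index `t` is `l t (j t)`, so by `hp` the value is a sum of two values with an additional entry in `C`: `0` by `hC`.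
-/

set_option autoImplicit false

namespace P4a177y

open Function

variable {k : ℕ} {m : Fin (k + 1) → ℕ} {V G : Type*} [AddCommGroup V] [AddCommGroup G]
  (f : V [⋀^Fin (k + 1)]→ₗ[ℤ] G) (C : AddSubgroup V) (l : ∀ s, Fin (m s + 1) → V)

theorem ZY_ind (s : Fin (k + 1)) (j : ∀ t, Fin (m t + 1)) (i : Fin (m s + 1)) (c : V) :
    ZY f l s (update j s i) c = ZY f l s j c := by
  unfold ZY
  have : (fun b => l (s.succAbove b) (update j s i (s.succAbove b))) =
      fun b => l (s.succAbove b) (j (s.succAbove b)) := by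
    funext b
    rw [update_of_ne (Fin.succAbove_ne s b)]
  rw [this]

theorem ZY_zero (s : Fin (k + 1)) (j : ∀ t, Fin (m t + 1)) : ZY f l s j 0 = 0 := by
  unfold ZY
  rw [f.map_coord_zero (0 : Fin (k + 1)) (Fin.cons_zero _ _), smul_zero]

theorem ZY_add (s : Fin (k + 1)) (j : ∀ t, Fin (m t + 1)) (c c' : V) :
    ZY f l s j (c + c') = ZY f l s j c + ZY f l s j c' := by
  unfold ZY
  rw [← smul_add]
  congr 1
  exact f.toMultilinearMap.cons_add (fun b => l (s.succAbove b) (j (s.succAbove b))) c c'

namespace RelYAux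

omit [AddCommGroup V] in
/-- the entry of index `s` in the tuple of the entries -/
lemma upd (s : Fin (k + 1)) (j : ∀ t, Fin (m t + 1)) (i : Fin (m s + 1)) (t : Fin (k + 1)) :
    l t (update j s i t) = update (fun t => l t (j t)) s (l s i) t := by
  by_cases h : t = s
  · subst h
    rw [update_self, update_self]
  · rw [update_of_ne h, update_of_ne h]

/-- a tuple with two equal entries -/
lemma rel (L : Fin (k + 1) → V) (c y : V) {s s' : Fin (k + 1)} (hss : s ≠ s') :
    (-1 : ℤ) ^ (s : ℕ) • f (Fin.cons c (fun b => update L s' y (s.succAbove b))) +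
      (-1 : ℤ) ^ (s' : ℕ) • f (Fin.cons c (fun b => update L s y (s'.succAbove b))) = 0 := by
  set v : Fin (k + 1) → V := update (update L s y) s' y with hv
  have h1 : v s = v s' := by
    rw [hv, update_of_ne hss, update_self, update_self]
  have h2 := AlternatingMap.neg_one_pow_smul_map_removeNth_add_eq_zero_of_eq
    (f.curryLeft c) h1 hss
  have e1 : (s.removeNth v : Fin k → V) = fun b => update L s' y (s.succAbove b) := by
    funext b
    show v (s.succAbove b) = _
    rw [hv]
    by_cases h : s.succAbove b = s'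
    · rw [h, update_self, update_self]
    · rw [update_of_ne h, update_of_ne h, update_of_ne (Fin.succAbove_ne s b)]
  have e2 : (s'.removeNth v : Fin k → V) = fun b => update L s y (s'.succAbove b) := by
    funext b
    show v (s'.succAbove b) = _
    rw [hv, update_of_ne (Fin.succAbove_ne s' b)]
  rw [e1, e2] at h2
  exact h2

end RelYAux

open RelYAux

theorem exch
    (hC : ∀ (v : Fin (k + 1) → V) (i j : Fin (k + 1)), i ≠ j → v i ∈ C → v j ∈ C → f v = 0)
    (hs : ∑ s, ∑ i, l s i ∈ C) (hp : ParRel f C l) (s s' : Fin (k + 1)) (hss : s ≠ s')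
    (j : ∀ t, Fin (m t + 1)) (c : V) (hc : c ∈ C) :
    ∑ i, ZY f l s' (update j s i) c = ∑ i, ZY f l s (update j s' i) c := by
  classical
  set L : Fin (k + 1) → V := fun t => l t (j t) with hL
  obtain ⟨b₀, hb₀⟩ := Fin.exists_succAbove_eq hss
  set w : Fin (k + 1) → V := Fin.cons c (fun b => L (s'.succAbove b)) with hw
  set g : V →ₗ[ℤ] G := f.toMultilinearMap.toLinearMap w b₀.succ with hg
  have hgy : ∀ y, f (Fin.cons c (fun b => update L s y (s'.succAbove b))) = g y := by
    intro y
    rw [hg, MultilinearMap.toLinearMap_apply]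
    show _ = f (update w b₀.succ y)
    congr 1
    rw [hw, ← Fin.cons_update]
    congr 1
    funext b
    by_cases h : b = b₀
    · subst h
      rw [hb₀, update_self, update_self]
    · rw [update_of_ne h, update_of_ne]
      rw [← hb₀]
      exact fun h' => h (Fin.succAbove_right_injective h')
  have h1 : ∀ i, ZY f l s' (update j s i) c = (-1 : ℤ) ^ (s' : ℕ) • g (l s i) := by
    intro i
    unfold ZY
    rw [← hgy]
    simp only [upd]
    rfl
  have h2 : ∀ i, ZY f l s (update j s' i) c = -((-1 : ℤ) ^ (s' : ℕ) • g (l s' i)) := by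
    intro i
    unfold ZY
    rw [← hgy]
    simp only [upd]
    exact eq_neg_of_add_eq_zero_left (rel f L c (l s' i) hss)
  simp only [h1, h2]
  rw [Finset.sum_neg_distrib, eq_neg_iff_add_eq_zero, ← Finset.smul_sum, ← Finset.smul_sum,
    ← smul_add, ← map_sum, ← map_sum]
  -- the value at the total sum
  have h3 : g (∑ t, ∑ i, l t i) = 0 := by
    rw [hg, MultilinearMap.toLinearMap_apply]
    show f (update w b₀.succ _) = 0
    refine hC _ 0 b₀.succ (Fin.succ_ne_zero b₀).symm ?_ ?_
    · rw [update_of_ne (Fin.succ_ne_zero b₀).symm, hw, Fin.cons_zero]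
      exact hc
    · rw [update_self]
      exact hs
  -- the other values
  have h4 : ∀ t, t ≠ s ∧ t ≠ s' → g (∑ i, l t i) = 0 := by
    rintro t ⟨hts, hts'⟩
    rw [map_sum]
    refine Finset.sum_eq_zero fun i _ => ?_
    obtain ⟨b₁, hb₁⟩ := Fin.exists_succAbove_eq hts'
    have hbb : b₀ ≠ b₁ := by
      intro h
      rw [h, hb₁] at hb₀
      exact hts hb₀
    obtain ⟨d, hd, d', hd', hpar⟩ := hp t i (j t)
    rw [hg, MultilinearMap.toLinearMap_apply]
    show f (update w b₀.succ (l t i)) = 0
    have hne : b₀.succ ≠ b₁.succ := fun h => hbb (Fin.succ_injective _ h)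
    have hv0 : update w b₀.succ (l t i) 0 = c := by
      rw [update_of_ne (Fin.succ_ne_zero b₀).symm, hw, Fin.cons_zero]
    rw [hpar (update w b₀.succ (l t i)) b₀.succ b₁.succ hne (update_self _ _ _) (by
      rw [update_of_ne hne.symm, hw, Fin.cons_succ, hb₁])]
    rw [hC _ 0 b₁.succ (Fin.succ_ne_zero b₁).symm (by
        rw [update_of_ne (Fin.succ_ne_zero b₁).symm, hv0]
        exact hc) (by
        rw [update_self]
        exact hd),
      hC _ 0 b₀.succ (Fin.succ_ne_zero b₀).symm (by
        rw [update_of_ne (Fin.succ_ne_zero b₀).symm, hv0]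
        exact hc) (by
        rw [update_self]
        exact hd'), add_zero]
  have h5 : g (∑ t, ∑ i, l t i) = g (∑ i, l s i) + g (∑ i, l s' i) := by
    rw [map_sum]
    exact Fintype.sum_eq_add s s' hss h4
  rw [← h5, h3, smul_zero]

end P4a177y
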