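import Pool.Agent.Lib.P4a177y.DefY

/-!
# MODULE P4a177y.SpnY: multilinear algebra modulo constants for several lists

PROOFS. `f` is an alternating `ℤ`-multilinear map; let `H0 = AddSubgroup.closure {ZY f l s j c | c ∈ C} ≤ HY f C l`. (For the techniques see the file `Lib/P4a177x/MulX.lean` (proved), which treats a
similar statement.) (a) A tuple `v` with one entry in `C` and all the others of the form `l t i` has `f v ∈ H0`: move the entry of `C` to the index `0` (`map_perm` with `Equiv.swap`,
sign); if two of the others are in the same list then `hp` gives two terms with two entries in `C`: `0` by `hC`; otherwise the `k` other entries are in `k` different of the `k + 1` lists: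
exactly one list `s` is missing, and a permutation brings them into the order `l (s.succAbove b) (j (s.succAbove b))`: `± ZY f l s j c`. (b) A tuple with all entries of the form
`l t i` and two entries in the same list has `f v ∈ H0` (`hp` and (a)). (c) A tuple with entries `l t i` in all the different lists is, up to sign, `X(j) = f (fun s => l s (j s))`. For every
`s`: `∑ i, X (update j s i) ∈ H0`: it is `f` with the entry `s` replaced by `∑ i, l s i = (∑ t, ∑ i, l t i) - ∑ t ≠ s, ∑ i, l t i`; `hs` and (a) for the first, (b) for the others. So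
`(m s + 1) • X(j) - ∑ i, (X(j) - X (update j s i)) ∈ H0` and, processing the directions one after the other, `(∏ s, (m s + 1)) • X(j) - ∑ i : ∀ s, Fin (m s + 1), f (fun s => l s (j s) - l s (i s)) ∈ H0`.
Each `l s (j s) - l s (i s) = (l s (j s) - l s 0) - (l s (i s) - l s 0)`: `f` of such a tuple is a combination of values `f (fun s => l s (p s) - l s 0)`, `p : ∀ s, Fin (m s + 1)`, which is
`0` if some `p s = 0` and is a generator of `HY` otherwise. So `(∏ s, (m s + 1)) • X(j) ∈ HY f C l`. `span_mem`: `K • v i` is a sum of an element of `C` and a combination of the `l t i` (`hg`);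
`K ^ (k + 1) • f v = f (fun i => K • v i)` (`map_smul_univ`), expand; terms with two entries in `C` are `0`, with one: (a), with none: (b), (c). (Convenient: the set of the `x` with
`(∏ ..) • f (update v i x) ∈ HY` is a subgroup; replace the entries one after the other.)
`explicit`: `AddSubgroup.closure_induction`: sums and negatives of elements of the explicit form have it (`ZY f l s j` is additive in `c`: `map_update_add` in the entry `0`); generators:
`ν = Pi.single p 1`-like, `c = 0` (`ZY f l s j 0 = 0`), or `ν = 0` and `c s' j' = if (s', j') = (s, j) then c else 0`.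
-/

set_option autoImplicit false

namespace P4a177y

open Function

variable {k : ℕ} {m : Fin (k + 1) → ℕ} {V G : Type*} [AddCommGroup V] [AddCommGroup G]
  (f : V [⋀^Fin (k + 1)]→ₗ[ℤ] G) (C : AddSubgroup V) (l : ∀ s, Fin (m s + 1) → V)

namespace SpnYAux

/-- A multilinear map with values in `H` on the tuples with entries in the sets `S i` has values in `H` on
the tuples with entries in the closures of the `S i`. -/
theorem ml_closure {W G' ι : Type*} [AddCommGroup W] [AddCommGroup G'] [Fintype ι] [DecidableEq ι]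
    (g : MultilinearMap ℤ (fun _ : ι => W) G') (S : ι → Set W) (H : AddSubgroup G')
    (h : ∀ t : ι → W, (∀ i, t i ∈ S i) → g t ∈ H) (t : ι → W)
    (ht : ∀ i, t i ∈ AddSubgroup.closure (S i)) : g t ∈ H := by
  have key : ∀ s : Finset ι, ∀ t : ι → W, (∀ i ∈ s, t i ∈ AddSubgroup.closure (S i)) →
      (∀ i, i ∉ s → t i ∈ S i) → g t ∈ H := by
    intro s
    induction s using Finset.induction_on with
    | empty => exact fun t _ h2 => h t fun i => h2 i (Finset.notMem_empty i)
    | insert a s ha ih =>
      intro t h1 h2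
      have hx : ∀ x ∈ AddSubgroup.closure (S a), g (Function.update t a x) ∈ H := by
        intro x hx
        induction hx using AddSubgroup.closure_induction with
        | mem x hx =>
          refine ih _ (fun i hi => ?_) (fun i hi => ?_)
          · have hia : i ≠ a := fun e => ha (e ▸ hi)
            rw [Function.update_of_ne hia]
            exact h1 i (Finset.mem_insert_of_mem hi)
          · by_cases hia : i = a
            · subst hia
              rw [Function.update_self]
              exact hx
            · rw [Function.update_of_ne hia]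
              exact h2 i (by simp [hia, hi])
        | zero =>
          rw [g.map_update_zero]
          exact zero_mem _
        | add x y _ _ hx hy =>
          rw [g.map_update_add]
          exact add_mem hx hy
        | neg x _ hx =>
          rw [g.map_update_neg]
          exact neg_mem hx
      have := hx (t a) (h1 a (Finset.mem_insert_self a s))
      rwa [Function.update_eq_self] at this
  exact key Finset.univ t (fun i _ => ht i) (fun i hi => absurd (Finset.mem_univ i) hi)

/-- The entries in `C` or in one of the lists. -/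
def Sp (x : V) : Prop := x ∈ C ∨ ∃ t i, x = l t i

theorem perm_mem {n : ℕ} (g : V [⋀^Fin n]→ₗ[ℤ] G) (H : AddSubgroup G) (σ : Equiv.Perm (Fin n))
    (v : Fin n → V) (h : g v ∈ H) : g (v ∘ σ) ∈ H := by
  rw [g.map_perm v σ, Units.smul_def]
  exact AddSubgroup.zsmul_mem _ h _

theorem zy_mem (s : Fin (k + 1)) (j : ∀ t, Fin (m t + 1)) {c : V} (hc : c ∈ C) :
    f (Fin.cons c (fun b => l (s.succAbove b) (j (s.succAbove b)))) ∈ HY f C l := by
  have h1 : ZY f l s j c ∈ HY f C l := AddSubgroup.subset_closure (Or.inr ⟨s, j, c, hc, rfl⟩)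
  have h2 := AddSubgroup.zsmul_mem _ h1 ((-1 : ℤ) ^ (s : ℕ))
  have h3 : (-1 : ℤ) ^ (s : ℕ) • ZY f l s j c =
      f (Fin.cons c (fun b => l (s.succAbove b) (j (s.succAbove b)))) := by
    unfold ZY
    rw [← mul_smul, ← mul_pow, neg_one_mul, neg_neg, one_pow, one_smul]
  rwa [h3] at h2

/-- Case (a), the entry of `C` at the index `0`. -/
theorem mem_zero
    (hC : ∀ (v : Fin (k + 1) → V) (i j : Fin (k + 1)), i ≠ j → v i ∈ C → v j ∈ C → f v = 0)
    (hp : ParRel f C l) (w : Fin (k + 1) → V) (hw : ∀ i, Sp C l (w i)) (h0 : w 0 ∈ C) :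
    f w ∈ HY f C l := by
  classical
  by_cases hex : ∃ a : Fin k, w a.succ ∈ C
  · obtain ⟨a, ha⟩ := hex
    rw [hC w 0 a.succ (Fin.succ_ne_zero a).symm h0 ha]
    exact zero_mem _
  push Not at hex
  have hB : ∀ a : Fin k, ∃ t i, w a.succ = l t i := fun a => by
    rcases hw a.succ with h | h
    · exact absurd h (hex a)
    · exact h
  choose t j hj using hB
  by_cases hinj : Injective t
  · -- the missing list
    have hs : ∃ s, ∀ a, t a ≠ s := by
      by_contra hcon
      push Not at hcon
      have h1 := Fintype.card_le_of_surjective t hcon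
      rw [Fintype.card_fin, Fintype.card_fin] at h1
      omega
    obtain ⟨s, hs⟩ := hs
    have hσ : ∀ a, ∃ b, s.succAbove b = t a := fun a => Fin.exists_succAbove_eq (hs a)
    choose σ hσ using hσ
    have hσi : Injective σ := fun a b hab => hinj (by rw [← hσ a, ← hσ b, hab])
    have hσb : Bijective σ := Finite.injective_iff_bijective.1 hσi
    have hj' : ∀ t' : Fin (k + 1), ∃ i : Fin (m t' + 1), ∀ a, t a = t' → w a.succ = l t' i := by
      intro t'
      by_cases h : ∃ a, t a = t'
      · obtain ⟨a, rfl⟩ := h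
        refine ⟨j a, fun a' ha' => ?_⟩
        rw [hinj ha']
        exact hj a
      · exact ⟨0, fun a ha => absurd ⟨a, ha⟩ h⟩
    choose j' hj' using hj'
    have e : w = Fin.cons (w 0) ((fun b => l (s.succAbove b) (j' (s.succAbove b))) ∘
        Equiv.ofBijective σ hσb) := by
      have e0 : w = Fin.cons (w 0) (fun a => w a.succ) := (Fin.cons_self_tail w).symm
      have e1 : (fun a => w a.succ) = (fun b => l (s.succAbove b) (j' (s.succAbove b))) ∘
          Equiv.ofBijective σ hσb := by
        funext a
        exact hj' (s.succAbove (σ a)) a (hσ a).symm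
      rw [← e1]
      exact e0
    rw [e]
    exact perm_mem (f.curryLeft (w 0)) (HY f C l) (Equiv.ofBijective σ hσb) _
      (zy_mem f C l s j' h0)
  · simp only [Injective, not_forall] at hinj
    obtain ⟨a, b, hab, hne⟩ := hinj
    have hb' : ∃ i', w b.succ = l (t a) i' := by
      rw [hab]
      exact ⟨j b, hj b⟩
    obtain ⟨i', hi'⟩ := hb'
    obtain ⟨c, hc, c', hc', hcc⟩ := hp (t a) (j a) i'
    have e1 : f (update w b.succ c) = 0 := hC _ 0 b.succ (Fin.succ_ne_zero b).symm
      (by rw [update_of_ne (Fin.succ_ne_zero b).symm]; exact h0) (by rw [update_self]; exact hc)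
    have e2 : f (update w a.succ c') = 0 := hC _ 0 a.succ (Fin.succ_ne_zero a).symm
      (by rw [update_of_ne (Fin.succ_ne_zero a).symm]; exact h0) (by rw [update_self]; exact hc')
    rw [hcc w a.succ b.succ (fun h => hne (Fin.succ_injective _ h)) (hj a) hi', e1, e2, add_zero]
    exact zero_mem _

/-- Case (a). -/
theorem mem_of_C
    (hC : ∀ (v : Fin (k + 1) → V) (i j : Fin (k + 1)), i ≠ j → v i ∈ C → v j ∈ C → f v = 0)
    (hp : ParRel f C l) (w : Fin (k + 1) → V) (hw : ∀ i, Sp C l (w i)) {i : Fin (k + 1)}
    (hi : w i ∈ C) : f w ∈ HY f C l := by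
  have h1 := mem_zero f C l hC hp (w ∘ Equiv.swap 0 i) (fun j => hw _) (by
    simpa only [Function.comp_apply, Equiv.swap_apply_left] using hi)
  by_cases hi0 : (0 : Fin (k + 1)) = i
  · rw [← hi0, Equiv.swap_self] at h1
    exact h1
  · rw [f.map_swap w hi0] at h1
    exact neg_mem_iff.mp h1

theorem sp_update {w : Fin (k + 1) → V} (hw : ∀ i, Sp C l (w i)) (b : Fin (k + 1)) {c : V}
    (hc : Sp C l c) (j : Fin (k + 1)) : Sp C l (update w b c j) := by
  by_cases h : j = b
  · rw [h, update_self]
    exact hc
  · rw [update_of_ne h]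
    exact hw j

/-- Case (b). -/
theorem mem_of_two
    (hC : ∀ (v : Fin (k + 1) → V) (i j : Fin (k + 1)), i ≠ j → v i ∈ C → v j ∈ C → f v = 0)
    (hp : ParRel f C l) (w : Fin (k + 1) → V) (hw : ∀ i, Sp C l (w i)) {a b : Fin (k + 1)}
    (hab : a ≠ b) {s : Fin (k + 1)} {i i' : Fin (m s + 1)} (ha : w a = l s i)
    (hb : w b = l s i') : f w ∈ HY f C l := by
  obtain ⟨c, hc, c', hc', h⟩ := hp s i i'
  rw [h w a b hab ha hb]
  refine add_mem (mem_of_C f C l hC hp (update w b c) (sp_update C l hw b (Or.inl hc)) (i := b) ?_)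
    (mem_of_C f C l hC hp (update w a c') (sp_update C l hw a (Or.inl hc')) (i := a) ?_)
  · rw [update_self]
    exact hc
  · rw [update_self]
    exact hc'

/-- One entry is the sum of its list. -/
theorem mem_sum
    (hC : ∀ (v : Fin (k + 1) → V) (i j : Fin (k + 1)), i ≠ j → v i ∈ C → v j ∈ C → f v = 0)
    (hs : ∑ s, ∑ i, l s i ∈ C) (hp : ParRel f C l) (j : ∀ s, Fin (m s + 1)) (s : Fin (k + 1)) :
    f (update (fun t => l t (j t)) s (∑ i, l s i)) ∈ HY f C l := by
  have hw : ∀ i, Sp C l ((fun t => l t (j t)) i) := fun i => Or.inr ⟨i, j i, rfl⟩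
  have e : ∑ i, l s i = ∑ t, ∑ i, l t i - ∑ t ∈ Finset.univ.erase s, ∑ i, l t i := by
    rw [← Finset.add_sum_erase Finset.univ (fun t => ∑ i, l t i) (Finset.mem_univ s),
      add_sub_cancel_right]
  rw [e, f.map_update_sub]
  refine sub_mem ?_ ?_
  · refine mem_of_C f C l hC hp _ (sp_update C l hw s (Or.inl hs)) (i := s) ?_
    rw [update_self]
    exact hs
  · rw [f.map_update_sum]
    refine sum_mem fun t ht => ?_
    rw [f.map_update_sum]
    refine sum_mem fun i _ => ?_
    have hts : t ≠ s := Finset.ne_of_mem_erase ht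
    refine mem_of_two f C l hC hp _ (sp_update C l hw s (Or.inr ⟨t, i, rfl⟩)) hts (s := t)
      (i := j t) (i' := i) ?_ ?_
    · rw [update_of_ne hts]
    · rw [update_self]

theorem sub_mem_closure (s : Fin (k + 1)) (i : Fin (m s + 1)) :
    l s i - l s 0 ∈ AddSubgroup.closure (({∑ i, l s i} : Set V) ∪
      Set.range fun p : Fin (m s) => l s p.succ - l s 0) := by
  refine Fin.cases ?_ (fun p => ?_) i
  · rw [sub_self]
    exact zero_mem _
  · exact AddSubgroup.subset_closure (Or.inr ⟨p, rfl⟩)

theorem smul_mem_closure (s : Fin (k + 1)) (j : Fin (m s + 1)) :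
    (((m s + 1 : ℕ) : ℤ)) • l s j ∈ AddSubgroup.closure (({∑ i, l s i} : Set V) ∪
      Set.range fun p : Fin (m s) => l s p.succ - l s 0) := by
  have e : (((m s + 1 : ℕ) : ℤ)) • l s j =
      ∑ i, ((l s j - l s 0) - (l s i - l s 0)) + ∑ i, l s i := by
    rw [← Finset.sum_add_distrib]
    have : ∀ i : Fin (m s + 1), (l s j - l s 0) - (l s i - l s 0) + l s i = l s j :=
      fun i => by abel
    simp only [this, Finset.sum_const, Finset.card_univ, Fintype.card_fin, natCast_zsmul]
  rw [e]
  exact add_mem (sum_mem fun i _ => sub_mem (sub_mem_closure l s j) (sub_mem_closure l s i))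
    (AddSubgroup.subset_closure (Or.inl rfl))

/-- Case (c). -/
theorem smul_X_mem
    (hC : ∀ (v : Fin (k + 1) → V) (i j : Fin (k + 1)), i ≠ j → v i ∈ C → v j ∈ C → f v = 0)
    (hs : ∑ s, ∑ i, l s i ∈ C) (hp : ParRel f C l) (j : ∀ s, Fin (m s + 1)) :
    (∏ s, (m s + 1)) • f (fun s => l s (j s)) ∈ HY f C l := by
  classical
  have e : (∏ s, (m s + 1)) • f (fun s => l s (j s)) =
      f.toMultilinearMap (fun s => (((m s + 1 : ℕ) : ℤ)) • l s (j s)) := by
    rw [f.toMultilinearMap.map_smul_univ, ← Nat.cast_prod, natCast_zsmul]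
    rfl
  rw [e]
  refine ml_closure f.toMultilinearMap (fun s => ({∑ i, l s i} : Set V) ∪
    Set.range fun p : Fin (m s) => l s p.succ - l s 0) (HY f C l) ?_ _
    (fun s => smul_mem_closure l s (j s))
  intro w hw
  show f w ∈ HY f C l
  by_cases hex : ∃ s, w s = ∑ i, l s i
  · obtain ⟨s, hs'⟩ := hex
    refine ml_closure f.toMultilinearMap (fun t => if t = s then ({∑ i, l s i} : Set V) else
      Set.range (l t)) (HY f C l) ?_ w ?_
    · intro w' hw'
      show f w' ∈ HY f C l
      have h1 : ∀ t, ∃ i : Fin (m t + 1), t ≠ s → w' t = l t i := by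
        intro t
        by_cases h : t = s
        · exact ⟨0, fun h' => absurd h h'⟩
        · have h2 := hw' t
          rw [if_neg h] at h2
          obtain ⟨i, hi⟩ := h2
          exact ⟨i, fun _ => hi.symm⟩
      choose j' hj' using h1
      have h3 : w' s = ∑ i, l s i := by
        have h2 := hw' s
        rw [if_pos rfl] at h2
        exact h2
      have e2 : w' = update (fun t => l t (j' t)) s (∑ i, l s i) := by
        funext t
        by_cases h : t = s
        · rw [h, update_self]
          exact h3
        · rw [update_of_ne h]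
          exact hj' t h
      rw [e2]
      exact mem_sum f C l hC hs hp j' s
    · intro t
      by_cases h : t = s
      · rw [if_pos h, h]
        exact AddSubgroup.subset_closure hs'
      · rw [if_neg h]
        have hl : ∀ i, l t i ∈ AddSubgroup.closure (Set.range (l t)) := fun i =>
          AddSubgroup.subset_closure ⟨i, rfl⟩
        rcases hw t with h1 | ⟨p, h1⟩
        · have h1' : w t = ∑ i, l t i := h1
          rw [h1']
          exact sum_mem fun i _ => hl i
        · have h1' : w t = l t p.succ - l t 0 := h1.symm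
          rw [h1']
          exact sub_mem (hl _) (hl _)
  · push Not at hex
    have hB : ∀ s, ∃ p : Fin (m s), l s p.succ - l s 0 = w s := fun s => by
      rcases hw s with h | ⟨p, h⟩
      · exact absurd h (hex s)
      · exact ⟨p, h⟩
    choose p hp' using hB
    have e2 : w = fun s => l s (p s).succ - l s 0 := funext fun s => (hp' s).symm
    rw [e2]
    exact AddSubgroup.subset_closure (Or.inl ⟨p, rfl⟩)

end SpnYAux

open SpnYAux

theorem span_mem
    (hC : ∀ (v : Fin (k + 1) → V) (i j : Fin (k + 1)), i ≠ j → v i ∈ C → v j ∈ C → f v = 0)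
    (hs : ∑ s, ∑ i, l s i ∈ C) (hp : ParRel f C l) (K : ℕ)
    (hg : ∀ w : V, ∃ κ : ∀ s, Fin (m s + 1) → ℤ, K • w - ∑ s, ∑ i, κ s i • l s i ∈ C)
    (v : Fin (k + 1) → V) : (K ^ (k + 1) * ∏ s, (m s + 1)) • f v ∈ HY f C l := by
  classical
  set H' : AddSubgroup G := (HY f C l).comap (nsmulAddMonoidHom (∏ s, (m s + 1))) with hH'
  have hH : ∀ x : G, x ∈ H' ↔ (∏ s, (m s + 1)) • x ∈ HY f C l := fun x => Iff.rfl
  have hmain : ∀ w : Fin (k + 1) → V, (∀ i, w i ∈ {x | Sp C l x}) → f.toMultilinearMap w ∈ H' := by
    intro w hw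
    show f w ∈ H'
    by_cases hex : ∃ i, w i ∈ C
    · obtain ⟨i, hi⟩ := hex
      rw [hH]
      exact AddSubgroup.nsmul_mem _ (mem_of_C f C l hC hp w hw hi) _
    push Not at hex
    have hB : ∀ a, ∃ t i, w a = l t i := fun a => by
      rcases hw a with h | h
      · exact absurd h (hex a)
      · exact h
    choose t j hj using hB
    by_cases hinj : Injective t
    · have hσb : Bijective t := Finite.injective_iff_bijective.1 hinj
      have hj' : ∀ t' : Fin (k + 1), ∃ i : Fin (m t' + 1), ∀ a, t a = t' → w a = l t' i := by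
        intro t'
        by_cases h : ∃ a, t a = t'
        · obtain ⟨a, rfl⟩ := h
          refine ⟨j a, fun a' ha' => ?_⟩
          rw [hinj ha']
          exact hj a
        · exact ⟨0, fun a ha => absurd ⟨a, ha⟩ h⟩
      choose j' hj' using hj'
      have e : w = (fun s => l s (j' s)) ∘ Equiv.ofBijective t hσb := by
        funext a
        exact hj' (t a) a rfl
      rw [e]
      exact perm_mem f H' _ _ ((hH _).2 (smul_X_mem f C l hC hs hp j'))
    · simp only [Injective, not_forall] at hinj
      obtain ⟨a, b, hab, hne⟩ := hinj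
      have hb' : ∃ i', w b = l (t a) i' := by
        rw [hab]
        exact ⟨j b, hj b⟩
      obtain ⟨i', hi'⟩ := hb'
      rw [hH]
      exact AddSubgroup.nsmul_mem _ (mem_of_two f C l hC hp w hw hne (hj a) hi') _
  have hcl : ∀ i, (K : ℤ) • v i ∈ AddSubgroup.closure {x | Sp C l x} := by
    intro i
    obtain ⟨κ, hκ⟩ := hg (v i)
    have e : (K : ℤ) • v i = (K • v i - ∑ s, ∑ i, κ s i • l s i) +
        ∑ s, ∑ i, κ s i • l s i := by
      rw [sub_add_cancel, natCast_zsmul]
    rw [e]
    have hS : ∀ x, Sp C l x → x ∈ AddSubgroup.closure {x | Sp C l x} := fun x hx =>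
      AddSubgroup.subset_closure hx
    have h2 : ∀ s i, Sp C l (l s i) := fun s i => Or.inr ⟨s, i, rfl⟩
    exact add_mem (hS _ (Or.inl hκ)) (sum_mem fun s _ =>
      sum_mem fun i _ => AddSubgroup.zsmul_mem _ (hS _ (h2 s i)) _)
  have h := ml_closure f.toMultilinearMap (fun _ => {x | Sp C l x}) H' hmain
    (fun i => (K : ℤ) • v i) hcl
  have e : f.toMultilinearMap (fun i => (K : ℤ) • v i) = (K ^ (k + 1)) • f v := by
    have h1 := f.toMultilinearMap.map_smul_univ (fun _ => (K : ℤ)) v
    simp only [Finset.prod_const, Finset.card_univ, Fintype.card_fin] at h1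
    rw [h1, ← Nat.cast_pow, natCast_zsmul]
    rfl
  rw [e, hH, ← mul_smul, mul_comm] at h
  exact h

namespace SpnYAux

theorem zy_eq (s : Fin (k + 1)) (j : ∀ t, Fin (m t + 1)) (c : V) : ZY f l s j c =
    (-1 : ℤ) ^ (s : ℕ) • f.curryLeft c (fun b => l (s.succAbove b) (j (s.succAbove b))) := rfl

theorem zy_zero (s : Fin (k + 1)) (j : ∀ t, Fin (m t + 1)) : ZY f l s j 0 = 0 := by
  rw [zy_eq, map_zero]
  exact smul_zero _

theorem zy_add (s : Fin (k + 1)) (j : ∀ t, Fin (m t + 1)) (c c' : V) :
    ZY f l s j (c + c') = ZY f l s j c + ZY f l s j c' := by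
  rw [zy_eq, zy_eq, zy_eq, map_add, ← smul_add]
  rfl

theorem zy_neg (s : Fin (k + 1)) (j : ∀ t, Fin (m t + 1)) (c : V) :
    ZY f l s j (-c) = -ZY f l s j c := by
  have h := zy_add f l s j (-c) c
  rw [neg_add_cancel, zy_zero] at h
  exact eq_neg_of_add_eq_zero_left h.symm

end SpnYAux

theorem explicit {x : G} (hx : x ∈ HY f C l) :
    ∃ (ν : (∀ s, Fin (m s)) → ℤ) (c : Fin (k + 1) → (∀ t, Fin (m t + 1)) → V),
      (∀ s j, c s j ∈ C) ∧
      x = ∑ p, ν p • f (fun s => l s (p s).succ - l s 0) + ∑ s, ∑ j, ZY f l s j (c s j) := by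
  classical
  induction hx using AddSubgroup.closure_induction with
  | mem x hx =>
    rcases hx with ⟨p, rfl⟩ | ⟨s, j, c, hc, rfl⟩
    · refine ⟨fun p' => if p' = p then 1 else 0, fun _ _ => 0, fun _ _ => zero_mem _, ?_⟩
      simp only [zy_zero, Finset.sum_const_zero, add_zero]
      rw [Finset.sum_eq_single p]
      · rw [if_pos rfl, one_smul]
      · intro p' _ hne
        rw [if_neg hne, zero_smul]
      · intro h
        exact absurd (Finset.mem_univ _) h
    · refine ⟨fun _ => 0, fun s' j' => if s' = s ∧ j' = j then c else 0, fun s' j' => ?_, ?_⟩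
      · dsimp only
        split_ifs
        · exact hc
        · exact zero_mem _
      · simp only [zero_smul, Finset.sum_const_zero, zero_add]
        rw [Finset.sum_eq_single s, Finset.sum_eq_single j]
        · rw [if_pos ⟨rfl, rfl⟩]
        · intro j' _ hne
          rw [if_neg (fun h => hne h.2), zy_zero]
        · intro h
          exact absurd (Finset.mem_univ _) h
        · intro s' _ hne
          refine Finset.sum_eq_zero fun j' _ => ?_
          rw [if_neg (fun h => hne h.1), zy_zero]
        · intro h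
          exact absurd (Finset.mem_univ _) h
  | zero =>
    refine ⟨fun _ => 0, fun _ _ => 0, fun _ _ => zero_mem _, ?_⟩
    simp only [zy_zero, zero_smul, Finset.sum_const_zero, add_zero]
  | add x y _ _ hx hy =>
    obtain ⟨ν, c, hc, hxe⟩ := hx
    obtain ⟨ν', c', hc', hye⟩ := hy
    refine ⟨fun p => ν p + ν' p, fun s j => c s j + c' s j, fun s j => add_mem (hc s j) (hc' s j),
      ?_⟩
    rw [hxe, hye]
    simp only [zy_add, add_smul, Finset.sum_add_distrib]
    abel
  | neg x _ hx =>
    obtain ⟨ν, c, hc, hxe⟩ := hx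
    refine ⟨fun p => -ν p, fun s j => -c s j, fun s j => neg_mem (hc s j), ?_⟩
    rw [hxe]
    simp only [zy_neg, neg_smul, Finset.sum_neg_distrib]
    abel

end P4a177y
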