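import Pool.Agent.Lib.P4a177y.KilY
import Pool.Agent.Lib.P4a177y.CntY
import Pool.Agent.Lib.P4a177y.ParY
import Pool.Agent.Lib.P4a177y.RelY
import Pool.Agent.Lib.P4a177y.SpnY
import Pool.Agent.Lib.P4a177y.DetY
import Pool.Agent.Lib.P4a177x.MainX

/-!
# The unramified elements of `K_n` of a ring with the units `u_{s,i}`: general form
-/

set_option autoImplicit false

namespace P4a177y

open P4a177h Function
open P4a177x (Alt CC Tor exists_uni const_const map_tor reg_tor eq_one_of_padic ofMul_cons)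

section General

variable {d : ℕ} {m : Fin (d + 2) → ℕ} {R : Type} [CommRing R] [Algebra ℚ R]
  (u : ∀ s, Fin (m s + 1) → Rˣ)

/-- The additively written units. -/
def lR (s : Fin (d + 2)) (i : Fin (m s + 1)) : Additive Rˣ := Additive.ofMul (u s i)

/-- The assumptions: `K₀` is the field of fractions of `R`. -/
structure DataY (K : ℕ) (K₀ : Type) [Field K₀] [Algebra R K₀] : Prop where
  sum_mem : ∑ s, ∑ i, lR u s i ∈ CC R
  diff : ∀ s i i', ∃ t : ℚ, (u s i : R) - (u s i' : R) = algebraMap ℚ R t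
  gen : ∀ w : Additive Rˣ, ∃ κ : ∀ s, Fin (m s + 1) → ℤ,
    K • w - ∑ s, ∑ i, κ s i • lR u s i ∈ CC R
  flag : ∀ (s : Fin (d + 2)) (r : ∀ t, Fin (m t + 1)),
    ∃ (v : Valuation K₀ (WithZero (Multiplicative ℤ)))
      (T : ∀ (p : ℕ) [Fact p.Prime], MilnorK (d + 2) K₀ →+ ℤ),
      (∀ t : ℚˣ, v (algebraMap R K₀ (algebraMap ℚ R t)) = 1) ∧
      (∀ (p : ℕ) [Fact p.Prime] (ξ : MilnorK (d + 2) K₀), Unramified v ξ → T p ξ = 0) ∧
      ∀ (p : ℕ) [Fact p.Prime] (c : ℚˣ) (s' : Fin (d + 2)) (j : ∀ t, Fin (m t + 1)),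
        T p (map (algebraMap R K₀) (symb (Fin.cons (P4a177w.cs R c)
            (fun b => u (s'.succAbove b) (j (s'.succAbove b)))))) =
          padicValRat p (c : ℚ) * (Matrix.of fun b : Fin (d + 1) =>
            rowY m s r (s'.succAbove b) (j (s'.succAbove b))).det

variable {K : ℕ} {K₀ : Type} [Field K₀] [Algebra R K₀]

theorem par_of (h : DataY u K K₀) {G : Type} [AddCommGroup G] (S : Alt R (d + 2) G) :
    ParRel S.f (CC R) (lR u) := by
  intro s i i'
  obtain ⟨t, ht⟩ := h.diff s i i'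
  exact par S (fun v i j hij hi hj => const_const S v i j hij hi hj) (u s i) (u s i') t ht

theorem in_HY (h : DataY u K K₀) {G : Type} [AddCommGroup G]
    (π : MilnorK (d + 2) R →+ G) (S : Alt R (d + 2) G)
    (hS : ∀ a : Fin (d + 2) → Rˣ, S.f (fun k => Additive.ofMul (a k)) = π (symb a))
    (η : MilnorK (d + 2) R) :
    (K ^ (d + 2) * ∏ s, (m s + 1)) • π η ∈ HY S.f (CC R) (lR u) := by
  have h1 : ∀ a : Fin (d + 2) → Rˣ, (K ^ (d + 2) * ∏ s, (m s + 1)) • π (symb a) ∈
      HY S.f (CC R) (lR u) := by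
    intro a
    have h := span_mem S.f (CC R) (lR u)
      (fun v i j hij hi hj => const_const S v i j hij hi hj) h.sum_mem (par_of u h S)
      K h.gen (fun k => Additive.ofMul (a k))
    rw [hS] at h
    exact h
  have h2 : ∀ z : FreeAbelianGroup (Fin (d + 2) → Rˣ),
      (K ^ (d + 2) * ∏ s, (m s + 1)) • π ((QuotientAddGroup.mk' _) z) ∈
      HY S.f (CC R) (lR u) := by
    intro z
    induction z using FreeAbelianGroup.induction_on with
    | zero =>
      rw [map_zero, map_zero, smul_zero]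
      exact zero_mem _
    | of a => exact h1 a
    | neg a ih =>
      rw [map_neg, map_neg, smul_neg]
      exact neg_mem (h1 a)
    | add x y hx hy =>
      rw [map_add, map_add, smul_add]
      exact add_mem hx hy
  induction η using QuotientAddGroup.induction_on with
  | H z => exact h2 z

/-- The entries `-g` and `g` give the same value in a torsion free group. -/
theorem neg_entry {n : ℕ} {G : Type*} [AddCommGroup G]
    (S : Alt R n G) (v : Fin n → Additive Rˣ) (i : Fin n) :
    S.f (update v i (v i + Additive.ofMul (-1))) = S.f v := by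
  have h : S.f (update v i (Additive.ofMul (-1))) = 0 := by
    refine S.tf 2 _ (by norm_num) ?_
    have h1 := S.f.map_update_add v i (Additive.ofMul (-1)) (Additive.ofMul (-1))
    have h2 : (Additive.ofMul (-1) : Additive Rˣ) + Additive.ofMul (-1) = 0 := by
      rw [← ofMul_mul]
      simp
    rw [h2, S.f.map_update_zero] at h1
    rw [two_nsmul]
    exact h1.symm
  rw [S.f.map_update_add, h, update_eq_self, add_zero]

theorem neg_all {n : ℕ} {G : Type*} [AddCommGroup G]
    (S : Alt R n G) (v : Fin n → Additive Rˣ) (T : Finset (Fin n)) :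
    S.f (fun i => if i ∈ T then v i + Additive.ofMul (-1) else v i) = S.f v := by
  classical
  induction T using Finset.induction_on with
  | empty => simp
  | insert a T ha ih =>
    rw [← ih]
    have h := neg_entry S (fun i => if i ∈ T then v i + Additive.ofMul (-1) else v i) a
    rw [← h]
    congr 1
    funext i
    by_cases hi : i = a
    · subst hi
      rw [update_self, if_pos (Finset.mem_insert_self _ _), if_neg ha]
    · rw [update_of_ne hi]
      simp only [Finset.mem_insert, hi, false_or]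

theorem xiY {G : Type*} [AddCommGroup G] (S : Alt R (d + 2) G) (p : ∀ s, Fin (m s)) :
    S.f (fun s => Additive.ofMul (-(u s (p s).succ / u s 0))) =
      S.f (fun s => lR u s (p s).succ - lR u s 0) := by
  have h := neg_all S (fun s => lR u s (p s).succ - lR u s 0) Finset.univ
  rw [← h]
  congr 1
  funext s
  rw [if_pos (Finset.mem_univ s)]
  unfold lR
  rw [← ofMul_div, ← ofMul_mul]
  congr 1
  apply Units.ext
  rw [Units.val_neg, Units.val_mul, Units.val_neg, Units.val_one]
  ring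

/-! ### The symbols with one constant entry -/

/-- The constants as an additive homomorphism. -/
noncomputable def csA (R : Type) [CommRing R] [Algebra ℚ R] : Additive ℚˣ →+ Additive Rˣ :=
  MonoidHom.toAdditive (P4a177w.cs R)

theorem csA_mem (R : Type) [CommRing R] [Algebra ℚ R] (e : Additive ℚˣ) : csA R e ∈ CC R :=
  ⟨e, rfl⟩

/-- `ZY` as an additive function of the constant. -/
noncomputable def ZA {G : Type} [AddCommGroup G] (S : Alt R (d + 2) G)
    (s : Fin (d + 2)) (j : ∀ t, Fin (m t + 1)) : Additive ℚˣ →+ G where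
  toFun e := ZY S.f (lR u) s j (csA R e)
  map_zero' := by rw [map_zero, ZY_zero]
  map_add' e e' := by rw [map_add, ZY_add]

/-- The element with the constant entries `q s j`. -/
noncomputable def zeta (q : Fin (d + 2) → (∀ t, Fin (m t + 1)) → ℚˣ) : MilnorK (d + 2) R :=
  ∑ s : Fin (d + 2), ∑ j : (∀ t, Fin (m t + 1)), (-1 : ℤ) ^ (s : ℕ) •
    symb (Fin.cons (P4a177w.cs R (q s j)) (fun b => u (s.succAbove b) (j (s.succAbove b))))

theorem map_zeta {G : Type} [AddCommGroup G] (π : MilnorK (d + 2) R →+ G)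
    (S : Alt R (d + 2) G)
    (hS : ∀ a : Fin (d + 2) → Rˣ, S.f (fun k => Additive.ofMul (a k)) = π (symb a))
    (q : Fin (d + 2) → (∀ t, Fin (m t + 1)) → ℚˣ) :
    π (zeta u q) = ∑ s, ∑ j, ZY S.f (lR u) s j (Additive.ofMul (P4a177w.cs R (q s j))) := by
  unfold zeta
  rw [map_sum]
  refine Finset.sum_congr rfl fun s _ => ?_
  rw [map_sum]
  refine Finset.sum_congr rfl fun j _ => ?_
  rw [map_zsmul, ← hS, ofMul_cons]
  rfl

/-- The order of a product of constants. -/
noncomputable def ordA (p : ℕ) [Fact p.Prime] : Additive ℚˣ →+ ℤ :=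
  AddMonoidHom.mk' (fun a => padicValRat p (a.toMul : ℚ)) fun a b => by
    show padicValRat p ((a.toMul * b.toMul : ℚˣ) : ℚ) = _
    rw [Units.val_mul, padicValRat.mul (Units.ne_zero _) (Units.ne_zero _)]

theorem hcY (h : DataY u K K₀)
    (q : Fin (d + 2) → (∀ t, Fin (m t + 1)) → ℚˣ)
    (hq : ∀ (v : Valuation K₀ (WithZero (Multiplicative ℤ))) (T : MilnorK (d + 2) K₀ →+ ℤ),
      (∀ t : ℚˣ, v (algebraMap R K₀ (algebraMap ℚ R t)) = 1) →
      (∀ ξ : MilnorK (d + 2) K₀, Unramified v ξ → T ξ = 0) →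
      T (map (algebraMap R K₀) (zeta u q)) = 0)
    (s : Fin (d + 2)) (r : ∀ t, Fin (m t + 1)) :
    2 • ∑ i, ∑ s', ∑ i', Additive.ofMul (q s' (update (update r s i) s' i')) = 0 := by
  obtain ⟨e, he⟩ : ∃ e : Additive ℚˣ,
    e = ∑ i, ∑ s', ∑ i', Additive.ofMul (q s' (update (update r s i) s' i')) := ⟨_, rfl⟩
  rw [← he]
  have h1 : e.toMul = 1 ∨ e.toMul = -1 := by
    apply eq_one_of_padic
    intro p hp
    obtain ⟨v, T, h1, h2, h3⟩ := h.flag s r
    obtain ⟨ε, hε, h4⟩ := det_rowY m s r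
    have h5 := hq v (T p) h1 (fun ξ hξ => h2 p ξ hξ)
    have h6 : ordA p e = 0 := by
      have h7 : ordA p e = ∑ s', ∑ j, padicValRat p (q s' j : ℚ) *
          ((if s' = s then (m s : ℤ) + 1 else 1) *
            (if ∀ t, t ≠ s → t ≠ s' → j t = r t then 1 else 0)) := by
        rw [← reindex m (fun s' j => padicValRat p (q s' j : ℚ)) s r, he]
        simp only [map_sum]
        rfl
      have h8 : ε * ordA p e = T p (map (algebraMap R K₀) (zeta u q)) := by
        rw [h7]
        unfold zeta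
        simp only [map_sum, map_zsmul, h3, Finset.mul_sum, smul_eq_mul]
        refine Finset.sum_congr rfl fun s' _ => Finset.sum_congr rfl fun j _ => ?_
        have h9 := h4 s' j
        linear_combination (-padicValRat p (q s' j : ℚ)) * h9
      rw [h5] at h8
      exact (mul_eq_zero.1 h8).resolve_left hε
    exact h6
  have h2 : 2 • e = Additive.ofMul (e.toMul ^ 2) := by
    rw [ofMul_pow, ofMul_toMul]
  rw [h2]
  rcases h1 with h | h <;> rw [h] <;> simp

theorem zeta_mem (h : DataY u K K₀) {G : Type} [AddCommGroup G]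
    (π : MilnorK (d + 2) R →+ G) (S : Alt R (d + 2) G)
    (hS : ∀ a : Fin (d + 2) → Rˣ, S.f (fun k => Additive.ofMul (a k)) = π (symb a))
    (q : Fin (d + 2) → (∀ t, Fin (m t + 1)) → ℚˣ)
    (hq : ∀ (v : Valuation K₀ (WithZero (Multiplicative ℤ))) (T : MilnorK (d + 2) K₀ →+ ℤ),
      (∀ t : ℚˣ, v (algebraMap R K₀ (algebraMap ℚ R t)) = 1) →
      (∀ ξ : MilnorK (d + 2) K₀, Unramified v ξ → T ξ = 0) →
      T (map (algebraMap R K₀) (zeta u q)) = 0) :
    π (zeta u q) = 0 := by
  rw [map_zeta u π S hS]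
  refine kill_tuple m S.tf (ZA u S) (fun s j i => ?_) (fun s s' hss j e => ?_)
    (fun s j => Additive.ofMul (q s j)) (hcY u h q hq)
  · ext e
    exact ZY_ind S.f (lR u) s j i (csA R e)
  · exact exch S.f (CC R) (lR u)
      (fun v i j hij hi hj => const_const S v i j hij hi hj) h.sum_mem (par_of u h S) s s' hss j
      (csA R e) (csA_mem _ e)

theorem spans_aux (h : DataY u K K₀) {G : Type} [AddCommGroup G]
    (π : MilnorK (d + 2) R →+ G) (S : Alt R (d + 2) G)
    (hS : ∀ a : Fin (d + 2) → Rˣ, S.f (fun k => Additive.ofMul (a k)) = π (symb a))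
    (hmem : ∀ x, π x = 0 → x ∈ Tor (d + 2) R)
    (ξ : (∀ s, Fin (m s)) → MilnorK (d + 2) R)
    (hξ : ∀ p, ξ p = symb (fun s => -(u s (p s).succ / u s 0)))
    (hξu : ∀ p (v : Valuation K₀ (WithZero (Multiplicative ℤ))),
      (∀ t : ℚˣ, v (algebraMap R K₀ (algebraMap ℚ R t)) = 1) →
        Unramified v (map (algebraMap R K₀) (ξ p)))
    (η : MilnorK (d + 2) R)
    (hη : ∀ (v : Valuation K₀ (WithZero (Multiplicative ℤ))),
      (∀ t : ℚˣ, v (algebraMap R K₀ (algebraMap ℚ R t)) = 1) →
        Unramified v (map (algebraMap R K₀) η)) :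
    ∃ c : (∀ s, Fin (m s)) → ℤ, (K ^ (d + 2) * ∏ s, (m s + 1)) • η - ∑ p, c p • ξ p ∈
      Tor (d + 2) R := by
  obtain ⟨ν, c, hc, h1⟩ := explicit S.f (CC R) (lR u) (in_HY u h π S hS η)
  choose q hq using hc
  have h2 : ∑ s, ∑ j, ZY S.f (lR u) s j (c s j) = π (zeta u fun s j => (q s j).toMul) := by
    rw [map_zeta u π S hS]
    refine Finset.sum_congr rfl fun s _ => Finset.sum_congr rfl fun j _ => ?_
    have h : Additive.ofMul (P4a177w.cs R (q s j).toMul) = c s j := hq s j
    rw [h]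
  have h3 : ∀ p, S.f (fun s => lR u s (p s).succ - lR u s 0) = π (ξ p) :=
    fun p => by
      rw [← xiY, hξ]
      exact hS _
  rw [h2, Finset.sum_congr rfl fun p _ => by rw [h3 p]] at h1
  have h4 : π ((K ^ (d + 2) * ∏ s, (m s + 1)) • η - ∑ p, ν p • ξ p -
      zeta u fun s j => (q s j).toMul) = 0 := by
    rw [map_sub, map_sub, map_nsmul, map_sum, h1]
    simp only [map_zsmul]
    abel
  have h5 := hmem _ h4
  have h6 : π (zeta u fun s j => (q s j).toMul) = 0 := by
    refine zeta_mem u h π S hS _ ?_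
    intro v T hv hT
    exact P4a177x.T_zero (map (algebraMap R K₀)) T η _ ν ξ _ (hT _ (hη v hv))
      (fun p => hT _ (hξu p v hv)) (map_tor (algebraMap R K₀) h5)
  refine ⟨ν, hmem _ ?_⟩
  rw [map_sub, h6, sub_zero] at h4
  exact h4

theorem spans_gen (h : DataY u K K₀)
    (ξ : (∀ s, Fin (m s)) → MilnorK (d + 2) R)
    (hξ : ∀ p, ξ p = symb (fun s => -(u s (p s).succ / u s 0)))
    (hξu : ∀ p (v : Valuation K₀ (WithZero (Multiplicative ℤ))),
      (∀ t : ℚˣ, v (algebraMap R K₀ (algebraMap ℚ R t)) = 1) →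
        Unramified v (map (algebraMap R K₀) (ξ p)))
    (η : MilnorK (d + 2) R)
    (hη : ∀ (v : Valuation K₀ (WithZero (Multiplicative ℤ))),
      (∀ t : ℚˣ, v (algebraMap R K₀ (algebraMap ℚ R t)) = 1) →
        Unramified v (map (algebraMap R K₀) η)) :
    ∃ c : (∀ s, Fin (m s)) → ℤ, (K ^ (d + 2) * ∏ s, (m s + 1)) • η - ∑ p, c p • ξ p ∈
      Tor (d + 2) R := by
  obtain ⟨S, hS⟩ := exists_uni (d + 2) R
  exact spans_aux u h (QuotientAddGroup.mk' (Tor (d + 2) R)) S hS
    (fun x hx => (QuotientAddGroup.eq_zero_iff x).1 hx) ξ hξ hξu η hη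

end General

end P4a177y
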