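import Pool.Agent.Lib.P4a177y.DefY

/-!
# MODULE P4a177y.HenY: a root of a monic equation over `L[[z]]` (Hensel's lemma)

PROOF. `L[[z]]` is Henselian (see `P4a177w.CuspWAux.exists_root` in `Lib/P4a177w/CuspW.lean` and `P4a177x.HenXAux.exists_root` in `Lib/P4a177x/HenX.lean` for the way to apply it). The polynomial
`P(T) = ∏ j, (T - a_j z) - G⁻¹` over `L[[z]]` is monic of degree `M + 1`; modulo `z` it is `T ^ (M + 1) - 1`, with the simple root `1` (the derivative is `M + 1 ≠ 0` in `L`). So there is a root
`y` with the constant coefficient `1`.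
-/

set_option autoImplicit false

namespace P4a177y

namespace HenYAux

open Polynomial in
/-- Hensel's lemma for the equation `∏ (T - a_j z) = H`, where `H` has the constant
coefficient `1`. -/
theorem exists_root {L : Type} [Field L] [CharZero L] (M : ℕ) (a : Fin (M + 1) → L)
    (H : PowerSeries L) (hH : PowerSeries.constantCoeff H = 1) :
    ∃ y : PowerSeries L, PowerSeries.constantCoeff y = 1 ∧
      ∏ j, (y - PowerSeries.C (a j) * PowerSeries.X) = H := by
  classical
  set I : Ideal (PowerSeries L) := Ideal.span {PowerSeries.X} with hI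
  have hHen : HenselianRing (PowerSeries L) I := inferInstance
  set p : (PowerSeries L)[X] := ∏ j : Fin (M + 1),
    (X - C (PowerSeries.C (a j) * PowerSeries.X)) with hp
  have hpm : p.Monic := monic_prod_of_monic _ _ fun j _ => monic_X_sub_C _
  have hpd : p.natDegree = M + 1 := by
    rw [hp, natDegree_prod_of_monic _ _ fun j _ => monic_X_sub_C _,
      Finset.sum_congr rfl fun j _ => natDegree_X_sub_C _]
    simp
  have hm : (p - C H).Monic := by
    refine hpm.sub_of_left (lt_of_le_of_lt degree_C_le ?_)
    rw [degree_eq_natDegree hpm.ne_zero, hpd]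
    exact_mod_cast Nat.succ_pos M
  have hmap : (p - C H).map (PowerSeries.constantCoeff (R := L)) = X ^ (M + 1) - 1 := by
    have h1 : ∀ j ∈ (Finset.univ : Finset (Fin (M + 1))),
        (X - C (PowerSeries.C (a j) * PowerSeries.X) : (PowerSeries L)[X]).map
          (PowerSeries.constantCoeff (R := L)) = X := by
      intro j _
      simp
    rw [Polynomial.map_sub, map_C, hH, hp, Polynomial.map_prod, Finset.prod_congr rfl h1,
      Finset.prod_const, Finset.card_univ, Fintype.card_fin, C_1]
  have hev : ∀ (P : (PowerSeries L)[X]) (r : L), PowerSeries.constantCoeff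
      (P.eval (PowerSeries.C r)) = (P.map (PowerSeries.constantCoeff (R := L))).eval r := by
    intro P r
    rw [eval_map]
    have h1 := Polynomial.eval₂_at_apply (p := P) (PowerSeries.constantCoeff (R := L))
      (PowerSeries.C r)
    rw [PowerSeries.constantCoeff_C] at h1
    exact h1.symm
  have h0 : (p - C H).eval (PowerSeries.C 1) ∈ I := by
    rw [hI, Ideal.mem_span_singleton, PowerSeries.X_dvd_iff, hev, hmap]
    simp
  have h2 : IsUnit ((p - C H).derivative.eval (PowerSeries.C 1)) := by
    rw [PowerSeries.isUnit_iff_constantCoeff, hev, ← Polynomial.derivative_map, hmap,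
      derivative_sub, derivative_X_pow, derivative_one, sub_zero, eval_mul, eval_pow, eval_X,
      one_pow, mul_one, eval_C]
    exact IsUnit.mk0 _ (Nat.cast_ne_zero.2 (Nat.succ_ne_zero M))
  obtain ⟨y, hy1, hy2⟩ := hHen.is_henselian _ hm (PowerSeries.C 1) h0
    (h2.map (Ideal.Quotient.mk I))
  refine ⟨y, ?_, ?_⟩
  · rw [hI, Ideal.mem_span_singleton, PowerSeries.X_dvd_iff, map_sub, PowerSeries.constantCoeff_C,
      sub_eq_zero] at hy2
    exact hy2
  · have h3 : (p - C H).eval y = 0 := hy1
    rw [eval_sub, eval_C, hp, eval_prod, sub_eq_zero] at h3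
    rw [← h3]
    refine Finset.prod_congr rfl fun j _ => ?_
    simp only [eval_sub, eval_X, eval_C]

end HenYAux

theorem exists_rootY (L : Type) [Field L] [CharZero L] (M : ℕ) (a : Fin (M + 1) → L)
    (G : PowerSeries L) (hG : PowerSeries.constantCoeff G = 1) :
    ∃ y : PowerSeries L, PowerSeries.constantCoeff y = 1 ∧
      (∏ j, (y - PowerSeries.C (a j) * PowerSeries.X)) * G = 1 := by
  have hG' : PowerSeries.constantCoeff G ≠ 0 := by
    rw [hG]
    exact one_ne_zero
  obtain ⟨y, hy, hy2⟩ := HenYAux.exists_root M a G⁻¹ (by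
    rw [PowerSeries.constantCoeff_inv, hG, inv_one])
  refine ⟨y, hy, ?_⟩
  rw [hy2, PowerSeries.inv_mul_cancel G hG']

end P4a177y
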