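import Pool.Agent.Lib.P4a177y.OrdK

/-!
# MODULE P4a177y.InfK: functions without poles at the cusps over `x = ∞` (Vandermonde)

The homomorphisms of the cusps agree on the polynomials in `x`; the values of the coefficients `G k`
are computed from the values at the `q + 1` cusps with an invertible Vandermonde matrix over the ring
of power series, so they are power series, and `G k` is constant.
-/

set_option autoImplicit false

namespace P4a177y

open Polynomial P4a177h P4a177u WithZero

variable {𝕜 : Type} [Field 𝕜]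

variable {R : Type} [CommRing R] [Algebra 𝕜 R] {x y : R} {q : ℕ} {b : Fin (q + 1) → 𝕜}

namespace InfKAux

/-- The homomorphism with `X ↦ z⁻¹`. -/
noncomputable def gam : 𝕜[X] →+* LaurentSeries 𝕜 :=
  eval₂RingHom (HahnSeries.C : 𝕜 →+* LaurentSeries 𝕜) (HahnSeries.single (-1 : ℤ) 1)

theorem gam_coeff (P : 𝕜[X]) (m : ℕ) : (gam P).coeff (-(m : ℤ)) = P.coeff m := by
  induction P using Polynomial.induction_on' with
  | add p q hp hq => rw [map_add, HahnSeries.coeff_add, hp, hq, coeff_add]
  | monomial i c =>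
    have h1 : gam (monomial i c) = HahnSeries.single (-(i : ℤ)) c := by
      unfold gam
      rw [coe_eval₂RingHom, eval₂_monomial, HahnSeries.single_pow, one_pow, HahnSeries.C_apply,
        HahnSeries.single_mul_single]
      simp
    rw [h1, coeff_monomial]
    by_cases h : i = m
    · rw [if_pos h, h, HahnSeries.coeff_single_same]
    · rw [if_neg h, HahnSeries.coeff_single_of_ne]
      intro h2
      exact h (by omega)

theorem cusp_gam {a₀ : 𝕜} {n : ℕ} (D : Cusp R y x a₀ n) (P : 𝕜[X]) :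
    D.φ (aeval x P) = gam P := by
  have h : D.φ.comp ((aeval x : 𝕜[X] →ₐ[𝕜] R) : 𝕜[X] →+* R) = gam := by
    refine Polynomial.ringHom_ext (fun t => ?_) ?_
    · unfold gam
      rw [RingHom.comp_apply, RingHom.coe_coe, aeval_C, D.φ_const, coe_eval₂RingHom, eval₂_C]
    · unfold gam
      rw [RingHom.comp_apply, RingHom.coe_coe, aeval_X, D.hy, coe_eval₂RingHom, eval₂_X]
  exact DFunLike.congr_fun h P

theorem const_F {a₀ : 𝕜} {n : ℕ} (hn : 0 < n) (D : Cusp R y x a₀ n) :
    PowerSeries.constantCoeff D.F = a₀ := by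
  rw [D.hF, map_add, map_mul, map_pow, PowerSeries.constantCoeff_C, PowerSeries.constantCoeff_X,
    zero_pow hn.ne', zero_mul, add_zero]

end InfKAux

open InfKAux

theorem infinity (hb : Function.Injective b) {n : ℕ} (hn : 0 < n) (E : ∀ j, Cusp R y x (b j) n)
    (G : Fin (q + 1) → 𝕜[X])
    (hr : ∀ j, vL ((E j).φ (∑ k : Fin (q + 1), aeval x (G k) * y ^ (k : ℕ))) ≤ 1)
    (k : Fin (q + 1)) : ∃ t : 𝕜, G k = C t := by
  have hs : ∀ j, ∃ F : PowerSeries 𝕜, ∑ k : Fin (q + 1),
      gam (G k) * ((E j).F : LaurentSeries 𝕜) ^ (k : ℕ) = (F : LaurentSeries 𝕜) := by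
    intro j
    obtain ⟨F, hF⟩ := exists_coe _ (hr j)
    refine ⟨F, ?_⟩
    rw [← hF, map_sum]
    refine Finset.sum_congr rfl fun k _ => ?_
    rw [map_mul, map_pow, cusp_gam, (E j).hx]
  choose s hs using hs
  obtain ⟨V, hVd⟩ : ∃ V : Matrix (Fin (q + 1)) (Fin (q + 1)) (PowerSeries 𝕜),
    V = Matrix.vandermonde fun j => (E j).F := ⟨_, rfl⟩
  have hV : IsUnit V.det := by
    rw [PowerSeries.isUnit_iff_constantCoeff, isUnit_iff_ne_zero, hVd, Matrix.det_vandermonde,
      map_prod, Finset.prod_ne_zero_iff]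
    intro i _
    rw [map_prod, Finset.prod_ne_zero_iff]
    intro j hj
    rw [map_sub, const_F hn, const_F hn, sub_ne_zero]
    intro h
    exact absurd (hb h) (ne_of_gt (Finset.mem_Ioi.1 hj))
  have hinv : V⁻¹ * V = 1 := Matrix.nonsing_inv_mul V hV
  have hg : gam (G k) = ((∑ j, V⁻¹ k j * s j : PowerSeries 𝕜) : LaurentSeries 𝕜) := by
    have h1 : ((∑ j, V⁻¹ k j * s j : PowerSeries 𝕜) : LaurentSeries 𝕜) =
        ∑ j, ((V⁻¹ k j : PowerSeries 𝕜) : LaurentSeries 𝕜) *
          ∑ k' : Fin (q + 1), gam (G k') * ((V j k' : PowerSeries 𝕜) : LaurentSeries 𝕜) := by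
      rw [map_sum]
      refine Finset.sum_congr rfl fun j _ => ?_
      rw [map_mul, ← hs j]
      congr 1
      refine Finset.sum_congr rfl fun k' _ => ?_
      rw [hVd, Matrix.vandermonde_apply, map_pow]
    rw [h1]
    simp only [Finset.mul_sum]
    rw [Finset.sum_comm]
    have h2 : ∀ k' : Fin (q + 1), ∑ j, ((V⁻¹ k j : PowerSeries 𝕜) : LaurentSeries 𝕜) *
        (gam (G k') * ((V j k' : PowerSeries 𝕜) : LaurentSeries 𝕜)) =
        gam (G k') * (((V⁻¹ * V) k k' : PowerSeries 𝕜) : LaurentSeries 𝕜) := by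
      intro k'
      rw [Matrix.mul_apply, map_sum, Finset.mul_sum]
      refine Finset.sum_congr rfl fun j _ => ?_
      rw [map_mul]
      ring
    rw [Finset.sum_congr rfl fun k' _ => h2 k', hinv]
    rw [Finset.sum_eq_single k]
    · rw [Matrix.one_apply_eq, map_one, mul_one]
    · intro k' _ hk'
      rw [Matrix.one_apply_ne hk'.symm, map_zero, mul_zero]
    · intro h
      exact absurd (Finset.mem_univ k) h
  have hdeg : (G k).natDegree = 0 := by
    by_contra hm
    have h1 := gam_coeff (G k) (G k).natDegree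
    rw [hg, PowerSeries.coeff_coe, if_pos (by omega)] at h1
    have h2 : (G k).leadingCoeff = 0 := h1.symm
    rw [leadingCoeff_eq_zero] at h2
    rw [h2, natDegree_zero] at hm
    exact hm rfl
  exact ⟨(G k).coeff 0, eq_C_of_natDegree_eq_zero hdeg⟩

end P4a177y
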