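import Pool.Agent.Lib.P4a177y.DefY

/-!
# MODULE P4a177y.InjY: injectivity of the expansion of the functions

PROOF (compare `Lib/P4a177x/InjX.lean`, proved). `R = A.CoordRing N` is a domain (`hdom`). Let `s₀ = s.succAbove 0` and let `B` be the image of `MvPolynomial (Fin (d + 1)) ℚ` in `R` under
`X a ↦ x_{s₀.succAbove a}` (all the coordinate functions but `x_{s₀}`). (1) `R` is algebraic over `B`: it is generated over it by `t = x_{s₀}`, which satisfies
`N * ∏_{t ≠ s₀} f_t(x_t) * ∏ i, (t - a_{s₀,i}) - 1 = 0`, a nonzero polynomial in `t` with coefficients in `B`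
(leading coefficient `N * ∏_{t ≠ s₀} f_t(x_t)`, a unit of `R`, so not `0`). (2) If `r ≠ 0` in `R`, then `r * r' = b` for some `b ∈ B`, `b ≠ 0` (minimal polynomial relation of `r` over `B`, the constant term
is not `0` as `R` is a domain; `IsAlgebraic.exists_nonzero_dvd` or similar). (3) `φ b ≠ 0` for `b = H(x_t, t ≠ s₀) ≠ 0`: the variables are `x_s` and the `x_{s.succAbove b.succ}`, `b : Fin d`; write `H` as a
polynomial in `x_s` with coefficients `H_i`, polynomials in `d` variables, `H_e ≠ 0` the leading one. `φ (H_i (..)) = HahnSeries.C (eval₂ ι (fun b => ι (a b) + z b) H_i)`, and the value for `H_e` is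
`≠ 0` by `hz` (substitute `X b ↦ X b + a b`, an automorphism of the polynomial ring). `φ (x_s) ^ i = single (-i) 1 * y ^ i`. So `single e 1 * φ b` is (the image of) a power series with the
constant coefficient `eval₂ .. H_e * 1 ≠ 0`, so `φ b ≠ 0` and `φ r ≠ 0`.
-/

set_option autoImplicit false

namespace P4a177y

open P4a177h P4a177x Function MvPolynomial

namespace InjYAux

lemma alg_inj {S R K : Type*} [CommRing S] [IsDomain S] [CommRing R] [IsDomain R] [Algebra S R]
    [Field K] (φ : R →+* K) (halg : ∀ r : R, IsAlgebraic S r)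
    (h : ∀ s : S, s ≠ 0 → φ (algebraMap S R s) ≠ 0) : Injective φ := by
  rw [injective_iff_map_eq_zero]
  intro x hx
  by_contra hne
  refine Ideal.comap_ne_bot_of_algebraic_mem (I := RingHom.ker φ) hne
    ((RingHom.mem_ker).2 hx) (halg x) ?_
  rw [eq_bot_iff]
  intro s hs
  rw [Ideal.mem_comap, RingHom.mem_ker] at hs
  by_contra hs0
  exact h s hs0 hs

lemma X_mul_single {L : Type*} [Field L] :
    ((PowerSeries.X : PowerSeries L) : LaurentSeries L) * HahnSeries.single (-1 : ℤ) (1 : L) =
      1 := by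
  rw [HahnSeries.ofPowerSeries_X, HahnSeries.single_mul_single]
  simp

/-- a polynomial in `T⁻¹ y` whose leading coefficient does not vanish is not zero -/
lemma poly_ne_zero {S L : Type*} [CommRing S] [Field L] (f : S →+* L) (P : Polynomial S)
    (hP : f P.leadingCoeff ≠ 0) (y : PowerSeries L) (hy : PowerSeries.constantCoeff y = 1) :
    Polynomial.eval₂ ((HahnSeries.C : L →+* LaurentSeries L).comp f)
      (HahnSeries.single (-1 : ℤ) 1 * (y : LaurentSeries L)) P ≠ 0 := by
  intro h0
  set w : LaurentSeries L := HahnSeries.single (-1 : ℤ) 1 * (y : LaurentSeries L) with hw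
  set n := P.natDegree with hn
  have hXw : ((PowerSeries.X : PowerSeries L) : LaurentSeries L) * w = (y : LaurentSeries L) := by
    rw [hw, ← mul_assoc, X_mul_single, one_mul]
  set Q : PowerSeries L := ∑ i ∈ Finset.range (n + 1),
    PowerSeries.C (f (P.coeff i)) * PowerSeries.X ^ (n - i) * y ^ i with hQ
  have h1 : (Q : LaurentSeries L) = ((PowerSeries.X : PowerSeries L) : LaurentSeries L) ^ n *
      Polynomial.eval₂ ((HahnSeries.C : L →+* LaurentSeries L).comp f) w P := by
    rw [Polynomial.eval₂_eq_sum_range, Finset.mul_sum, hQ, map_sum]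
    refine Finset.sum_congr rfl fun i hi => ?_
    rw [Finset.mem_range] at hi
    rw [map_mul, map_mul, map_pow, map_pow, HahnSeries.ofPowerSeries_C, ← hXw, mul_pow,
      RingHom.comp_apply]
    have h2 : ((PowerSeries.X : PowerSeries L) : LaurentSeries L) ^ n =
        ((PowerSeries.X : PowerSeries L) : LaurentSeries L) ^ (n - i) *
          ((PowerSeries.X : PowerSeries L) : LaurentSeries L) ^ i := by
      rw [← pow_add]
      congr 1
      omega
    rw [h2]
    ring
  rw [h0, mul_zero] at h1
  have h3 : Q = 0 := by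
    apply HahnSeries.ofPowerSeries_injective (Γ := ℤ) (R := L)
    rw [map_zero]
    exact h1
  have h4 := congrArg PowerSeries.constantCoeff h3
  rw [map_zero, hQ, map_sum, Finset.sum_range_succ, Finset.sum_eq_zero, zero_add] at h4
  · simp only [Nat.sub_self, pow_zero, mul_one, map_mul, map_pow, hy, one_pow,
      PowerSeries.constantCoeff_C] at h4
    exact hP h4
  · intro i hi
    rw [Finset.mem_range] at hi
    have h5 : n - i ≠ 0 := by omega
    rw [map_mul, map_mul, map_pow, PowerSeries.constantCoeff_X, zero_pow h5, mul_zero, zero_mul]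

/-- translation of the variables -/
lemma shift_ne_zero {d : ℕ} {L : Type*} [Field L] (ι : ℚ →+* L) (z : Fin d → L) (a : Fin d → ℚ)
    (hz : ∀ H : MvPolynomial (Fin d) ℚ, H ≠ 0 → eval₂ ι z H ≠ 0)
    (H : MvPolynomial (Fin d) ℚ) (hH : H ≠ 0) :
    eval₂ ι (fun b => ι (a b) + z b) H ≠ 0 := by
  set τ : MvPolynomial (Fin d) ℚ →ₐ[ℚ] MvPolynomial (Fin d) ℚ :=
    aeval (fun b => C (a b) + X b) with hτ
  set σ : MvPolynomial (Fin d) ℚ →ₐ[ℚ] MvPolynomial (Fin d) ℚ :=
    aeval (fun b => X b - C (a b)) with hσ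
  have hστ : ∀ G, σ (τ G) = G := by
    intro G
    have h : σ.comp τ = AlgHom.id ℚ _ := by
      apply MvPolynomial.algHom_ext
      intro b
      simp [hτ, hσ]
    exact DFunLike.congr_fun h G
  have h1 : τ H ≠ 0 := by
    intro h
    apply hH
    rw [← hστ H, h, map_zero]
  have h2 : eval₂ ι z (τ H) = eval₂ ι (fun b => ι (a b) + z b) H := by
    have h : (eval₂Hom ι z).comp τ.toRingHom = eval₂Hom ι (fun b => ι (a b) + z b) := by
      apply MvPolynomial.ringHom_ext
      · intro c
        simp [hτ]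
      · intro b
        simp [hτ]
    exact RingHom.congr_fun h H
  rw [← h2]
  exact hz _ h1

end InjYAux

open InjYAux in
theorem injY {d : ℕ} (A : Fam d) (N : ℕ) (hN : 1 ≤ N) (hdom : IsDomain (A.CoordRing N))
    (s : Fin (d + 2)) {L : Type} [Field L] (ι : ℚ →+* L) (z : Fin d → L) (a : Fin d → ℚ)
    (hz : ∀ H : MvPolynomial (Fin d) ℚ, H ≠ 0 → eval₂ ι z H ≠ 0)
    (φ : A.CoordRing N →+* LaurentSeries L) (y : PowerSeries L)
    (hy : PowerSeries.constantCoeff y = 1)
    (h1 : φ (Ideal.Quotient.mk _ (X s)) = HahnSeries.single (-1 : ℤ) 1 * (y : LaurentSeries L))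
    (h2 : ∀ b : Fin d, φ (Ideal.Quotient.mk _ (X (s.succAbove b.succ))) =
      HahnSeries.C (ι (a b) + z b)) :
    Injective φ := by
  classical
  set R := A.CoordRing N with hR
  set x : Fin (d + 2) → R := fun t => Ideal.Quotient.mk _ (X t) with hx
  -- the coordinate functions but `x_{s₀}`
  set g : Fin (d + 1) → Fin (d + 2) := Fin.cons s (fun b => s.succAbove b.succ) with hg
  have hg0 : g 0 = s := rfl
  have hgs : ∀ b : Fin d, g b.succ = s.succAbove b.succ := fun b => rfl
  let ψ : MvPolynomial (Fin (d + 1)) ℚ →ₐ[ℚ] R := aeval (fun i => x (g i))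
  have hψX : ∀ i, ψ (X i) = x (g i) := fun i => aeval_X (R := ℚ) (fun i => x (g i)) i
  letI alg : Algebra (MvPolynomial (Fin (d + 1)) ℚ) R := ψ.toRingHom.toAlgebra
  have hmap : ∀ H, algebraMap (MvPolynomial (Fin (d + 1)) ℚ) R H = ψ H := fun _ => rfl
  set 𝔸 := Subalgebra.algebraicClosure (MvPolynomial (Fin (d + 1)) ℚ) R with h𝔸
  have hrat : ∀ c : ℚ, algebraMap ℚ R c ∈ 𝔸 := by
    intro c
    have h1 : algebraMap ℚ R c = algebraMap (MvPolynomial (Fin (d + 1)) ℚ) R (C c) := by
      rw [hmap]
      exact (ψ.commutes c).symm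
    rw [h1]
    exact 𝔸.algebraMap_mem _
  have hxg : ∀ i, x (g i) ∈ 𝔸 := by
    intro i
    have h1 : x (g i) = algebraMap (MvPolynomial (Fin (d + 1)) ℚ) R (X i) := by
      rw [hmap, hψX]
    rw [h1]
    exact 𝔸.algebraMap_mem _
  -- the equation
  have hlin : ∀ (t : Fin (d + 2)) (i : Fin (A.m t + 1)),
      (Ideal.Quotient.mk (Ideal.span {A.eqn N}) (X t - C (A.a t i : ℚ)) : R) =
        x t - algebraMap ℚ R (A.a t i : ℚ) := by
    intro t i
    rw [map_sub]
    rfl
  have heqn : (N : R) * ∏ t, ∏ i, (x t - algebraMap ℚ R (A.a t i : ℚ)) = 1 := by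
    have h3 : Ideal.Quotient.mk (Ideal.span {A.eqn N}) (A.eqn N) = 0 := by
      rw [Ideal.Quotient.eq_zero_iff_mem]
      exact Ideal.mem_span_singleton_self _
    have h4 : A.eqn N = (N : MvPolynomial (Fin (d + 2)) ℚ) *
      ∏ s, ∏ i, (MvPolynomial.X s - MvPolynomial.C (A.a s i : ℚ)) - 1 := rfl
    have h5 : Ideal.Quotient.mk (Ideal.span {A.eqn N}) ((N : MvPolynomial (Fin (d + 2)) ℚ) *
      ∏ s, ∏ i, (MvPolynomial.X s - MvPolynomial.C (A.a s i : ℚ)) - 1) = 0 :=
      (congrArg _ h4).symm.trans h3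
    rw [map_sub, map_one, sub_eq_zero, map_mul, map_natCast, map_prod] at h5
    refine Eq.trans ?_ h5
    congr 1
    refine Finset.prod_congr rfl fun t _ => ?_
    rw [map_prod]
    refine Finset.prod_congr rfl fun i _ => ?_
    exact (hlin t i).symm
  -- `x_{s₀}` is algebraic
  have htalg : x (s.succAbove 0) ∈ 𝔸 := by
    set c : MvPolynomial (Fin (d + 1)) ℚ :=
      (N : MvPolynomial (Fin (d + 1)) ℚ) *
        ∏ j, ∏ i, (X j - C (A.a (g j) i : ℚ)) with hc
    set p : Polynomial (MvPolynomial (Fin (d + 1)) ℚ) := Polynomial.C c *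
      ∏ i, (Polynomial.X - Polynomial.C (C (A.a (s.succAbove 0) i : ℚ))) - 1 with hp
    refine ⟨p, ?_, ?_⟩
    · intro h
      have h3 := congrArg (Polynomial.eval (C (A.a (s.succAbove 0) 0 : ℚ))) h
      rw [hp, Polynomial.eval_sub, Polynomial.eval_mul, Polynomial.eval_prod,
        Finset.prod_eq_zero (Finset.mem_univ 0)] at h3
      · simp at h3
      · simp
    · set F : Fin (d + 2) → R := fun t => ∏ i, (x t - algebraMap ℚ R (A.a t i : ℚ)) with hF
      have h5 : (N : R) * (F s * (F (s.succAbove 0) * ∏ b : Fin d, F (s.succAbove b.succ))) =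
          1 := by
        rw [← heqn, Fin.prod_univ_succAbove _ s,
          Fin.prod_univ_succ (fun i => ∏ j, (x (s.succAbove i) -
            algebraMap ℚ R (A.a (s.succAbove i) j : ℚ)))]
      rw [hp, map_sub, map_mul, map_prod, map_one, Polynomial.aeval_C, sub_eq_zero, ← h5]
      have h3 : ∀ i, Polynomial.aeval (x (s.succAbove 0))
          (Polynomial.X - Polynomial.C (C (A.a (s.succAbove 0) i : ℚ)) :
            Polynomial (MvPolynomial (Fin (d + 1)) ℚ)) =
          x (s.succAbove 0) - algebraMap ℚ R (A.a (s.succAbove 0) i : ℚ) := by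
        intro i
        rw [map_sub, Polynomial.aeval_X, Polynomial.aeval_C, hmap]
        congr 1
        exact ψ.commutes _
      have h4 : algebraMap (MvPolynomial (Fin (d + 1)) ℚ) R c =
          (N : R) * (F s * ∏ b : Fin d, F (s.succAbove b.succ)) := by
        have h6 := Fin.prod_univ_succ (fun j => F (g j))
        rw [hg0] at h6
        simp only [hgs] at h6
        rw [← h6, hmap, hc, map_mul, map_natCast, map_prod]
        congr 1
        refine Finset.prod_congr rfl fun j _ => ?_
        rw [map_prod]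
        refine Finset.prod_congr rfl fun i _ => ?_
        rw [map_sub, hψX]
        congr 1
        exact ψ.commutes _
      rw [Finset.prod_congr rfl fun i _ => h3 i, h4]
      change (N : R) * (F s * ∏ b : Fin d, F (s.succAbove b.succ)) * F (s.succAbove 0) = _
      ring
  -- all coordinates are algebraic
  have hxalg : ∀ j, x j ∈ 𝔸 := by
    intro j
    by_cases hj : j = s
    · rw [hj, ← hg0]
      exact hxg 0
    · obtain ⟨i, rfl⟩ := Fin.exists_succAbove_eq hj
      refine Fin.cases ?_ (fun b => ?_) i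
      · exact htalg
      · rw [← hgs]
        exact hxg _
  have hall : ∀ r : R, r ∈ 𝔸 := by
    intro r
    obtain ⟨G, rfl⟩ := Ideal.Quotient.mk_surjective r
    induction G using MvPolynomial.induction_on with
    | C c => exact hrat c
    | add p q hp hq =>
      rw [map_add]
      exact 𝔸.add_mem hp hq
    | mul_X p j hp =>
      rw [map_mul]
      exact 𝔸.mul_mem hp (hxalg j)
  -- injectivity on the small ring
  refine alg_inj φ hall ?_
  intro H hH
  rw [hmap]
  have h3 : φ.comp ψ.toRingHom = (Polynomial.eval₂RingHom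
      ((HahnSeries.C : L →+* LaurentSeries L).comp (eval₂Hom ι (fun b => ι (a b) + z b)))
      (HahnSeries.single (-1 : ℤ) 1 * (y : LaurentSeries L))).comp
        (finSuccEquiv ℚ d : MvPolynomial (Fin (d + 1)) ℚ →+* _) := by
    apply MvPolynomial.ringHom_ext
    · intro c
      have h4 : ∀ u v : ℚ →+* LaurentSeries L, u = v := fun u v => Subsingleton.elim u v
      exact RingHom.congr_fun (h4 ((φ.comp ψ.toRingHom).comp C) (((Polynomial.eval₂RingHom
        ((HahnSeries.C : L →+* LaurentSeries L).comp (eval₂Hom ι (fun b => ι (a b) + z b)))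
        (HahnSeries.single (-1 : ℤ) 1 * (y : LaurentSeries L))).comp
          (finSuccEquiv ℚ d : MvPolynomial (Fin (d + 1)) ℚ →+* _)).comp C)) c
    · intro i
      refine Fin.cases ?_ (fun b => ?_) i
      · have h5 : (φ.comp ψ.toRingHom) (X 0) = φ (x s) := congrArg φ (hψX 0)
        rw [h5, RingHom.comp_apply]
        simp only [RingHom.coe_coe, finSuccEquiv_X_zero, Polynomial.coe_eval₂RingHom,
          Polynomial.eval₂_X]
        exact h1
      · have h5 : (φ.comp ψ.toRingHom) (X b.succ) = φ (x (s.succAbove b.succ)) :=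
          congrArg φ (hψX b.succ)
        rw [h5, RingHom.comp_apply]
        simp only [RingHom.coe_coe, finSuccEquiv_X_succ, Polynomial.coe_eval₂RingHom,
          Polynomial.eval₂_C, RingHom.comp_apply, coe_eval₂Hom, eval₂_X]
        exact h2 b
  have h4 : φ (ψ H) = Polynomial.eval₂
      ((HahnSeries.C : L →+* LaurentSeries L).comp (eval₂Hom ι (fun b => ι (a b) + z b)))
      (HahnSeries.single (-1 : ℤ) 1 * (y : LaurentSeries L)) (finSuccEquiv ℚ d H) :=
    RingHom.congr_fun h3 H
  rw [h4]
  refine poly_ne_zero _ _ ?_ y hy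
  refine shift_ne_zero ι z a hz _ ?_
  rw [Polynomial.leadingCoeff_ne_zero]
  exact (map_ne_zero_iff _ (finSuccEquiv ℚ d).injective).2 hH

end P4a177y
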