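import Pool.Agent.Lib.P4a177y.DefY

/-!
# A combination of the `Z_s` with vanishing line sums is zero

`exists_phi`: an additive map `Φ` on the functions on tuples which is a multiple of `𝒵_s / M_s` on the
functions which do not depend on the coordinate `s`.
-/

set_option autoImplicit false

namespace P4a177y

open Function

section Kill

variable {n : ℕ} {m : Fin n → ℕ} {E G : Type*} [AddCommGroup E] [AddCommGroup G]

/-- sum over a line -/
def Pop (t : Fin n) : ((∀ s, Fin (m s + 1)) → E) →+ ((∀ s, Fin (m s + 1)) → E) where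
  toFun g j := ∑ i, g (update j t i)
  map_zero' := by
    funext j
    simp
  map_add' f g := by
    funext j
    simp [Finset.sum_add_distrib]

lemma Pop_apply (t : Fin n) (g : (∀ s, Fin (m s + 1)) → E) (j : ∀ s, Fin (m s + 1)) :
    Pop t g j = ∑ i, g (update j t i) := rfl

/-- the pairing with `Z s` -/
def ZZ (Z : Fin n → (∀ s, Fin (m s + 1)) → E →+ G) (s : Fin n) :
    ((∀ s, Fin (m s + 1)) → E) →+ G where
  toFun g := ∑ j, Z s j (g j)
  map_zero' := by simp
  map_add' f g := by simp [Finset.sum_add_distrib]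

lemma ZZ_apply (Z : Fin n → (∀ s, Fin (m s + 1)) → E →+ G) (s : Fin n)
    (g : (∀ s, Fin (m s + 1)) → E) : ZZ Z s g = ∑ j, Z s j (g j) := rfl

lemma swap_upd (t : Fin n) (F : (∀ s, Fin (m s + 1)) → (∀ s, Fin (m s + 1)) → G) :
    ∑ j, ∑ i, F j (update j t i) = ∑ j, ∑ i, F (update j t i) j := by
  rw [← Fintype.sum_prod_type' (f := fun (j : ∀ s, Fin (m s + 1)) i => F j (update j t i)),
    ← Fintype.sum_prod_type' (f := fun (j : ∀ s, Fin (m s + 1)) i => F (update j t i) j)]
  let e : (∀ s, Fin (m s + 1)) × Fin (m t + 1) ≃ (∀ s, Fin (m s + 1)) × Fin (m t + 1) :=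
    { toFun := fun x => (update x.1 t x.2, x.1 t)
      invFun := fun x => (update x.1 t x.2, x.1 t)
      left_inv := fun x => by simp
      right_inv := fun x => by simp }
  refine Fintype.sum_equiv e _ _ fun x => ?_
  show F x.1 (update x.1 t x.2) = F (update (update x.1 t x.2) t (x.1 t)) (update x.1 t x.2)
  simp

lemma sum_upd (t : Fin n) (h : (∀ s, Fin (m s + 1)) → G) :
    ∑ j, ∑ i, h (update j t i) = (m t + 1) • ∑ j, h j := by
  rw [swap_upd t (fun _ j' => h j')]
  simp only [Finset.sum_const, Finset.card_univ, Fintype.card_fin]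
  rw [Finset.smul_sum]

/-- `g` does not depend on the coordinate `s` -/
def NoDep {A : Type*} (s : Fin n) (g : (∀ s, Fin (m s + 1)) → A) : Prop :=
  ∀ j i, g (update j s i) = g j

lemma ZZ_Pop (Z : Fin n → (∀ s, Fin (m s + 1)) → E →+ G)
    (hind : ∀ s j i, Z s (update j s i) = Z s j) (s : Fin n) (g : (∀ s, Fin (m s + 1)) → E) :
    ZZ Z s (Pop s g) = (m s + 1) • ZZ Z s g := by
  rw [ZZ_apply, ZZ_apply, ← sum_upd s (fun j => Z s j (g j))]
  refine Finset.sum_congr rfl fun j _ => ?_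
  rw [Pop_apply, map_sum]
  refine Finset.sum_congr rfl fun i _ => ?_
  rw [hind]

lemma ZZ_Pop' (Z : Fin n → (∀ s, Fin (m s + 1)) → E →+ G)
    (hrel : ∀ s s', s ≠ s' → ∀ (j : ∀ s, Fin (m s + 1)) (e : E),
      ∑ i, Z s' (update j s i) e = ∑ i, Z s (update j s' i) e)
    (s t : Fin n) (hst : s ≠ t) (g : (∀ s, Fin (m s + 1)) → E) (hg : NoDep s g) :
    ZZ Z s (Pop t g) = (m s + 1) • ZZ Z t g := by
  rw [ZZ_apply, ZZ_apply, ← sum_upd s (fun j => Z t j (g j))]
  have h1 : ∑ j, Z s j (Pop t g j) = ∑ j, ∑ i, Z s j (g (update j t i)) :=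
    Finset.sum_congr rfl fun j _ => by rw [Pop_apply, map_sum]
  rw [h1, swap_upd t (fun j j' => Z s j (g j'))]
  refine Finset.sum_congr rfl fun j _ => ?_
  rw [hrel t s hst.symm j (g j)]
  refine Finset.sum_congr rfl fun i _ => ?_
  rw [hg]

lemma NoDep.Pop {s : Fin n} {g : (∀ s, Fin (m s + 1)) → E} (hg : NoDep s g) :
    P4a177y.Pop s g = (m s + 1) • g := by
  funext j
  rw [Pop_apply, Finset.sum_congr rfl fun i _ => hg j i, Finset.sum_const, Finset.card_univ,
    Fintype.card_fin]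
  rfl

lemma noDep_Pop (s : Fin n) (g : (∀ s, Fin (m s + 1)) → E) : NoDep s (Pop s g) := by
  intro j i
  rw [Pop_apply, Pop_apply]
  refine Finset.sum_congr rfl fun k _ => ?_
  rw [update_idem]

lemma NoDep.Pop_other {s t : Fin n} (hst : s ≠ t) {g : (∀ s, Fin (m s + 1)) → E}
    (hg : NoDep s g) : NoDep s (P4a177y.Pop t g) := by
  intro j i
  rw [Pop_apply, Pop_apply]
  refine Finset.sum_congr rfl fun k _ => ?_
  rw [update_comm hst, hg]

lemma exists_phi (tf : ∀ (k : ℕ) (x : G), 0 < k → k • x = 0 → x = 0)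
    (Z : Fin n → (∀ s, Fin (m s + 1)) → E →+ G)
    (hind : ∀ s j i, Z s (update j s i) = Z s j)
    (hrel : ∀ s s', s ≠ s' → ∀ (j : ∀ s, Fin (m s + 1)) (e : E),
      ∑ i, Z s' (update j s i) e = ∑ i, Z s (update j s' i) e) (S : Finset (Fin n)) :
    ∃ (N : ℕ) (Φ : ((∀ s, Fin (m s + 1)) → E) →+ G), 0 < N ∧
      (∀ s ∈ S, ∀ g, NoDep s g → (m s + 1) • Φ g = N • ZZ Z s g) ∧
      ∀ g, (∀ s ∈ S, 2 • Pop s g = 0) → Φ g = 0 := by
  classical
  induction S using Finset.induction_on with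
  | empty => exact ⟨1, 0, one_pos, fun s hs => by simp at hs, fun g _ => rfl⟩
  | insert t S ht ih =>
    obtain ⟨N, Φ, hN, h1, h2⟩ := ih
    refine ⟨(m t + 1) * N, (m t + 1) • Φ - Φ.comp (Pop t) + N • ZZ Z t, by positivity, ?_, ?_⟩
    · intro s hs g hg
      have e0 : ((m t + 1) • Φ - Φ.comp (Pop t) + N • ZZ Z t) g =
          (m t + 1) • Φ g - Φ (Pop t g) + N • ZZ Z t g := rfl
      rw [e0]
      rcases eq_or_ne s t with rfl | hst
      · rw [hg.Pop, map_nsmul, sub_self, zero_add, mul_smul]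
      · have hsS : s ∈ S := by
          rcases Finset.mem_insert.1 hs with h | h
          · exact absurd h hst
          · exact h
        have a1 := h1 s hsS g hg
        have a2 := h1 s hsS (Pop t g) (hg.Pop_other hst)
        have a3 := ZZ_Pop' Z hrel s t hst g hg
        rw [smul_add, smul_sub, smul_comm (m s + 1) (m t + 1), a1, a2, a3,
          smul_comm (m s + 1) N, sub_add_cancel, mul_smul]
    · intro g hg
      have e0 : ((m t + 1) • Φ - Φ.comp (Pop t) + N • ZZ Z t) g =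
          (m t + 1) • Φ g - Φ (Pop t g) + N • ZZ Z t g := rfl
      rw [e0, h2 g fun s hs => hg s (Finset.mem_insert_of_mem hs), smul_zero, zero_sub]
      have b1 : 2 • Pop t g = 0 := hg t (Finset.mem_insert_self t S)
      have b2 : Φ (Pop t g) = 0 := by
        refine tf 2 _ two_pos ?_
        rw [← map_nsmul, b1, map_zero]
      have b3 : ZZ Z t g = 0 := by
        refine tf (2 * (m t + 1)) _ (by positivity) ?_
        rw [mul_smul, ← ZZ_Pop Z hind, ← map_nsmul, b1, map_zero]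
      rw [b2, b3, smul_zero, neg_zero, add_zero]

end Kill

theorem kill_tuple {n : ℕ} (m : Fin n → ℕ) {E G : Type*} [AddCommGroup E] [AddCommGroup G]
    (tf : ∀ (k : ℕ) (x : G), 0 < k → k • x = 0 → x = 0)
    (Z : Fin n → (∀ s, Fin (m s + 1)) → E →+ G)
    (hind : ∀ s j i, Z s (update j s i) = Z s j)
    (hrel : ∀ s s', s ≠ s' → ∀ (j : ∀ s, Fin (m s + 1)) (e : E),
      ∑ i, Z s' (update j s i) e = ∑ i, Z s (update j s' i) e)
    (c : Fin n → (∀ s, Fin (m s + 1)) → E)
    (hc : ∀ (s : Fin n) (q : ∀ s, Fin (m s + 1)),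
      2 • ∑ i, ∑ s', ∑ i', c s' (update (update q s i) s' i') = 0) :
    ∑ s, ∑ j, Z s j (c s j) = 0 := by
  obtain ⟨N, Φ, hN, h1, h2⟩ := exists_phi tf Z hind hrel Finset.univ
  have hw : Φ (∑ s, Pop s (c s)) = 0 := by
    refine h2 _ fun s _ => ?_
    funext q
    refine Eq.trans ?_ (hc s q)
    show 2 • (∑ i, (∑ s', Pop s' (c s')) (update q s i)) = _
    congr 1
    refine Finset.sum_congr rfl fun i _ => ?_
    rw [Finset.sum_apply]
    rfl
  have h3 : ∀ s, Φ (Pop s (c s)) = N • ∑ j, Z s j (c s j) := by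
    intro s
    have h4 := h1 s (Finset.mem_univ s) (Pop s (c s)) (noDep_Pop s (c s))
    rw [ZZ_Pop Z hind, smul_comm N] at h4
    have h5 : (m s + 1) • (Φ (Pop s (c s)) - N • ∑ j, Z s j (c s j)) = 0 := by
      rw [smul_sub, h4, ← ZZ_apply, sub_self]
    exact sub_eq_zero.1 (tf _ _ (by positivity) h5)
  rw [map_sum, Finset.sum_congr rfl fun s _ => h3 s, ← Finset.smul_sum] at hw
  exact tf N _ hN hw

end P4a177y
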