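import Pool.Agent.Lib.P4a177y.HenY
import Pool.Agent.Lib.P4a177y.InjY
import Pool.Agent.Lib.P4a177x.LauX

/-!
# MODULE P4a177y.PlcY: existence of the places

PROOF (helper72's choice of the point, no roots of constants are needed). Let `s₀ = s.succAbove 0`, `s_b = s.succAbove b.succ` (`b : Fin d`), `M = A.m s + 1`. Take `L, Λ, z` from `P4a177x.exists_flag d`.
In `LaurentSeries L` (`T = single 1 1` the variable): `x_{s_b} = HahnSeries.C (a_{s_b,q} + z_b)`, `x_{s₀} = a_{s₀,q} + h T ^ M`, `x_s = T⁻¹ y` with the constant `h = (N γ β)⁻¹ ∈ L`,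
`γ = ∏ i ≠ q s₀, (a_{s₀,q} - a_{s₀,i})` (nonzero integer), `β = ∏ b, ∏ i, (a_{s_b,q} - a_{s_b,i} + z_b) ∈ Lˣ` (each factor is `z_b` for `i = q`, and a unit of order `0` for `i ≠ q` by the second property of
`exists_flag`). The equation `N ∏ ∏ (x_t - a_{t,i}) = 1` becomes `(∏ j, (y - a_{s,j} T)) * G = 1` with `G = ∏ i ≠ q s₀, (1 + h T ^ M / (a_{s₀,q} - a_{s₀,i}))`, constant coefficient `1`
(`T ^ M * T⁻¹ ^ M = 1`): `exists_rootY` gives `y` with constant coefficient `1`. So `Ideal.Quotient.lift` of `MvPolynomial.eval₂Hom κ x` gives `φ` (compare `Lib/P4a177w/FamW.lean`, field `univ`, and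
`Lib/P4a177x/PlcX.lean`). The units (`φ (A.linU N t i) = x_t - a_{t,i}`): `t = s`: `T⁻¹ * (y - a T)`, `u = 1`; `t = s₀`, `i = q`: `T ^ M * C h`, `u = h`, `Λ.o h = -Λ.o β = -∑ b, Pi.single b 1` (rational numbers have order `0`:
`Λ.rat`); `t = s₀`, `i ≠ q`: `u = a_{s₀,q} - a_{s₀,i}`, order `0`; `t = s_b`, `i = q`: `C z_b`, `u = z_b`, order `Pi.single b 1`; `t = s_b`, `i ≠ q`: `u = a_q - a_i + z_b`, order `0`. These are
the values of `rowY` (in the coordinate `a.succ`: `s.succAbove a.succ = s_b` iff `a = b`). `inj`: `injY` with `ι = Λ.ι` (the integers `a_{s_b,q}` as rational numbers).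
-/

set_option autoImplicit false

namespace P4a177y

open P4a177h P4a177x Function MvPolynomial

namespace PlcYAux

/-- a point of the hypersurface gives a homomorphism -/
lemma exists_hom {d : ℕ} (A : Fam d) (N : ℕ) {K : Type} [Field K] (κ : ℚ →+* K)
    (x : Fin (d + 2) → K)
    (he : (N : K) * ∏ t, ∏ i, (x t - κ (A.a t i : ℚ)) = 1) :
    ∃ φ : A.CoordRing N →+* K, (∀ t, φ (Ideal.Quotient.mk _ (X t)) = x t) ∧
      ∀ t i, φ (A.linU N t i : A.CoordRing N) = x t - κ (A.a t i : ℚ) := by
  have h0 : MvPolynomial.eval₂Hom κ x (A.eqn N) = 0 := by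
    unfold Fam.eqn
    rw [map_sub, map_one, map_mul, map_natCast, map_prod, sub_eq_zero, ← he]
    congr 1
    refine Finset.prod_congr rfl fun t _ => ?_
    rw [map_prod]
    refine Finset.prod_congr rfl fun i _ => ?_
    rw [map_sub, eval₂Hom_X', eval₂Hom_C]
  have h1 : ∀ r ∈ Ideal.span {A.eqn N}, MvPolynomial.eval₂Hom κ x r = 0 := by
    intro r hr
    rw [Ideal.mem_span_singleton] at hr
    obtain ⟨r', rfl⟩ := hr
    rw [map_mul, h0, zero_mul]
  refine ⟨Ideal.Quotient.lift _ (eval₂Hom κ x) h1, fun t => ?_, fun t i => ?_⟩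
  · rw [Ideal.Quotient.lift_mk, eval₂Hom_X']
  · rw [A.linU_val]
    show Ideal.Quotient.lift _ (eval₂Hom κ x) h1 (Ideal.Quotient.mk _ _) = _
    rw [Ideal.Quotient.lift_mk, map_sub, eval₂Hom_X', eval₂Hom_C]

/-- the product over the coordinates -/
lemma prod_coord {d : ℕ} {K : Type} [CommRing K] (s : Fin (d + 2)) (f : Fin (d + 2) → K) :
    ∏ t, f t = f s * (f (s.succAbove 0) * ∏ b : Fin d, f (s.succAbove b.succ)) := by
  rw [Fin.prod_univ_succAbove f s, Fin.prod_univ_succ]

end PlcYAux

open PlcYAux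

theorem exists_placeY {d : ℕ} (A : Fam d) (N : ℕ) (hN : 1 ≤ N) (hdom : IsDomain (A.CoordRing N))
    (s : Fin (d + 2)) (q : ∀ t, Fin (A.m t + 1)) : Nonempty (YPlace A N s q) := by
  classical
  obtain ⟨L, hL, hC, Λ, z, hz, hgen, hind⟩ := exists_flag d
  set M := A.m s with hM
  -- the units at the coordinates `s_b`
  have hw' : ∀ (b : Fin d) (i : Fin (A.m (s.succAbove b.succ) + 1)), ∃ w : Lˣ,
      (w : L) = Λ.ι ((A.a _ (q (s.succAbove b.succ)) : ℤ) : ℚ) + z b -
        Λ.ι ((A.a _ i : ℤ) : ℚ) ∧
      Λ.o (Additive.ofMul w) = if i = q (s.succAbove b.succ) then Pi.single b 1 else 0 := by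
    intro b i
    by_cases hi : i = q (s.succAbove b.succ)
    · subst hi
      refine ⟨z b, ?_, ?_⟩
      · ring
      · rw [if_pos rfl, (hz b).1]
    · have hne : ((A.a _ (q (s.succAbove b.succ)) : ℤ) : ℚ) - ((A.a _ i : ℤ) : ℚ) ≠ 0 := by
        rw [sub_ne_zero]
        intro h
        exact hi ((A.inj _ (Int.cast_injective h)).symm)
      obtain ⟨u, hu1, hu2, -⟩ := hgen (Units.mk0 _ hne) (Pi.single b 1)
      refine ⟨u, ?_, ?_⟩
      · rw [hu1, Units.val_mk0, Finset.sum_eq_single b, Pi.single_eq_same, map_one, one_mul,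
          map_sub]
        · ring
        · intro a _ hab
          rw [Pi.single_eq_of_ne hab, map_zero, zero_mul]
        · intro h
          exact absurd (Finset.mem_univ b) h
      · rw [hu2, if_neg hi]
  choose w hw1 hw2 using hw'
  -- the units at the coordinate `s₀`
  have hg' : ∀ i : Fin (A.m (s.succAbove 0) + 1), ∃ g : ℚˣ,
      (i = q (s.succAbove 0) → g = 1) ∧ (i ≠ q (s.succAbove 0) → (g : ℚ) =
        ((A.a _ (q (s.succAbove 0)) : ℤ) : ℚ) - ((A.a _ i : ℤ) : ℚ)) := by
    intro i
    by_cases hi : i = q (s.succAbove 0)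
    · exact ⟨1, fun _ => rfl, fun h => absurd hi h⟩
    · have hne : ((A.a _ (q (s.succAbove 0)) : ℤ) : ℚ) - ((A.a _ i : ℤ) : ℚ) ≠ 0 := by
        rw [sub_ne_zero]
        intro h
        exact hi ((A.inj _ (Int.cast_injective h)).symm)
      exact ⟨Units.mk0 _ hne, fun h => absurd h hi, fun _ => rfl⟩
  choose g hg1 hg2 using hg'
  have hNQ : (N : ℚ) ≠ 0 := by
    have : N ≠ 0 := by omega
    exact_mod_cast this
  set c : ℚˣ := Units.mk0 (N : ℚ) hNQ * ∏ i, g i with hc
  set β : Lˣ := ∏ b, ∏ i, w b i with hβ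
  set h : Lˣ := (Units.map (Λ.ι : ℚ →* L) c * β)⁻¹ with hh
  have hho : Λ.o (Additive.ofMul h) = fun _ => -1 := by
    rw [hh, ofMul_inv, map_neg, ofMul_mul, map_add, (Λ.rat c).1, zero_add, hβ, ofMul_prod,
      map_sum]
    funext a
    rw [Pi.neg_apply, Finset.sum_apply, Finset.sum_eq_single a]
    · rw [ofMul_prod, map_sum, Finset.sum_apply, Finset.sum_eq_single (q (s.succAbove a.succ))]
      · rw [hw2, if_pos rfl, Pi.single_eq_same]
      · intro i _ hi
        rw [hw2, if_neg hi]
        rfl
      · intro h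
        exact absurd (Finset.mem_univ _) h
    · intro b _ hab
      rw [ofMul_prod, map_sum, Finset.sum_apply]
      refine Finset.sum_eq_zero fun i _ => ?_
      rw [hw2]
      split_ifs
      · rw [Pi.single_eq_of_ne hab.symm]
      · rfl
    · intro h
      exact absurd (Finset.mem_univ _) h
  have hhv : Λ.ι (N : ℚ) * (∏ i, Λ.ι (g i : ℚ)) * (β : L) * (h : L) = 1 := by
    have h1 : (Units.map (Λ.ι : ℚ →* L) c * β) * h = 1 := by
      rw [hh, mul_inv_cancel]
    have h2 := congrArg (Units.val) h1
    rw [Units.val_mul, Units.val_mul, Units.val_one] at h2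
    rw [← h2, hc]
    congr 2
    show _ = Λ.ι _
    rw [Units.val_mul, map_mul, Units.coe_prod, map_prod]
    rfl
  -- the power series
  set G : Fin (A.m (s.succAbove 0) + 1) → PowerSeries L := fun i =>
    if i = q (s.succAbove 0) then 1 else
      1 + PowerSeries.C ((h : L) * (Λ.ι (g i : ℚ))⁻¹) * PowerSeries.X ^ (M + 1) with hG
  have hG0 : PowerSeries.constantCoeff (∏ i, G i) = 1 := by
    rw [map_prod]
    refine Finset.prod_eq_one fun i _ => ?_
    rw [hG]
    dsimp only
    split_ifs
    · rw [map_one]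
    · rw [map_add, map_one, map_mul, map_pow, PowerSeries.constantCoeff_X, zero_pow (by omega),
        mul_zero, add_zero]
  obtain ⟨y, hy, hy2⟩ := exists_rootY L M (fun j => ((A.a s j : ℤ) : L)) (∏ i, G i) hG0
  -- the point
  set κ : ℚ →+* LaurentSeries L := (HahnSeries.C : L →+* LaurentSeries L).comp Λ.ι with hκ
  have hκv : ∀ r : ℚ, κ r = ((PowerSeries.C (Λ.ι r) : PowerSeries L) : LaurentSeries L) := by
    intro r
    rw [HahnSeries.ofPowerSeries_C]
    rfl
  set Ti : LaurentSeries L := HahnSeries.single (-1 : ℤ) (1 : L) with hTi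
  have hXT : ((PowerSeries.X : PowerSeries L) : LaurentSeries L) * Ti = 1 :=
    InjYAux.X_mul_single
  have hXp : ((PowerSeries.X ^ (M + 1) : PowerSeries L) : LaurentSeries L) =
      HahnSeries.single ((M : ℤ) + 1) (1 : L) := by
    rw [HahnSeries.ofPowerSeries_X_pow]
    push_cast
    rfl
  set P0 : PowerSeries L := PowerSeries.C (Λ.ι ((A.a _ (q (s.succAbove 0)) : ℤ) : ℚ)) +
    PowerSeries.C (h : L) * PowerSeries.X ^ (M + 1) with hP0
  set x : Fin (d + 2) → LaurentSeries L := s.insertNth (α := fun _ => LaurentSeries L)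
    (Ti * (y : LaurentSeries L)) (Fin.cons (α := fun _ => LaurentSeries L) (P0 : LaurentSeries L)
      (fun b : Fin d => HahnSeries.C (Λ.ι ((A.a _ (q (s.succAbove b.succ)) : ℤ) : ℚ) + z b)))
    with hx
  have hx1 : x s = Ti * (y : LaurentSeries L) := by
    rw [hx, Fin.insertNth_apply_same]
  have hx2 : x (s.succAbove 0) = (P0 : LaurentSeries L) := by
    rw [hx, Fin.insertNth_apply_succAbove, Fin.cons_zero]
  have hx3 : ∀ b : Fin d, x (s.succAbove b.succ) =
      HahnSeries.C (Λ.ι ((A.a _ (q (s.succAbove b.succ)) : ℤ) : ℚ) + z b) := by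
    intro b
    rw [hx, Fin.insertNth_apply_succAbove, Fin.cons_succ]
  -- the values of the linear functions
  have hv1 : ∀ j, x s - κ ((A.a s j : ℤ) : ℚ) =
      Ti * ((y - PowerSeries.C ((A.a s j : ℤ) : L) * PowerSeries.X : PowerSeries L) :
        LaurentSeries L) := by
    intro j
    rw [hx1, hκv, map_intCast, map_sub, map_mul, mul_sub]
    congr 1
    rw [mul_left_comm, mul_comm Ti, hXT, mul_one]
  have hv2 : ∀ i, x (s.succAbove 0) - κ ((A.a _ i : ℤ) : ℚ) =
      (((if i = q (s.succAbove 0) then PowerSeries.C (h : L) * PowerSeries.X ^ (M + 1) else 1) *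
        PowerSeries.C (Λ.ι (g i : ℚ)) * G i : PowerSeries L) : LaurentSeries L) := by
    intro i
    rw [hx2, hκv, ← map_sub]
    congr 1
    rw [hP0, hG]
    dsimp only
    by_cases hi : i = q (s.succAbove 0)
    · rw [if_pos hi, if_pos hi, hg1 i hi, Units.val_one, map_one, map_one, mul_one, mul_one, hi]
      ring
    · rw [if_neg hi, if_neg hi, one_mul, mul_add, mul_one, ← mul_assoc, ← map_mul]
      have e1 : Λ.ι (g i : ℚ) * ((h : L) * (Λ.ι (g i : ℚ))⁻¹) = h := by
        have : Λ.ι (g i : ℚ) ≠ 0 := by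
          rw [Ne, map_eq_zero]
          exact (g i).ne_zero
        field_simp
      rw [e1, hg2 i hi, map_sub, map_sub]
      ring
  have hv3 : ∀ b i, x (s.succAbove b.succ) - κ ((A.a _ i : ℤ) : ℚ) =
      (HahnSeries.C (w b i : L) : LaurentSeries L) := by
    intro b i
    rw [hx3, hκ, RingHom.comp_apply, ← map_sub, hw1]
  have he : (N : LaurentSeries L) * ∏ t, ∏ i, (x t - κ ((A.a t i : ℤ) : ℚ)) = 1 := by
    rw [prod_coord s]
    rw [Finset.prod_congr rfl fun j _ => hv1 j, Finset.prod_congr rfl fun i _ => hv2 i,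
      Finset.prod_congr rfl fun b _ => Finset.prod_congr rfl fun i _ => hv3 b i]
    rw [Finset.prod_mul_distrib, Finset.prod_const, Finset.card_univ, Fintype.card_fin,
      ← map_prod, ← map_prod, Finset.prod_mul_distrib, Finset.prod_mul_distrib,
      Finset.prod_ite_eq' Finset.univ (q (s.succAbove 0)), if_pos (Finset.mem_univ _)]
    have e1 : ∏ b, ∏ i, (HahnSeries.C (w b i : L) : LaurentSeries L) = HahnSeries.C (β : L) := by
      rw [hβ, Units.coe_prod, map_prod]
      refine Finset.prod_congr rfl fun b _ => ?_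
      rw [Units.coe_prod, map_prod]
    have e2 : (N : LaurentSeries L) = HahnSeries.C (Λ.ι (N : ℚ)) := by
      rw [map_natCast, map_natCast]
    have e3 : ∏ i, PowerSeries.C (Λ.ι (g i : ℚ)) = PowerSeries.C (∏ i, Λ.ι (g i : ℚ)) := by
      rw [map_prod]
    rw [e1, e2, e3]
    simp only [map_mul, HahnSeries.ofPowerSeries_C]
    have e4 := congrArg (fun f : PowerSeries L => (f : LaurentSeries L)) hy2
    simp only [map_mul, map_one] at e4
    have e5 := congrArg (fun r : L => (HahnSeries.C r : LaurentSeries L)) hhv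
    simp only [map_mul, map_one] at e5
    have e6 : Ti ^ (M + 1) * ((PowerSeries.X ^ (M + 1) : PowerSeries L) : LaurentSeries L) = 1 := by
      rw [map_pow, ← mul_pow, mul_comm, hXT, one_pow]
    have e7 : Ti ^ (A.m s + 1) * ((PowerSeries.X ^ (M + 1) : PowerSeries L) :
      LaurentSeries L) = 1 := e6
    calc _ = (HahnSeries.C (Λ.ι (N : ℚ)) * HahnSeries.C (∏ i, Λ.ι (g i : ℚ)) *
          HahnSeries.C (β : L) * HahnSeries.C (h : L)) *
          (Ti ^ (A.m s + 1) * ((PowerSeries.X ^ (M + 1) : PowerSeries L) : LaurentSeries L)) *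
          (((∏ j, (y - PowerSeries.C ((A.a s j : ℤ) : L) * PowerSeries.X) : PowerSeries L) :
            LaurentSeries L) * ((∏ i, G i : PowerSeries L) : LaurentSeries L)) := by ring
      _ = 1 := by rw [e5, e7, e4, one_mul, one_mul]
  obtain ⟨φ, hφ, hφu⟩ := exists_hom A N κ x he
  have hU : ∀ t (i : Fin (A.m t + 1)), ∃ (U : PowerSeries L) (u : Lˣ),
      PowerSeries.constantCoeff U = u ∧
      φ (A.linU N t i : A.CoordRing N) =
        HahnSeries.single (rowY A.m s q t i 0) 1 * (U : LaurentSeries L) ∧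
      ∀ a, Λ.o (Additive.ofMul u) a = rowY A.m s q t i (Fin.succ a) := by
    intro t i
    rcases Fin.eq_self_or_eq_succAbove s t with rfl | ⟨a, rfl⟩
    · have hu1 : PowerSeries.constantCoeff (y - PowerSeries.C ((A.a t i : ℤ) : L) *
          PowerSeries.X) = ((1 : Lˣ) : L) := by
        rw [map_sub, hy, map_mul, PowerSeries.constantCoeff_X, mul_zero, sub_zero, Units.val_one]
      refine ⟨_, 1, hu1, ?_, fun a => ?_⟩
      · rw [hφu, hv1]
        unfold rowY
        rw [if_pos rfl, Fin.cons_zero]
      · rw [ofMul_one, map_zero]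
        unfold rowY
        rw [if_pos rfl, Fin.cons_succ]
    · refine Fin.cases (motive := fun a => ∀ i : Fin (A.m (s.succAbove a) + 1),
        ∃ (U : PowerSeries L) (u : Lˣ), PowerSeries.constantCoeff U = u ∧
        φ (A.linU N (s.succAbove a) i : A.CoordRing N) =
          HahnSeries.single (rowY A.m s q (s.succAbove a) i 0) 1 * (U : LaurentSeries L) ∧
        ∀ a', Λ.o (Additive.ofMul u) a' = rowY A.m s q (s.succAbove a) i (Fin.succ a'))
        ?_ ?_ a i
      · intro i
        by_cases hi : i = q (s.succAbove 0)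
        · refine ⟨PowerSeries.C (h : L), h, PowerSeries.constantCoeff_C _, ?_, fun a' => ?_⟩
          · rw [hφu, hv2, if_pos hi, hg1 i hi, Units.val_one, map_one, map_one, mul_one]
            have e1 : G i = 1 := by
              rw [hG]
              dsimp only
              rw [if_pos hi]
            rw [e1, mul_one, map_mul, hXp, mul_comm]
            unfold rowY
            rw [if_neg (Fin.succAbove_ne _ _), if_pos hi, if_pos rfl, Fin.cons_zero]
          · rw [hho]
            unfold rowY
            rw [if_neg (Fin.succAbove_ne _ _), if_pos hi, if_pos rfl, Fin.cons_succ]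
        · refine ⟨PowerSeries.C (Λ.ι (g i : ℚ)) * G i, Units.map (Λ.ι : ℚ →* L) (g i), ?_, ?_,
            fun a' => ?_⟩
          · rw [map_mul, PowerSeries.constantCoeff_C]
            have e1 : PowerSeries.constantCoeff (G i) = 1 := by
              rw [hG]
              dsimp only
              rw [if_neg hi, map_add, map_one, map_mul, map_pow, PowerSeries.constantCoeff_X,
                zero_pow (by omega), mul_zero, add_zero]
            rw [e1, mul_one]
            rfl
          · rw [hφu, hv2, if_neg hi, one_mul]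
            unfold rowY
            rw [if_neg (Fin.succAbove_ne _ _), if_neg hi]
            show _ = HahnSeries.single (0 : ℤ) 1 * _
            rw [← HahnSeries.C_apply, map_one, one_mul]
          · rw [(Λ.rat (g i)).1]
            unfold rowY
            rw [if_neg (Fin.succAbove_ne _ _), if_neg hi]
            rfl
      · intro b i
        refine ⟨PowerSeries.C (w b i : L), w b i, PowerSeries.constantCoeff_C _, ?_,
          fun a' => ?_⟩
        · rw [hφu, hv3]
          have e1 : rowY A.m s q (s.succAbove b.succ) i 0 = 0 := by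
            unfold rowY
            rw [if_neg (Fin.succAbove_ne _ _)]
            by_cases hi : i = q (s.succAbove b.succ)
            · rw [if_pos hi, if_neg (fun h => Fin.succ_ne_zero b
                (Fin.succAbove_right_injective h)), if_neg]
              intro h
              exact Fin.succ_ne_zero b (Fin.succAbove_right_injective h).symm
            · rw [if_neg hi]
              rfl
          rw [e1, HahnSeries.ofPowerSeries_C, ← HahnSeries.C_apply, map_one, one_mul]
        · rw [hw2]
          unfold rowY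
          rw [if_neg (Fin.succAbove_ne _ _)]
          by_cases hi : i = q (s.succAbove b.succ)
          · rw [if_pos hi, if_pos hi, if_neg (fun h => Fin.succ_ne_zero b
                (Fin.succAbove_right_injective h))]
            by_cases hab : a' = b
            · subst hab
              rw [Pi.single_eq_same, if_pos rfl]
            · rw [Pi.single_eq_of_ne hab, if_neg]
              intro h
              exact hab (Fin.succ_injective _ (Fin.succAbove_right_injective h))
          · rw [if_neg hi, if_neg hi]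
            rfl
  choose U u hu hl ho using hU
  refine ⟨{
    L := L
    Λ := Λ
    φ := φ
    U := U
    u := u
    hu := hu
    hl := hl
    ho := ho
    inj := ?_ }⟩
  refine injY A N hN hdom s Λ.ι (fun b => (z b : L))
    (fun b => ((A.a _ (q (s.succAbove b.succ)) : ℤ) : ℚ)) hind φ y hy ?_ ?_
  · rw [hφ, hx1]
  · intro b
    rw [hφ, hx3]

end P4a177y
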