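import Pool.Agent.Lib.P4a177y.DefY
import Pool.Agent.Lib.P4a177x.TfX

/-!
# MODULE P4a177y.TfY: the functionals of the flags on the Milnor K-group of the function field

PROOF. The same as `P4a177x.exists_TF` in `Lib/P4a177x/TfX.lean` (proved; copy and adapt it): `P.φ` extends to `ψ : K →+* LaurentSeries P.L`, `v = (vls P.L).comap ψ`, `Λ'` from `P4a177x.lead_laurent P.Λ`,
pulled back to `K`, `T p` from `P4a177x.exists_T`. The formula: for the symbol of `(c, linU (s'.succAbove b) ..)` the terms with index `i ≥ 1` contain the zero row of the constant, and the term `i = 0` is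
`det (o (linU (s'.succAbove b) ..)) * ord_p c`; the row of `linU t i` is `Fin.cons (rowY A.m s q t i 0) (fun a => rowY A.m s q t i a.succ) = rowY A.m s q t i` by `P.hl`, `P.hu`, `P.ho` and the formula in
`lead_laurent` (`Fin.cons_self_tail`).
-/

set_option autoImplicit false

namespace P4a177y

open P4a177h P4a177x Function

open P4a177x.TfXAux in
theorem exists_TFY {d : ℕ} (A : Fam d) (N : ℕ) (s : Fin (d + 2)) (q : ∀ t, Fin (A.m t + 1))
    (P : YPlace A N s q) (K : Type) [Field K] [Algebra (A.CoordRing N) K]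
    [IsFractionRing (A.CoordRing N) K] :
    ∃ (v : Valuation K (WithZero (Multiplicative ℤ)))
      (T : ∀ (p : ℕ) [Fact p.Prime], MilnorK (d + 2) K →+ ℤ),
      (∀ t : ℚˣ, v (algebraMap (A.CoordRing N) K (algebraMap ℚ (A.CoordRing N) t)) = 1) ∧
      (∀ (p : ℕ) [Fact p.Prime] (ξ : MilnorK (d + 2) K), Unramified v ξ → T p ξ = 0) ∧
      ∀ (p : ℕ) [Fact p.Prime] (c : ℚˣ) (s' : Fin (d + 2)) (j : ∀ t, Fin (A.m t + 1)),
        T p (map (algebraMap (A.CoordRing N) K)
          (symb (Fin.cons (P4a177w.cs (A.CoordRing N) c)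
            (fun b => A.linU N (s'.succAbove b) (j (s'.succAbove b)))))) =
          padicValRat p (c : ℚ) * (Matrix.of fun b : Fin (d + 1) =>
            rowY A.m s q (s'.succAbove b) (j (s'.succAbove b))).det := by
  classical
  obtain ⟨Λ', hΛ'⟩ := lead_laurent P.Λ
  obtain ⟨ψ, hψ⟩ : ∃ ψ : K →+* LaurentSeries P.L, ∀ r : A.CoordRing N,
      ψ (algebraMap (A.CoordRing N) K r) = P.φ r :=
    ⟨IsFractionRing.lift P.inj, fun r => IsFractionRing.lift_algebraMap P.inj r⟩
  -- the pull back of the leading terms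
  have hψι : (ψ.comp ((algebraMap (A.CoordRing N) K).comp (algebraMap ℚ (A.CoordRing N)))) =
      Λ'.ι := Subsingleton.elim _ _
  have hψU : ∀ q : ℚˣ, Units.map (ψ : K →* LaurentSeries P.L) (Units.map
      (((algebraMap (A.CoordRing N) K).comp (algebraMap ℚ (A.CoordRing N)) : ℚ →+* K) : ℚ →* K) q) =
      Units.map (Λ'.ι : ℚ →* LaurentSeries P.L) q := fun q =>
    Units.ext (DFunLike.congr_fun hψι (q : ℚ))
  let Λ₂ : Lead K (d + 1) :=
    { ι := (algebraMap (A.CoordRing N) K).comp (algebraMap ℚ (A.CoordRing N))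
      o := Λ'.o.comp (MonoidHom.toAdditive (Units.map (ψ : K →* LaurentSeries P.L)))
      c := Λ'.c.comp (Units.map (ψ : K →* LaurentSeries P.L))
      rat := fun q => by
        have h := Λ'.rat q
        rw [← hψU q] at h
        exact h
      st := fun f g hfg => by
        have h := Λ'.st (Units.map (ψ : K →* LaurentSeries P.L) f)
          (Units.map (ψ : K →* LaurentSeries P.L) g) (by
            show ψ (f : K) + ψ (g : K) = 1
            rw [← map_add, hfg, map_one])
        exact h }
  have ho2 : ∀ f : Kˣ, Λ₂.o (Additive.ofMul f) =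
      Λ'.o (Additive.ofMul (Units.map (ψ : K →* LaurentSeries P.L) f)) := fun _ => rfl
  have hc2 : ∀ f : Kˣ, Λ₂.c f = Λ'.c (Units.map (ψ : K →* LaurentSeries P.L) f) := fun _ => rfl
  have hT : ∀ (p : ℕ) [Fact p.Prime], ∃ T : MilnorK (d + 2) K →+ ℤ, ∀ a : Fin (d + 2) → Kˣ,
      T (symb a) = ∑ i : Fin (d + 2), (-1) ^ (i : ℕ) *
        (Matrix.of fun s t : Fin (d + 1) => Λ₂.o (Additive.ofMul (a (i.succAbove s))) t).det *
        padicValRat p (Λ₂.c (a i)) := fun p _ => exists_T Λ₂ p
  choose T hTs using hT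
  refine ⟨(vls P.L).comap ψ, T, fun t => ?_, fun p _ ξ hξ => ?_, fun p _ c s' j => ?_⟩
  · -- the constants
    rw [Valuation.comap_apply, hψ]
    have h : P.φ.comp (algebraMap ℚ (A.CoordRing N)) =
        (HahnSeries.C : P.L →+* LaurentSeries P.L).comp P.Λ.ι := Subsingleton.elim _ _
    have h2 : P.φ (algebraMap ℚ (A.CoordRing N) t) = HahnSeries.C (P.Λ.ι t) :=
      DFunLike.congr_fun h (t : ℚ)
    rw [h2]
    refine vls_const _ ?_
    rw [Ne, map_eq_zero]
    exact t.ne_zero
  · -- the unramified elements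
    obtain ⟨k, hk, hmem⟩ := hξ
    have hz : T p (k • ξ) = 0 := by
      refine AddSubgroup.closure_induction (p := fun x _ => T p x = 0) ?_ (map_zero _)
        (fun x y _ _ hx hy => by rw [map_add, hx, hy, add_zero])
        (fun x _ hx => by rw [map_neg, hx, neg_zero]) hmem
      rintro x ⟨a, ha, rfl⟩
      rw [hTs]
      refine Finset.sum_eq_zero fun i _ => ?_
      rw [Matrix.det_eq_zero_of_column_eq_zero 0, mul_zero, zero_mul]
      intro s
      rw [Matrix.of_apply, ho2]
      obtain ⟨n, U, u, hU, hf⟩ := unit_form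
        (Units.map (ψ : K →* LaurentSeries P.L) (a (i.succAbove s)))
      rw [(hΛ' n U u _ hU hf).1]
      have h1 := ha (i.succAbove s)
      rw [Valuation.comap_apply] at h1
      rw [Units.coe_map] at hf
      change ψ _ = _ at hf
      rw [hf] at h1
      rw [Fin.cons_zero]
      exact n_zero hU h1
    rw [map_nsmul] at hz
    exact (smul_eq_zero_iff_right hk.ne').mp hz
  · -- the formula
    rw [map_symb, hTs]
    have hconst : ∀ c : ℚˣ, Units.map (algebraMap (A.CoordRing N) K : (A.CoordRing N) →* K)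
        (P4a177w.cs (A.CoordRing N) c) = Units.map (Λ₂.ι : ℚ →* K) c := fun c => Units.ext rfl
    rw [Fin.sum_univ_succ]
    have hz : ∀ i : Fin (d + 1), (-1 : ℤ) ^ ((i.succ : Fin (d + 2)) : ℕ) *
        (Matrix.of fun s t : Fin (d + 1) => Λ₂.o (Additive.ofMul
          (Units.map (algebraMap (A.CoordRing N) K : (A.CoordRing N) →* K)
            ((Fin.cons (P4a177w.cs (A.CoordRing N) c)
              (fun b => A.linU N (s'.succAbove b) (j (s'.succAbove b))) :
              Fin (d + 2) → (A.CoordRing N)ˣ) (i.succ.succAbove s)))) t).det *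
        padicValRat p (Λ₂.c (Units.map (algebraMap (A.CoordRing N) K : (A.CoordRing N) →* K)
            ((Fin.cons (P4a177w.cs (A.CoordRing N) c)
              (fun b => A.linU N (s'.succAbove b) (j (s'.succAbove b))) :
              Fin (d + 2) → (A.CoordRing N)ˣ) i.succ))) = 0 := by
      intro i
      rw [Matrix.det_eq_zero_of_row_eq_zero 0, mul_zero, zero_mul]
      intro t
      rw [Matrix.of_apply, Fin.succ_succAbove_zero, Fin.cons_zero, hconst, (Λ₂.rat c).1]
      rfl
    rw [Finset.sum_eq_zero fun i _ => hz i, add_zero]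
    have hc0 : Λ₂.c (Units.map (algebraMap (A.CoordRing N) K : (A.CoordRing N) →* K)
        ((Fin.cons (P4a177w.cs (A.CoordRing N) c)
          (fun b => A.linU N (s'.succAbove b) (j (s'.succAbove b))) :
          Fin (d + 2) → (A.CoordRing N)ˣ) 0)) = c := by
      rw [Fin.cons_zero, hconst, (Λ₂.rat c).2]
    rw [hc0]
    have ho3 : ∀ t i, Λ₂.o (Additive.ofMul (Units.map
        (algebraMap (A.CoordRing N) K : (A.CoordRing N) →* K) (A.linU N t i))) =
        rowY A.m s q t i := by
      intro t i
      rw [ho2]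
      rw [(hΛ' _ (P.U t i) (P.u t i) _ (P.hu t i) (by
        show ψ (algebraMap (A.CoordRing N) K (A.linU N t i : A.CoordRing N)) = _
        rw [hψ, P.hl])).1]
      funext a
      refine Fin.cases ?_ (fun a => ?_) a
      · rw [Fin.cons_zero]
      · rw [Fin.cons_succ, P.ho]
    simp only [Fin.val_zero, pow_zero, one_mul, Fin.zero_succAbove, Fin.cons_succ, ho3]
    rw [mul_comm]

end P4a177y
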