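import Pool.Agent.Lib.P4a177y.GenY
import Pool.Agent.Lib.P4a177y.DesA
import Pool.Agent.Lib.P4a177y.DesB

/-!
# The units of the coordinate ring of `N * ∏_s ∏_i (x_s - a_{s,i}) = 1`

A power of every unit is a constant times a product of powers of the functions `x_s - a_{s,i}`. For the
generic curve (with the coordinates `x_0`, `x_1`) this is `unit_pow`; the constant of the generic curve is a
quotient of polynomials in the other variables, whose prime factors are the `x_s - a_{s,i}`.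
-/

set_option autoImplicit false

namespace P4a177y

open P4a177h P4a177e

variable {d : ℕ} (A : Fam d) {N : ℕ}

namespace UniYAux

theorem lin_eq (s : Fin (d + 2)) (i : Fin (A.m s + 1)) :
    (A.linU N s i : A.CoordRing N) =
      vy A N s - algebraMap ℚ (A.CoordRing N) (A.a s i : ℚ) := by
  rw [A.linU_val]
  rfl

theorem jj_lin (u : Fin d) (i : Fin (A.m u.succ.succ + 1)) :
    jj A N (MvPolynomial.X u - MvPolynomial.C (A.a u.succ.succ i : ℚ)) =
      (A.linU N u.succ.succ i : A.CoordRing N) := by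
  rw [lin_eq, map_sub, jj, MvPolynomial.aeval_X, MvPolynomial.aeval_C]

theorem jj_form (c : ℚˣ) (e : ∀ u : Fin d, Fin (A.m u.succ.succ + 1) → ℕ) :
    jj A N (MvPolynomial.C (c : ℚ) * ∏ u, ∏ i,
        (MvPolynomial.X u - MvPolynomial.C (A.a u.succ.succ i : ℚ)) ^ e u i) =
      ((P4a177w.cs (A.CoordRing N) c * ∏ u : Fin d, ∏ i, A.linU N u.succ.succ i ^ e u i :
        (A.CoordRing N)ˣ) : A.CoordRing N) := by
  rw [map_mul, Units.val_mul, map_prod, Units.coe_prod]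
  congr 1
  · rw [jj, MvPolynomial.aeval_C]
    rfl
  · refine Finset.prod_congr rfl fun u _ => ?_
    rw [map_prod, Units.coe_prod]
    refine Finset.prod_congr rfl fun i _ => ?_
    rw [map_pow, jj_lin, Units.val_pow_eq_pow_val]

theorem grp {G : Type*} [CommGroup G] {x1 x2 x3 x4 ω : G} (h : x1 * x4 * ω = x2 * x3) :
    ω = x2 * x1⁻¹ * (x3 * x4⁻¹) := by
  rw [eq_inv_mul_of_mul_eq h, mul_inv, mul_mul_mul_comm, mul_comm x1⁻¹ x2, mul_comm x4⁻¹ x3]

theorem grp_prod {G ι : Type*} [CommGroup G] (s : Finset ι) (f : ι → G) (e e' : ι → ℕ) :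
    ∏ i ∈ s, f i ^ ((e' i : ℤ) - (e i : ℤ)) = (∏ i ∈ s, f i ^ e' i) * (∏ i ∈ s, f i ^ e i)⁻¹ := by
  rw [← Finset.prod_inv_distrib, ← Finset.prod_mul_distrib]
  refine Finset.prod_congr rfl fun i _ => ?_
  rw [zpow_sub, zpow_natCast, zpow_natCast]

theorem grp_prod2 {G ι : Type*} [CommGroup G] (s : Finset ι) (f g : ι → G) :
    ∏ i ∈ s, (f i * (g i)⁻¹) = (∏ i ∈ s, f i) * (∏ i ∈ s, g i)⁻¹ := by
  rw [← Finset.prod_inv_distrib, ← Finset.prod_mul_distrib]

/-- A unit that becomes a constant on the generic curve. -/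
theorem of_frac (hN : 1 ≤ N) (ω : (A.CoordRing N)ˣ) (p q : PP d) (hpq : IsRelPrime p q)
    (h : jj A N q * ω = jj A N p) :
    ∃ (t : ℚˣ) (κ : ∀ u : Fin d, Fin (A.m u.succ.succ + 1) → ℤ),
      ω = P4a177w.cs (A.CoordRing N) t * ∏ u : Fin d, ∏ i, A.linU N u.succ.succ i ^ κ u i := by
  obtain ⟨K, hK⟩ := des_dvd A hN q p ω h
  have h' : jj A N p * (ω⁻¹ : (A.CoordRing N)ˣ) = jj A N q := by
    rw [← h, mul_assoc, Units.mul_inv, mul_one]
  obtain ⟨K', hK'⟩ := des_dvd A hN p q _ h'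
  obtain ⟨c, e, he⟩ := des_form A hN q K (hpq.symm.dvd_of_dvd_mul_right hK)
  obtain ⟨c', e', he'⟩ := des_form A hN p K' (hpq.dvd_of_dvd_mul_right hK')
  rw [he, he', jj_form, jj_form, ← Units.val_mul, Units.val_inj] at h
  refine ⟨c' * c⁻¹, fun u i => (e' u i : ℤ) - (e u i : ℤ), ?_⟩
  have h1 : ∏ u : Fin d, ∏ i, A.linU N u.succ.succ i ^ ((e' u i : ℤ) - (e u i : ℤ)) =
      (∏ u : Fin d, ∏ i, A.linU N u.succ.succ i ^ e' u i) *
        (∏ u : Fin d, ∏ i, A.linU N u.succ.succ i ^ e u i)⁻¹ := by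
    rw [← grp_prod2]
    exact Finset.prod_congr rfl fun u _ => grp_prod _ _ _ _
  rw [h1, map_mul, map_inv]
  exact grp h

theorem rtP (hN : 1 ≤ N) : Rt (PY A N) (fun i => (A.a 0 i : KK d))
    (algebraMap (PP d) (KK d) (FF A N)) where
  c_ne := fun h => FF_ne_zero A hN ((IsFractionRing.injective (PP d) (KK d))
    (by rw [h, map_zero]))
  inj := Int.cast_injective.comp (A.inj 0)
  eq := rfl

theorem rtQ : Rt (QY A) (fun j => (A.a 1 j : KK d)) (1 : KK d) where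
  c_ne := one_ne_zero
  inj := Int.cast_injective.comp (A.inj 1)
  eq := rfl

end UniYAux

open UniYAux

theorem unit_powY (hN : 1 ≤ N) (w : (A.CoordRing N)ˣ) :
    ∃ (t : ℚˣ) (κ : ∀ s, Fin (A.m s + 1) → ℤ),
      w ^ ((A.m 0 + 1) * (A.m 1 + 1)) =
        P4a177w.cs (A.CoordRing N) t * ∏ s, ∏ i, A.linU N s i ^ κ s i := by
  classical
  obtain ⟨O', _, _, ψ, hψ, hψj, hcur⟩ := exists_gen A hN
  have hval : ∀ (s : Fin (d + 2)) (i : Fin (A.m s + 1)),
      ((Units.map (ψ : A.CoordRing N →* O') (A.linU N s i) : O'ˣ) : O') =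
        ψ (vy A N s) - algebraMap (KK d) O' (A.a s i : KK d) := by
    intro s i
    show ψ (A.linU N s i : A.CoordRing N) = _
    rw [lin_eq, map_sub]
    congr 1
    rw [map_intCast, map_intCast, map_intCast]
  obtain ⟨t, κ, κ', h⟩ := unit_pow hcur (rtP A hN) (rtQ A)
    (fun i => Units.map (ψ : A.CoordRing N →* O') (A.linU N 0 i)) (fun i => hval 0 i)
    (fun j => Units.map (ψ : A.CoordRing N →* O') (A.linU N 1 j)) (fun j => hval 1 j)
    (Units.map (ψ : A.CoordRing N →* O') w)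
  obtain ⟨ω, hω⟩ : ∃ ω : (A.CoordRing N)ˣ, w ^ ((A.m 0 + 1) * (A.m 1 + 1)) =
      ω * (∏ i, A.linU N 0 i ^ κ i) * ∏ j, A.linU N 1 j ^ κ' j :=
    ⟨w ^ ((A.m 0 + 1) * (A.m 1 + 1)) * (∏ j, A.linU N 1 j ^ κ' j)⁻¹ *
      (∏ i, A.linU N 0 i ^ κ i)⁻¹, by
      rw [inv_mul_cancel_right, inv_mul_cancel_right]⟩
  have h1 : Units.map (ψ : A.CoordRing N →* O') ω = csK (KK d) O' t := by
    have h2 := congrArg (Units.map (ψ : A.CoordRing N →* O')) hω
    rw [map_pow, h, map_mul, map_mul, map_prod, map_prod] at h2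
    simp only [map_zpow] at h2
    exact (mul_right_cancel (mul_right_cancel h2)).symm
  have h3 : ψ (ω : A.CoordRing N) = algebraMap (KK d) O' (t : KK d) :=
    congrArg (fun z : O'ˣ => (z : O')) h1
  obtain ⟨p, q, hpq, ht⟩ := IsFractionRing.exists_reduced_fraction (A := PP d) (K := KK d)
    (t : KK d)
  have h4 : algebraMap (PP d) (KK d) (q : PP d) * (t : KK d) = algebraMap (PP d) (KK d) p := by
    rw [← ht, IsLocalization.mk'_spec'_mk]
  have h5 : jj A N (q : PP d) * ω = jj A N p := by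
    apply hψ
    rw [map_mul, hψj, hψj, h3, ← map_mul, h4]
  obtain ⟨t', κ'', h6⟩ := of_frac A hN ω p q hpq h5
  let κf : ∀ s : Fin (d + 2), Fin (A.m s + 1) → ℤ := fun s =>
    Fin.cases (motive := fun s => Fin (A.m s + 1) → ℤ) κ
      (fun s' => Fin.cases (motive := fun s' : Fin (d + 1) => Fin (A.m s'.succ + 1) → ℤ) κ' κ'' s')
      s
  refine ⟨t', κf, ?_⟩
  have e2 : ∏ s, ∏ i, A.linU N s i ^ κf s i = (∏ i, A.linU N 0 i ^ κ i) *
      ((∏ j, A.linU N 1 j ^ κ' j) *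
        ∏ u : Fin d, ∏ i, A.linU N u.succ.succ i ^ κ'' u i) :=
    (Fin.prod_univ_succ (fun s => ∏ i, A.linU N s i ^ κf s i)).trans
      (congrArg _ (Fin.prod_univ_succ
        (fun s' : Fin (d + 1) => ∏ i, A.linU N s'.succ i ^ κf s'.succ i)))
  rw [hω, h6, e2]
  have e1 : ∀ a b c e : (A.CoordRing N)ˣ, a * b * c * e = a * (c * (e * b)) := by
    intro a b c e
    rw [mul_assoc, mul_assoc, mul_comm b, ← mul_assoc c e b]
  exact e1 _ _ _ _

end P4a177y
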