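import Pool.Agent.Lib.P4a177y.GnrY
import Pool.Agent.Lib.P4a177y.PlcY
import Pool.Agent.Lib.P4a177y.TfY
import Pool.Agent.Lib.P4a177y.UniY
import Pool.Agent.Lib.P4a177e.AdmE
import Pool.Agent.Lib.P4a177u.Span

/-!
# The unramified elements of `K_n` of the coordinate ring of the hypersurfaces
`N * ∏_s ∏_i (x_s - a_{s,i}) = 1` are combinations of the `ξ_p`, up to torsion
-/

set_option autoImplicit false

namespace P4a177y

open P4a177h Function
open P4a177x (Alt CC Tor map_tor reg_tor)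

variable {d : ℕ} (A : Fam d) (N : ℕ)

/-- The equation of the hypersurface. -/
theorem eqnY : (N : A.CoordRing N) * ∏ s, ∏ i, A.lin N s i = 1 := by
  have h : (Ideal.Quotient.mk (Ideal.span {A.eqn N}) (A.eqn N)) = 0 :=
    Ideal.Quotient.eq_zero_iff_mem.2 (Ideal.subset_span (Set.mem_singleton _))
  unfold Fam.eqn at h
  rw [map_sub, map_one, map_mul, map_natCast, map_prod, sub_eq_zero] at h
  simp only [map_prod] at h
  exact h

theorem sumY (hN : 1 ≤ N) : ∑ s, ∑ i, lR (A.linU N) s i ∈ CC (A.CoordRing N) := by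
  have hN0 : (N : ℚ) ≠ 0 := by
    have : N ≠ 0 := by omega
    exact_mod_cast this
  refine ⟨Additive.ofMul (Units.mk0 (N : ℚ) hN0)⁻¹, ?_⟩
  unfold lR
  simp only [← ofMul_prod]
  show Additive.ofMul (P4a177w.cs (A.CoordRing N) (Units.mk0 (N : ℚ) hN0)⁻¹) = _
  congr 1
  rw [map_inv, inv_eq_iff_mul_eq_one]
  apply Units.ext
  rw [Units.val_mul, Units.coe_prod, Units.val_one]
  simp only [Units.coe_prod, Fam.linU_val]
  have h1 : ((P4a177w.cs (A.CoordRing N) (Units.mk0 (N : ℚ) hN0) : (A.CoordRing N)ˣ) :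
      A.CoordRing N) = (N : A.CoordRing N) := by
    show algebraMap ℚ (A.CoordRing N) (N : ℚ) = _
    rw [map_natCast]
  rw [h1]
  exact eqnY A N

theorem diffY (s : Fin (d + 2)) (i i' : Fin (A.m s + 1)) : ∃ t : ℚ,
    (A.linU N s i : A.CoordRing N) - (A.linU N s i' : A.CoordRing N) =
      algebraMap ℚ (A.CoordRing N) t := by
  refine ⟨(A.a s i' : ℚ) - (A.a s i : ℚ), ?_⟩
  rw [Fam.linU_val, Fam.linU_val]
  unfold Fam.lin
  rw [← map_sub, map_sub (algebraMap ℚ (A.CoordRing N))]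
  have h : ∀ t : ℚ, algebraMap ℚ (A.CoordRing N) t = Ideal.Quotient.mk _ (MvPolynomial.C t) :=
    fun t => rfl
  rw [h, h, ← map_sub]
  congr 1
  ring

theorem hgY (hN : 1 ≤ N) (w : Additive (A.CoordRing N)ˣ) :
    ∃ κ : ∀ s, Fin (A.m s + 1) → ℤ, ((A.m 0 + 1) * (A.m 1 + 1)) • w -
      ∑ s, ∑ i, κ s i • lR (A.linU N) s i ∈ CC (A.CoordRing N) := by
  obtain ⟨t, κ, h⟩ := unit_powY A hN w.toMul
  refine ⟨κ, Additive.ofMul t, ?_⟩
  show Additive.ofMul (P4a177w.cs (A.CoordRing N) t) = _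
  have h1 : ((A.m 0 + 1) * (A.m 1 + 1)) • w =
      Additive.ofMul (w.toMul ^ ((A.m 0 + 1) * (A.m 1 + 1))) := by
    rw [ofMul_pow, ofMul_toMul]
  rw [h1, h, ofMul_mul, ofMul_prod]
  unfold lR
  simp only [ofMul_prod, ofMul_zpow]
  abel

theorem dataY (hN : 1 ≤ N) (K : Type) [Field K] [Algebra (A.CoordRing N) K]
    [IsFractionRing (A.CoordRing N) K] :
    DataY (A.linU N) ((A.m 0 + 1) * (A.m 1 + 1)) K where
  sum_mem := sumY A N hN
  diff := diffY A N
  gen := hgY A N hN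
  flag s r := by
    obtain ⟨P⟩ := exists_placeY A N hN (isDomainY A hN) s r
    exact exists_TFY A N s r P K

theorem spansY (hN : 1 ≤ N) (η : MilnorK (d + 2) (A.CoordRing N))
    (hη : P4a177w.UnramifiedOverQ η) :
    ∃ c : (∀ s, Fin (A.m s)) → ℤ, (((A.m 0 + 1) * (A.m 1 + 1)) ^ (d + 2) * ∏ s, (A.m s + 1)) • η -
      ∑ p, c p • P4a177e.xi A N p ∈ Tor (d + 2) (A.CoordRing N) := by
  have hdom := isDomainY A hN
  exact spans_gen (A.linU N) (dataY A N hN (FractionRing (A.CoordRing N))) (P4a177e.xi A N)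
    (fun p => rfl) (fun p v _ => P4a177e.unramified_xi A N p (FractionRing (A.CoordRing N)) v) η
    (fun v hv => hη (FractionRing (A.CoordRing N)) v hv)

/-- **Main theorem.** Every element of `K_n` of the coordinate ring which is unramified over `ℚ` is,
after multiplication by an explicit integer, an integral combination of the `ξ_p`, up to a
negligible element. -/
theorem spannedByY {d : ℕ} (A : Fam d) {N : ℕ} (hN : 1 ≤ N)
    {η : MilnorK (d + 2) (A.CoordRing N)} (hη : P4a177w.UnramifiedOverQ η) :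
    P4a177u.SpannedBy (P4a177e.xi A N)
      (((A.m 0 + 1) * (A.m 1 + 1)) ^ (d + 2) * ∏ s, (A.m s + 1)) η := by
  obtain ⟨c, hc⟩ := spansY A N hN η hη
  exact ⟨c, fun K _ _ _ => P4a177u.isOfFinAddOrder_of (map_tor (algebraMap _ K) hc),
    fun γ => reg_tor γ hc⟩

end P4a177y
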