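import Pool.Agent.Lib.P4a177y.DefK

/-!
# MODULE P4a177y.OrdK: the valuation of the Laurent series, and the orders of functions at a cusp

PROOFS. `vL` is `Valued.v`, see `Mathlib/RingTheory/LaurentSeries.lean`: `LaurentSeries.val_le_one_iff_eq_coe`,
`LaurentSeries.valuation_single_zpow`, `LaurentSeries.valuation_def`. `vL_coe_unit`: the series is a unit of `𝕜[[z]]`, so both it
and its inverse have value `≤ 1`. `vL_coe_lt`: divisible by `z`, `PowerSeries.X_dvd_iff`. `vL_C`: nonzero constants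
(`HahnSeries.C t = ((PowerSeries.C t : PowerSeries 𝕜) : LaurentSeries 𝕜)`, `PowerSeries.coe_C`). For the cusp: a ring
homomorphism maps `algebraMap 𝕜 R t` to `HahnSeries.C t` (`RingHom.ext_rat`/`Subsingleton (𝕜 →+* _)`, `DFunLike.congr_fun`);
`D.φ (x - t) = F - t = (a₀ - t) + z ^ n U`, with constant coefficient `a₀ - t` if `0 < n`; `D.φ (y - t) = z⁻¹ - t` has value
`exp 1` as `v t ≤ 1 < exp 1`. `v_aeval`: `aeval x G` with `G = (X - C a₀) ^ m * H`, `H.eval a₀ ≠ 0`: the image of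
`aeval x H` is the power series `H(F)` with constant coefficient `H(a₀)`.
-/

set_option autoImplicit false

namespace P4a177y

open Polynomial P4a177h P4a177u WithZero

variable {𝕜 : Type} [Field 𝕜]

theorem vL_coe_le (F : PowerSeries 𝕜) : vL (F : LaurentSeries 𝕜) ≤ 1 :=
  (LaurentSeries.val_le_one_iff_eq_coe 𝕜 _).mpr ⟨F, rfl⟩

theorem exists_coe (f : LaurentSeries 𝕜) (h : vL f ≤ 1) : ∃ F : PowerSeries 𝕜, f = F := by
  obtain ⟨F, hF⟩ := (LaurentSeries.val_le_one_iff_eq_coe 𝕜 f).mp h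
  exact ⟨F, hF.symm⟩

theorem vL_coe_unit (F : PowerSeries 𝕜) (h : PowerSeries.constantCoeff F ≠ 0) :
    vL (F : LaurentSeries 𝕜) = 1 := by
  have hu : IsUnit F := PowerSeries.isUnit_iff_constantCoeff.mpr (isUnit_iff_ne_zero.mpr h)
  obtain ⟨u, rfl⟩ := hu
  have h1 := vL_coe_le (u : PowerSeries 𝕜)
  have h2 := vL_coe_le ((u⁻¹ : (PowerSeries 𝕜)ˣ) : PowerSeries 𝕜)
  have h3 : vL ((u : PowerSeries 𝕜) : LaurentSeries 𝕜) *
      vL (((u⁻¹ : (PowerSeries 𝕜)ˣ) : PowerSeries 𝕜) : LaurentSeries 𝕜) = 1 := by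
    rw [← map_mul, ← PowerSeries.coe_mul, Units.mul_inv, PowerSeries.coe_one, map_one]
  refine le_antisymm h1 ?_
  calc (1 : WithZero (Multiplicative ℤ)) = _ := h3.symm
    _ ≤ vL ((u : PowerSeries 𝕜) : LaurentSeries 𝕜) * 1 := mul_le_mul_right h2 _
    _ = _ := mul_one _

theorem vL_z (n : ℤ) : vL (HahnSeries.single n (1 : 𝕜)) = exp (-n) :=
  LaurentSeries.valuation_single_zpow 𝕜 n

theorem exp_neg_one_lt : (exp (-1 : ℤ) : WithZero (Multiplicative ℤ)) < 1 := by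
  rw [← exp_zero, exp_lt_exp]
  norm_num

theorem one_lt_exp_one : (1 : WithZero (Multiplicative ℤ)) < exp (1 : ℤ) := by
  rw [← exp_zero, exp_lt_exp]
  norm_num

theorem vL_coe_lt (F : PowerSeries 𝕜) (h : PowerSeries.constantCoeff F = 0) :
    vL (F : LaurentSeries 𝕜) < 1 := by
  obtain ⟨G, rfl⟩ := PowerSeries.X_dvd_iff.mpr h
  rw [PowerSeries.coe_mul, PowerSeries.coe_X, map_mul, vL_z]
  calc exp (-1 : ℤ) * vL (G : LaurentSeries 𝕜) ≤ exp (-1 : ℤ) * 1 :=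
        mul_le_mul_right (vL_coe_le G) _
    _ = exp (-1 : ℤ) := mul_one _
    _ < 1 := exp_neg_one_lt

theorem vL_const (t : 𝕜) (ht : t ≠ 0) : vL (HahnSeries.C t : LaurentSeries 𝕜) = 1 := by
  rw [← PowerSeries.coe_C]
  refine vL_coe_unit _ ?_
  simpa using ht

theorem vL_single (n : ℤ) (t : 𝕜) (ht : t ≠ 0) :
    vL (HahnSeries.single n t) = exp (-n) := by
  have h : (HahnSeries.single n t : LaurentSeries 𝕜) =
      HahnSeries.C t * HahnSeries.single n (1 : 𝕜) := by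
    rw [HahnSeries.C_apply, HahnSeries.single_mul_single, zero_add, mul_one]
  rw [h, map_mul, vL_const t ht, one_mul, vL_z]

variable {R : Type} [CommRing R] [Algebra 𝕜 R] {x y : R} {a₀ : 𝕜} {n : ℕ}

theorem Cusp.v_const (D : Cusp R x y a₀ n) (t : 𝕜) (ht : t ≠ 0) :
    vL (D.φ (algebraMap 𝕜 R t)) = 1 := by
  rw [D.φ_const, vL_const t ht]

theorem Cusp.v_y (D : Cusp R x y a₀ n) : vL (D.φ y) = exp (1 : ℤ) := by
  rw [D.hy, vL_z, neg_neg]

theorem Cusp.v_y_sub (D : Cusp R x y a₀ n) (t : 𝕜) :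
    vL (D.φ (y - algebraMap 𝕜 R t)) = exp (1 : ℤ) := by
  rw [map_sub, Valuation.map_sub_eq_of_lt_left, D.v_y]
  rw [D.v_y, D.φ_const, ← PowerSeries.coe_C]
  exact lt_of_le_of_lt (vL_coe_le _) one_lt_exp_one

theorem Cusp.v_x_sub (D : Cusp R x y a₀ n) : vL (D.φ (x - algebraMap 𝕜 R a₀)) = exp (-(n : ℤ)) := by
  have h : D.φ (x - algebraMap 𝕜 R a₀) =
      ((PowerSeries.X ^ n * D.U : PowerSeries 𝕜) : LaurentSeries 𝕜) := by
    rw [map_sub, D.hx, D.φ_const, ← PowerSeries.coe_C, ← PowerSeries.coe_sub]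
    congr 1
    rw [D.hF]
    ring
  rw [h, PowerSeries.coe_mul, map_mul, vL_coe_unit _ D.hU, mul_one, PowerSeries.coe_pow, map_pow]
  have h2 : vL ((PowerSeries.X : PowerSeries 𝕜) : LaurentSeries 𝕜) = exp (-1 : ℤ) := by
    rw [PowerSeries.coe_X, vL_z]
  rw [h2, ← exp_nsmul, smul_neg, nsmul_one]

theorem Cusp.v_x_sub_ne (D : Cusp R x y a₀ n) (hn : 0 < n) (t : 𝕜) (ht : t ≠ a₀) :
    vL (D.φ (x - algebraMap 𝕜 R t)) = 1 := by
  have h : D.φ (x - algebraMap 𝕜 R t) =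
      ((D.F - PowerSeries.C t : PowerSeries 𝕜) : LaurentSeries 𝕜) := by
    rw [map_sub, D.hx, D.φ_const, ← PowerSeries.coe_C, ← PowerSeries.coe_sub]
  rw [h]
  refine vL_coe_unit _ ?_
  rw [D.hF]
  simp only [map_sub, map_add, map_mul, map_pow, PowerSeries.constantCoeff_C,
    PowerSeries.constantCoeff_X, zero_pow hn.ne', zero_mul, add_zero]
  exact sub_ne_zero.mpr (Ne.symm ht)

theorem Cusp.φ_aeval (D : Cusp R x y a₀ n) (H : 𝕜[X]) :
    D.φ (aeval x H) = ((aeval D.F H : PowerSeries 𝕜) : LaurentSeries 𝕜) := by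
  have h : D.φ.comp ((aeval x : 𝕜[X] →ₐ[𝕜] R) : 𝕜[X] →+* R) =
      (HahnSeries.ofPowerSeries ℤ 𝕜).comp ((aeval D.F : 𝕜[X] →ₐ[𝕜] PowerSeries 𝕜) :
        𝕜[X] →+* PowerSeries 𝕜) := by
    refine Polynomial.ringHom_ext (fun t => ?_) ?_
    · simp only [RingHom.coe_comp, RingHom.coe_coe, Function.comp_apply, aeval_C]
      rw [D.φ_const, ← PowerSeries.coe_C]
      rfl
    · simpa using D.hx
  exact DFunLike.congr_fun h H

theorem Cusp.cc_aeval (D : Cusp R x y a₀ n) (hn : 0 < n) (H : 𝕜[X]) :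
    PowerSeries.constantCoeff (aeval D.F H : PowerSeries 𝕜) = H.eval a₀ := by
  have h : (PowerSeries.constantCoeff : PowerSeries 𝕜 →+* 𝕜).comp
      ((aeval D.F : 𝕜[X] →ₐ[𝕜] PowerSeries 𝕜) : 𝕜[X] →+* PowerSeries 𝕜) =
      (evalRingHom a₀ : 𝕜[X] →+* 𝕜) := by
    refine Polynomial.ringHom_ext (fun t => ?_) ?_
    · simp only [RingHom.coe_comp, RingHom.coe_coe, Function.comp_apply, aeval_C, coe_evalRingHom,
        eval_C]
      exact PowerSeries.constantCoeff_C t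
    · simp only [RingHom.coe_comp, RingHom.coe_coe, Function.comp_apply, aeval_X, coe_evalRingHom,
        eval_X]
      rw [D.hF]
      simp [zero_pow hn.ne']
  exact DFunLike.congr_fun h H

theorem Cusp.v_aeval (D : Cusp R x y a₀ n) (hn : 0 < n) (m : ℕ) (H : 𝕜[X]) (hH : H.eval a₀ ≠ 0) :
    vL (D.φ (aeval x ((X - C a₀) ^ m * H))) = exp (-((n * m : ℕ) : ℤ)) := by
  have h1 : aeval x ((X - C a₀) ^ m * H) = (x - algebraMap 𝕜 R a₀) ^ m * aeval x H := by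
    simp
  have h2 : vL (D.φ (aeval x H)) = 1 := by
    rw [D.φ_aeval]
    exact vL_coe_unit _ (by rw [D.cc_aeval hn]; exact hH)
  rw [h1, map_mul, map_mul, h2, mul_one, map_pow, map_pow, D.v_x_sub, ← exp_nsmul]
  congr 1
  push_cast
  ring

end P4a177y
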